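import Mathlib
import Pool.Agent.Lib.Pf72953m.Defs
import Pool.Agent.Lib.Pf72953m.Fin
import Pool.Agent.Lib.Pf72953u.Inst
import Pool.Agent.Lib.Pf72953b.Defs

/-!
Isotrivial fibre spaces over a constant variety, with moving orbifold divisors: definitions.

`B ⊆ E ⊆ L ⊆ N` are finitely generated fields over `k`, `M` is a smooth complete variety with function field
`Y ⊆ L`, `Z ⊆ L` is the compositum of `B` and `Y`, and `G ⊆ N` is a finitely generated field over `k`, `N` algebraic
over the compositum of `Z` and `G`.
-/

set_option autoImplicit false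
set_option linter.style.haveILetI false

open scoped WithZero
open Pf72953 Pf72953.Var Pf72953.Mov

namespace Pf72953.Twr

/-- `Z` is the compositum of `B` and `Y`. -/
def IsCompositum (k B Y Z : Type*) [Field k] [Field B] [Field Y] [Field Z] [Algebra k Z]
    [Algebra B Z] [Algebra Y Z] : Prop :=
  ∀ z : Z, z ∈ IntermediateField.adjoin k (Set.range (algebraMap B Z) ∪ Set.range (algebraMap Y Z))

/-- `N` is generated by `G` and elements algebraic over `Z`. -/
def Isotrivial (k Z G N : Type*) [Field k] [Field Z] [Field G] [Field N] [Algebra k N]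
    [Algebra Z N] [Algebra G N] : Prop :=
  ∀ z : N, z ∈ IntermediateField.adjoin k
    (Set.range (algebraMap G N) ∪ {s : N | IsAlgebraic Z s})

section mov

variable {k B Y N J : Type*} [Field k] [Field B] [Field Y] [Field N] [Algebra k Y] [Algebra B N]
  [Algebra Y N] {M : SmoothModel k Y}

/-- `Spec L` over the generic point of `M × Spec B'` is ramified along all divisors lying over
`div (∑ a_l s_l)` at which the constant fibre `G` is not degenerate: if `w` is a divisorial valuation of
`N/k` trivial on `B` and on `G`, centred on the chart `i` of `M` and on the divisor, then the relative form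
`dx_{i1} ∧ ⋯ ∧ dx_{in}` of `L/B` vanishes at `w`, i.e. `det (D_a (x_{ib}))` is not a unit of the valuation
ring for any `B`-derivations `D_a` of the valuation ring of `w` in `L`. -/
def RamifiedOn (k' L G : Type*) [Field k'] [Field L] [Field G] [Algebra k' N] [Algebra L N]
    [Algebra G N] [Algebra B L] [Algebra Y L] (D : MovingDivisor M B N) : Prop :=
  ∀ w : Valuation N ℤᵐ⁰, IsDivisorial k' N w → (∀ b : B, b ≠ 0 → w (algebraMap B N b) = 1) →
    (∀ g : G, g ≠ 0 → w (algebraMap G N g) = 1) →
    ∀ i, (∀ f ∈ M.A i, w (algebraMap Y N f) ≤ 1) →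
      w D.sec < w (algebraMap Y N (D.S.gen i)) →
      ∀ d : Fin (dimension k Y) → Derivation B L L,
        (∀ a z, w (algebraMap L N z) ≤ 1 → w (algebraMap L N (d a z)) ≤ 1) →
        w (algebraMap L N (Matrix.det (Matrix.of fun a b => d a (algebraMap Y L (M.x i b))))) < 1

/-- `K + ∑ c_j S_j` is `ℚ`-effective for some `c_j ≥ 0` with `max(2, [N : L]) ∑ c_j C_j < 1`, `C_j` a bound
for the multiplicities of the members of the `j`-th linear system; for instance `κ(M) ≥ 0`. -/
def PositiveOn [Fintype J] (L : Type*) [Field L] [Algebra L N] (D : J → MovingDivisor M B N) : Prop :=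
  ∃ (m : ℕ) (q C : J → ℕ), max 2 (Module.finrank L N) * ∑ j, C j * q j < m ∧
    (∀ j, q j ≠ 0 → (D j).MultLE (C j)) ∧
    ∃ ω ∈ pluriSections M (fun j => (D j).S) m q, ω ≠ 0

/-- `w` is the Gauss extension to `N` of its restriction to the algebraic closure of `Z` in `N`: it is the
valuation of the divisor `D' × G` if that restriction is the valuation of `D'` (`N` the function field of a product with the
constant factor `G`).  In particular it is trivial on `G`. -/
def IsGauss (k' Z G : Type*) {N : Type*} [Field k'] [Field Z] [Field G] [Field N] [Algebra k' G]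
    [Algebra Z N] [Algebra G N] (w : Valuation N ℤᵐ⁰) : Prop :=
  ∀ (n : ℕ) (e : Fin n → N) (g : Fin n → G), (∀ a, IsAlgebraic Z (e a)) →
    LinearIndependent k' g → ∀ a, w (e a) ≤ w (∑ b, e b * algebraMap G N (g b))

/-- `L` is unramified over the compositum `Z` of `B` and `k(M)` outside the divisors `D_j`, at the divisors
`D' × G`: at every divisorial valuation `w` of `N/k` trivial on `B`, Gauss with respect to `G`, lying over a prime divisor of
the chart `i` of `M` over `B` (`Br.PrimeAt`) which is not contained in one of the `D_j`, the valuation ring of `L` has a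
uniformizer in `Z`. -/
def UnramifiedOutsideOn (k' Z L G : Type*) [Field k'] [Field Z] [Field L] [Field G] [Algebra k' N]
    [Algebra k' G] [Algebra Z N] [Algebra L N] [Algebra G N] [Algebra B Z] [Algebra Y Z]
    (D : J → MovingDivisor M B N) : Prop :=
  ∀ w : Valuation N ℤᵐ⁰, IsDivisorial k' N w → (∀ b : B, b ≠ 0 → w (algebraMap B N b) = 1) →
    IsGauss k' Z G w → ∀ i, Br.PrimeAt M B Z i w →
    (∀ j, w (D j).sec = w (algebraMap Y N ((D j).S.gen i))) →
    ∀ z : L, w (algebraMap L N z) < 1 →
      ∃ t : Z, w (algebraMap Z N t) < 1 ∧ w (algebraMap L N z) ≤ w (algebraMap Z N t)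

/-- the variation: the transcendence degree over `k` of the field generated by the quotients of the
coefficients of the equations of the moving divisors -/
noncomputable def variation (k' : Type*) [Field k'] [Algebra k' N] (D : J → MovingDivisor M B N) : ℕ :=
  dimension k' (IntermediateField.adjoin k' (⋃ j, (D j).ratios))

end mov

end Pf72953.Twr
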