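import Mathlib
import Pool.Agent.Lib.Pf72953m.Est
import Pool.Agent.Lib.Pf72953t.Defs

/-!
MODULE Pf72953t.Sec: the estimate for the equation of a moving divisor, with constants from `B` and `G`.

This is `relvol_le_one`, `rel_cost`, `sec_bound` and `sec_ne_zero` of Pf72953m/Est.lean with one more family `cG` of
constants (from `G`).
PROOF of `rv_le_one`: `hc.jac_le (zf M i cB cG)`, the product over `zf` is `∏ w cB * ∏ w x_i * ∏ w cG`
(`Fintype.prod_sum_type` twice), `∏ w x_i ≤ 1` by `hA` and `M.mem`; the two other products are nonzero.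
PROOF of `sec_bound'`: as `Mov.sec_bound`: the derivations are `D_b = pd hz (Sum.inl (Sum.inr b))`; they kill `B`
(`pd_algebraMap_of_notMem hcB hz (Sum.inl ∘ Sum.inl) ..`), hence the quotients `a' l = D.a l / D.a l₀` which are algebraic over `B`
(`der_eq_zero_of_isAlgebraic (derOver ..)`), and extend `pd (M.tb i) b` (`pd_algebraMap`); the cost is
`w (D_b g) * rv ≤ w g` by `der_cost hc hz (Sum.inl (Sum.inr b))` with
`P = (∏ w cB) * (∏_{b' ≠ b} w x_{i b'}) * ∏ w cG` (as `rel_cost`); then `star` and `hC i`.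
PROOF of `sec_ne_zero'`: as `Mov.sec_ne_zero` (trivial valuation `1`, `exists_cert`).
-/

set_option autoImplicit false
set_option linter.style.haveILetI false

open scoped WithZero
open Pf72953 Pf72953.Var Pf72953.Mov

namespace Pf72953.Twr

variable {k B Y G N ιB ιG : Type*} [Field k] [CharZero k] [Field B] [Field Y] [Field G] [Field N]
  [Algebra k B] [Algebra k Y] [Algebra k G] [Algebra k N] [Algebra B N] [Algebra Y N]
  [Algebra G N] [IsScalarTower k B N] [IsScalarTower k Y N] [IsScalarTower k G N]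
  [Fintype ιB] [DecidableEq ιB] [Fintype ιG] [DecidableEq ιG] {M : SmoothModel k Y}

/-- the family `(c_B, y, c_G)` of `N` -/
def fam (N : Type*) {B Y G ιB ιY ιG : Type*} [Field B] [Field Y] [Field G] [Field N] [Algebra B N]
    [Algebra Y N] [Algebra G N] (cB : ιB → B) (y : ιY → Y) (cG : ιG → G) :
    (ιB ⊕ ιY) ⊕ ιG → N :=
  Sum.elim (Sum.elim (fun j => algebraMap B N (cB j)) (fun a => algebraMap Y N (y a)))
    (fun l => algebraMap G N (cG l))

/-- the relative logarithmic volume of the coordinates of the chart `i` -/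
noncomputable def rv (M : SmoothModel k Y) (i : M.I) (cB : ιB → B) (cG : ιG → G)
    {w : Valuation N ℤᵐ⁰} {c : (ιB ⊕ Fin (dimension k Y)) ⊕ ιG → N} (hc : LogBasis k w c) :
    ℤᵐ⁰ :=
  w (jac hc.tb (fam N cB (M.x i) cG)) * (∏ j, w (c j)) * (∏ j, w (algebraMap B N (cB j)))⁻¹ *
    (∏ j, w (algebraMap G N (cG j)))⁻¹

namespace SecAux

omit [CharZero k] [Algebra k B] [Algebra k G] [Algebra k N] [IsScalarTower k B N]
  [IsScalarTower k Y N] [IsScalarTower k G N] [DecidableEq ιB] [DecidableEq ιG] in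
theorem prod_fam (i : M.I) (cB : ιB → B) (cG : ιG → G) (w : Valuation N ℤᵐ⁰) :
    ∏ j, w (fam N cB (M.x i) cG j) =
      ((∏ j, w (algebraMap B N (cB j))) * ∏ a, w (algebraMap Y N (M.x i a))) *
        ∏ l, w (algebraMap G N (cG l)) := by
  rw [Fintype.prod_sum_type, Fintype.prod_sum_type]
  rfl

omit [CharZero k] [Algebra k N] [IsScalarTower k B N] [DecidableEq ιB] in
theorem prod_ne_zero {cB : ιB → B} (hcB : IsTranscendenceBasis k cB) (w : Valuation N ℤᵐ⁰) :
    ∏ j, w (algebraMap B N (cB j)) ≠ 0 := by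
  refine Finset.prod_ne_zero_iff.mpr fun j _ => ?_
  rw [Valuation.ne_zero_iff]
  simpa using hcB.1.ne_zero j

omit [IsScalarTower k B N] [IsScalarTower k Y N] [IsScalarTower k G N] in
theorem cost {i : M.I} {cB : ιB → B} {cG : ιG → G} (hcB : IsTranscendenceBasis k cB)
    (hcG : IsTranscendenceBasis k cG) (hz : IsTranscendenceBasis k (fam N cB (M.x i) cG))
    {w : Valuation N ℤᵐ⁰} (hA : ∀ f ∈ M.A i, w (algebraMap Y N f) ≤ 1)
    {c : (ιB ⊕ Fin (dimension k Y)) ⊕ ιG → N} (hc : LogBasis k w c) (a : Fin (dimension k Y))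
    (g : N) : w (pd hz (Sum.inl (Sum.inr a)) g) * rv M i cB cG hc ≤ w g := by
  classical
  have h3 := prod_ne_zero (N := N) hcB w
  have h3' := prod_ne_zero (N := N) hcG w
  have h1 := der_cost hc hz (Sum.inl (Sum.inr a))
    (P := ((∏ j, w (algebraMap B N (cB j))) *
      ∏ b ∈ Finset.univ.erase a, w (algebraMap Y N (M.x i b))) *
        ∏ l, w (algebraMap G N (cG l))) (by
      rw [prod_fam, ← Finset.mul_prod_erase Finset.univ
        (fun b => w (algebraMap Y N (M.x i b))) (Finset.mem_univ a)]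
      change _ = _ * w (algebraMap Y N (M.x i a))
      simp only [mul_comm, mul_left_comm]) g
  have h2 : ∏ b ∈ Finset.univ.erase a, w (algebraMap Y N (M.x i b)) ≤ 1 :=
    Finset.prod_le_one' fun b _ => hA _ (M.mem i b)
  rw [rv]
  calc _ = w (pd hz (Sum.inl (Sum.inr a)) g) *
        (w (jac hc.tb (fam N cB (M.x i) cG)) * ∏ j, w (c j)) *
        (∏ j, w (algebraMap B N (cB j)))⁻¹ * (∏ j, w (algebraMap G N (cG j)))⁻¹ := by
        simp only [mul_assoc]
    _ ≤ (w g * (((∏ j, w (algebraMap B N (cB j))) *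
      ∏ b ∈ Finset.univ.erase a, w (algebraMap Y N (M.x i b))) *
        ∏ l, w (algebraMap G N (cG l)))) *
        (∏ j, w (algebraMap B N (cB j)))⁻¹ * (∏ j, w (algebraMap G N (cG j)))⁻¹ := by gcongr
    _ ≤ (w g * (((∏ j, w (algebraMap B N (cB j))) * 1) * ∏ l, w (algebraMap G N (cG l)))) *
        (∏ j, w (algebraMap B N (cB j)))⁻¹ * (∏ j, w (algebraMap G N (cG j)))⁻¹ := by gcongr
    _ = w g * ((∏ j, w (algebraMap B N (cB j))) * (∏ j, w (algebraMap B N (cB j)))⁻¹) *
        ((∏ l, w (algebraMap G N (cG l))) * (∏ j, w (algebraMap G N (cG j)))⁻¹) := by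
        rw [mul_one]
        ac_rfl
    _ = w g := by rw [mul_inv_cancel₀ h3, mul_inv_cancel₀ h3', mul_one, mul_one]

end SecAux

open SecAux

theorem rv_le_one {i : M.I} {cB : ιB → B} {cG : ιG → G} (hcB : IsTranscendenceBasis k cB)
    (hcG : IsTranscendenceBasis k cG) {w : Valuation N ℤᵐ⁰}
    (hA : ∀ f ∈ M.A i, w (algebraMap Y N f) ≤ 1)
    {c : (ιB ⊕ Fin (dimension k Y)) ⊕ ιG → N} (hc : LogBasis k w c) : rv M i cB cG hc ≤ 1 := by
  have h1 := hc.jac_le (fam N cB (M.x i) cG)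
  rw [prod_fam] at h1
  have h2 : ∏ a, w (algebraMap Y N (M.x i a)) ≤ 1 :=
    Finset.prod_le_one' fun a _ => hA _ (M.mem i a)
  have h3 := prod_ne_zero (N := N) hcB w
  have h3' := prod_ne_zero (N := N) hcG w
  rw [rv]
  calc _ ≤ (((∏ j, w (algebraMap B N (cB j))) * ∏ a, w (algebraMap Y N (M.x i a))) *
        ∏ l, w (algebraMap G N (cG l))) *
        (∏ j, w (algebraMap B N (cB j)))⁻¹ * (∏ j, w (algebraMap G N (cG j)))⁻¹ := by gcongr
    _ ≤ (((∏ j, w (algebraMap B N (cB j))) * 1) * ∏ l, w (algebraMap G N (cG l))) *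
        (∏ j, w (algebraMap B N (cB j)))⁻¹ * (∏ j, w (algebraMap G N (cG j)))⁻¹ := by gcongr
    _ = ((∏ j, w (algebraMap B N (cB j))) * (∏ j, w (algebraMap B N (cB j)))⁻¹) *
        ((∏ l, w (algebraMap G N (cG l))) * (∏ j, w (algebraMap G N (cG j)))⁻¹) := by
        rw [mul_one]
        ac_rfl
    _ = 1 := by rw [mul_inv_cancel₀ h3, mul_inv_cancel₀ h3', mul_one]

/-- the estimate for a moving divisor -/
theorem sec_bound' (D : MovingDivisor M B N) {C : ℕ} (hC : Cert D C) {i : M.I} {cB : ιB → B}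
    {cG : ιG → G} (hcB : IsTranscendenceBasis k cB) (hcG : IsTranscendenceBasis k cG)
    (hz : IsTranscendenceBasis k (fam N cB (M.x i) cG))
    {w : Valuation N ℤᵐ⁰} (hA : ∀ f ∈ M.A i, w (algebraMap Y N f) ≤ 1)
    {c : (ιB ⊕ Fin (dimension k Y)) ⊕ ιG → N} (hc : LogBasis k w c) {l₀ : Fin (D.r + 1)}
    (hl₀ : ∀ l, w (D.a l) ≤ w (D.a l₀)) :
    rv M i cB cG hc ^ C * (w (D.a l₀) * w (algebraMap Y N (D.S.gen i))) ≤ w D.sec := by
  classical
  haveI : CharZero B := charZero_of_injective_algebraMap (algebraMap k B).injective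
  have ha0 : D.a l₀ ≠ 0 := by
    obtain ⟨l, hl⟩ := D.a_ne
    intro h0
    have h1 := hl₀ l
    rw [h0, map_zero, le_zero_iff, map_eq_zero] at h1
    exact hl h1
  have hg0 : algebraMap Y N (D.S.gen i) ≠ 0 := by simpa using D.S.ne i
  obtain ⟨s, g, hs, hg, h1⟩ := hC i
  set a' : Fin (D.r + 1) → N := fun l => D.a l / D.a l₀ with ha'
  have hkill : ∀ b (β : B), pd hz (Sum.inl (Sum.inr b)) (algebraMap B N β) = 0 := fun b β =>
    pd_algebraMap_of_notMem hcB hz (fun j => Sum.inl (Sum.inl j)) (fun _ => rfl)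
      (Sum.inl (Sum.inr b)) (fun _ h => by cases h) β
  have halg : ∀ l, IsAlgebraic B (a' l) := fun l => by
    rw [ha']
    simp only [div_eq_mul_inv]
    exact (D.a_alg l).mul (D.a_alg l₀).inv
  have hstar := star (M.tb i) (M.pd_mem i) (D.local_mem i) hs hg h1 hA
    (fun b => pd hz (Sum.inl (Sum.inr b)))
    (fun b f => pd_algebraMap (M.tb i) hz (fun a => Sum.inl (Sum.inr a))
      (Sum.inl_injective.comp Sum.inr_injective) (fun _ => rfl) b f)
    (rv_le_one hcB hcG hA hc) (fun b z => cost hcB hcG hz hA hc b z)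
    (a' := a') (fun b l => der_eq_zero_of_isAlgebraic
      (derOver (pd hz (Sum.inl (Sum.inr b))) (hkill b)) (halg l))
    (l₀ := l₀) (by rw [ha']; simp only; rw [div_self ha0, map_one])
  have hsec : D.sec = (∑ l, a' l * algebraMap Y N (D.s l / D.S.gen i)) *
      (D.a l₀ * algebraMap Y N (D.S.gen i)) := by
    rw [MovingDivisor.sec, Finset.sum_mul]
    refine Finset.sum_congr rfl fun l _ => ?_
    rw [ha', map_div₀]
    field_simp
  rw [hsec, map_mul, map_mul]
  gcongr

theorem sec_ne_zero' (D : MovingDivisor M B N) [IsAlgClosed k] [Nonempty M.I]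
    (hBYG : ∀ {x : ιB → B} {y : Fin (dimension k Y) → Y} {g : ιG → G}, IsTranscendenceBasis k x →
      IsTranscendenceBasis k y → IsTranscendenceBasis k g → IsTranscendenceBasis k (fam N x y g))
    {x : ιB → B} (hx : IsTranscendenceBasis k x) {g : ιG → G} (hg : IsTranscendenceBasis k g) :
    D.sec ≠ 0 := by
  classical
  obtain ⟨C, hC⟩ := exists_cert D
  obtain ⟨i⟩ := ‹Nonempty M.I›
  obtain ⟨l₀, hl₀⟩ := D.a_ne
  have hone : ∀ z : N, (1 : Valuation N ℤᵐ⁰) z ≤ 1 := fun z => by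
    rcases eq_or_ne z 0 with rfl | hz
    · simp
    · rw [Valuation.one_apply_of_ne_zero hz]
  have htriv : ∀ z : N, z ≠ 0 → (1 : Valuation N ℤᵐ⁰) z = 1 := fun z hz =>
    Valuation.one_apply_of_ne_zero hz
  have hz : IsTranscendenceBasis k (fam N x (M.x i) g) := hBYG hx (M.tb i) hg
  have hc : LogBasis k (1 : Valuation N ℤᵐ⁰) (fam N x (M.x i) g) :=
    LogBasis.of_trivial htriv hz
  have h1 := sec_bound' D hC hx hg hz (w := 1) (fun f _ => hone _) hc (l₀ := l₀) (fun l => by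
    rw [htriv _ hl₀]; exact hone _)
  intro h0
  rw [h0, map_zero, le_zero_iff] at h1
  have h2 : rv M i x g hc ≠ 0 := by
    rw [rv]
    refine mul_ne_zero (mul_ne_zero (mul_ne_zero ?_ ?_) (inv_ne_zero (prod_ne_zero hx _)))
      (inv_ne_zero (prod_ne_zero hg _))
    · rw [jac_self, map_one]
      exact one_ne_zero
    · refine Finset.prod_ne_zero_iff.mpr fun j _ => ?_
      rw [Valuation.ne_zero_iff]
      exact hz.1.ne_zero j
  have h3 : (1 : Valuation N ℤᵐ⁰) (D.a l₀) ≠ 0 := by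
    rw [htriv _ hl₀]
    exact one_ne_zero
  have h4 : (1 : Valuation N ℤᵐ⁰) (algebraMap Y N (D.S.gen i)) ≠ 0 := by
    rw [htriv _ (by simpa using D.S.ne i)]
    exact one_ne_zero
  exact mul_ne_zero (pow_ne_zero _ h2) (mul_ne_zero h3 h4) h1

end Pf72953.Twr
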