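import Mathlib
import Pool.Agent.Lib.Pf72953t.Sec

/-!
MODULE Pf72953t.EstK: the jacobian of the coordinates of `B × M × G` and the logarithmic step of the main estimate.

PROOF of `fam_chain`: `jac_chain` with the transcendence basis `fam N cB y' cG` (it is one: `hN` applied to `hZ hcB hy'` and `hcG`, after rewriting the
images of `B`, `Y` in `N` through `Z`), then `jac_sum` (Pf72953m/Est.lean or where `Mov.mem_GoodL` takes it from) for the fields `Z`, `G` in `N`,
then `jac_sum` for `B`, `Y` in `Z`.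
PROOF of `est_key`: copy `key` in the proof of `Mov.mem_GoodL` (Pf72953m/Est.lean): put `μ = rv M i cB cG hc`, `P = ∏ w cB`, `Q = ∏ w cG`
(both nonzero), `T = ∏ w (c j) ≠ 0`.  `w (jac hc.tb (fam N cB (M.x i) cG)) * T = μ * P * Q` by the definition of `rv`.
For every `j`, with `l₀` an index of the largest coefficient, `w (b j / sec ^ q) * μ ^ (C j * q j) * w gen ^ q ≤ 1` by `sec_bound'` and `hb`
(exactly as `hsec` there).  `w g * w (jac y) ^ m ≤ ∏ w gen ^ q` by `hg i` (as `hgf'` there).  Multiply the claim by `T ^ m` and collect the factors.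
-/

set_option autoImplicit false
set_option linter.style.haveILetI false

open scoped WithZero
open Pf72953 Pf72953.Var Pf72953.Mov

namespace Pf72953.Twr

variable {k B Y G Z N J ιB ιG : Type*} [Field k] [CharZero k] [Field B] [Field Y] [Field G]
  [Field Z] [Field N]
  [Algebra k B] [Algebra k Y] [Algebra k G] [Algebra k Z] [Algebra k N] [Algebra B Z]
  [Algebra B N] [Algebra Y Z] [Algebra Y N] [Algebra Z N] [Algebra G N]
  [IsScalarTower k B Z] [IsScalarTower k Y Z] [IsScalarTower k Z N]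
  [IsScalarTower k B N] [IsScalarTower k Y N] [IsScalarTower k G N] [IsScalarTower B Z N]
  [IsScalarTower Y Z N] [Fintype J]
  [Fintype ιB] [DecidableEq ιB] [Fintype ιG] [DecidableEq ιG] {M : SmoothModel k Y}

namespace EstKAux

theorem aux1 {R : Type*} [CommMonoid R] (h g p S T J u y v : R) (m : ℕ) :
    h * g * p * S * (J * (u * y * v)) ^ m * T ^ m = h * g * p * S * ((J * T) * (u * y * v)) ^ m := by
  simp only [mul_pow]
  ac_rfl

theorem aux2 {R : Type*} [CommMonoid R] (h g p S u y v μ P Q A Φ : R) (m : ℕ)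
    (hμ : μ ^ m = A * Φ) :
    h * g * p * S * ((μ * (P * Q)) * (u * y * v)) ^ m =
      (h * (u * P) ^ m) * (p * (v * Q) ^ m) * (g * y ^ m) * (S * Φ) * A := by
  simp only [mul_pow, hμ]
  ac_rfl

theorem aux3 {R : Type*} [CommMonoid R] (a b G S Φ A : R) :
    a * b * G * (S * Φ) * A = S * Φ * G * (a * b * A) := by
  ac_rfl

theorem aux4 {R : Type*} [CommMonoid R] (a b c : R) :
    a * b * c = b * (a * c) := by
  ac_rfl

end EstKAux

theorem fam_chain
    (hZ : ∀ {x : ιB → B} {y : Fin (dimension k Y) → Y}, IsTranscendenceBasis k x →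
      IsTranscendenceBasis k y → IsTranscendenceBasis k
        (Sum.elim (fun i => algebraMap B Z (x i)) (fun j => algebraMap Y Z (y j))))
    (hN : ∀ {z : ιB ⊕ Fin (dimension k Y) → Z} {g : ιG → G}, IsTranscendenceBasis k z →
      IsTranscendenceBasis k g → IsTranscendenceBasis k
        (Sum.elim (fun i => algebraMap Z N (z i)) (fun j => algebraMap G N (g j))))
    {cB : ιB → B} {y' : Fin (dimension k Y) → Y} {cG : ιG → G}
    (hcB : IsTranscendenceBasis k cB) (hy' : IsTranscendenceBasis k y')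
    (hcG : IsTranscendenceBasis k cG) {c : (ιB ⊕ Fin (dimension k Y)) ⊕ ιG → N}
    (htb : IsTranscendenceBasis k c) (x : ιB → B) (y : Fin (dimension k Y) → Y) (γ : ιG → G) :
    IsTranscendenceBasis k (fam N cB y' cG) ∧
    jac htb (fam N x y γ) = jac htb (fam N cB y' cG) * (algebraMap B N (jac hcB x) *
      algebraMap Y N (jac hy' y) * algebraMap G N (jac hcG γ)) := by
  have e : ∀ (x : ιB → B) (y : Fin (dimension k Y) → Y) (γ : ιG → G), fam N x y γ =
      Sum.elim (fun i => algebraMap Z N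
        (Sum.elim (fun i => algebraMap B Z (x i)) (fun j => algebraMap Y Z (y j)) i))
        (fun j => algebraMap G N (γ j)) := by
    intro x y γ
    funext j
    rcases j with (j | j) | j
    · simp only [fam, Sum.elim_inl]
      exact IsScalarTower.algebraMap_apply B Z N _
    · simp only [fam, Sum.elim_inl, Sum.elim_inr]
      exact IsScalarTower.algebraMap_apply Y Z N _
    · simp only [fam, Sum.elim_inr]
  have hZb := hZ hcB hy'
  have hNb := hN hZb hcG
  have hz : IsTranscendenceBasis k (fam N cB y' cG) := by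
    rw [e]
    exact hNb
  refine ⟨hz, ?_⟩
  rw [jac_chain hz htb]
  congr 1
  have h1 : jac hz (fam N x y γ) = jac hNb (fam N x y γ) := by
    congr 1
    exact e cB y' cG
  rw [h1, e x y γ, jac_sum hZb hcG hNb, jac_sum hcB hy' hZb, map_mul,
    ← IsScalarTower.algebraMap_apply B Z N, ← IsScalarTower.algebraMap_apply Y Z N]

omit [IsScalarTower k B Z] [IsScalarTower k Y Z] [IsScalarTower k Z N] [IsScalarTower B Z N]
  [IsScalarTower Y Z N] [Field Z] [Algebra k Z] [Algebra B Z] [Algebra Y Z] [Algebra Z N] in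
theorem est_key (D : J → MovingDivisor M B N) {C : J → ℕ} (hC : ∀ j, Cert (D j) (C j)) {m : ℕ}
    {q : J → ℕ} (hq : ∑ j, C j * q j ≤ m) {i : M.I} {cB : ιB → B} {cG : ιG → G}
    (hcB : IsTranscendenceBasis k cB) (hcG : IsTranscendenceBasis k cG)
    (hz : IsTranscendenceBasis k (fam N cB (M.x i) cG))
    {w : Valuation N ℤᵐ⁰} (hA : ∀ f ∈ M.A i, w (algebraMap Y N f) ≤ 1)
    {c : (ιB ⊕ Fin (dimension k Y)) ⊕ ιG → N} (hc : LogBasis k w c)
    {y : Fin (dimension k Y) → Y} {g : Y} (hg : g ∈ CoefSec M (fun j => (D j).S) y m q)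
    {b : J → N} (hb : ∀ j, b j ∈ Num (D j) (q j)) (hsec : ∀ j, (D j).sec ≠ 0)
    {h p u v α β : ℤᵐ⁰} (hα : h * (u * ∏ j, w (algebraMap B N (cB j))) ^ m ≤ α)
    (hβ : p * (v * ∏ j, w (algebraMap G N (cG j))) ^ m ≤ β)
    (hαβ : α * β * rv M i cB cG hc ^ (m - ∑ j, C j * q j) ≤ (∏ j, w (c j)) ^ m) :
    h * w (algebraMap Y N g) * p * (∏ j, w (b j / (D j).sec ^ q j)) *
      (w (jac hc.tb (fam N cB (M.x i) cG)) *
        (u * w (algebraMap Y N (jac (M.tb i) y)) * v)) ^ m ≤ 1 := by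
  classical
  set μ := rv M i cB cG hc with hμ
  set P := ∏ j, w (algebraMap B N (cB j)) with hP
  set Q := ∏ j, w (algebraMap G N (cG j)) with hQ
  have hP0 : P ≠ 0 := SecAux.prod_ne_zero hcB w
  have hQ0 : Q ≠ 0 := SecAux.prod_ne_zero hcG w
  have hT0 : ∏ j, w (c j) ≠ 0 := by
    refine Finset.prod_ne_zero_iff.mpr fun j _ => ?_
    rw [Valuation.ne_zero_iff]
    exact hc.tb.1.ne_zero j
  have hTpos : 0 < ∏ j, w (c j) := zero_lt_iff.mpr hT0
  have hwsec : ∀ j, w (D j).sec ≠ 0 := fun j => (Valuation.ne_zero_iff w).mpr (hsec j)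
  have hmax : ∀ j, ∃ l₀, ∀ l, w ((D j).a l) ≤ w ((D j).a l₀) := fun j => by
    obtain ⟨l₀, -, hl₀⟩ := Finset.exists_max_image Finset.univ (fun l => w ((D j).a l))
      Finset.univ_nonempty
    exact ⟨l₀, fun l => hl₀ l (Finset.mem_univ l)⟩
  choose l₀ hl₀ using hmax
  have hterm : ∀ j, w (b j / (D j).sec ^ q j) * μ ^ (C j * q j) *
      w (algebraMap Y N ((D j).S.gen i)) ^ q j ≤ 1 := by
    intro j
    have h3 := sec_bound' (D j) (hC j) hcB hcG hz hA hc (hl₀ j)
    have h4 := hb j w (l₀ j) (hl₀ j)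
    have h5 : 0 < w (D j).sec ^ q j := pow_pos (zero_lt_iff.mpr (hwsec j)) _
    rw [map_div₀, map_pow, div_mul_eq_mul_div, div_mul_eq_mul_div, div_le_one₀ h5]
    calc w (b j) * μ ^ (C j * q j) * w (algebraMap Y N ((D j).S.gen i)) ^ q j
        ≤ w ((D j).a (l₀ j)) ^ q j * μ ^ (C j * q j) *
          w (algebraMap Y N ((D j).S.gen i)) ^ q j := by gcongr
      _ = (μ ^ C j * (w ((D j).a (l₀ j)) * w (algebraMap Y N ((D j).S.gen i)))) ^ q j := by
        rw [mul_pow, mul_pow, pow_mul]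
        exact EstKAux.aux4 _ _ _
      _ ≤ w (D j).sec ^ q j := pow_le_pow_left' h3 _
  obtain ⟨f, hf, hgf⟩ := hg i
  have hwf := hA f hf
  have hgf' : w (algebraMap Y N g) * w (algebraMap Y N (jac (M.tb i) y)) ^ m ≤
      ∏ j, w (algebraMap Y N ((D j).S.gen i)) ^ q j := by
    rw [← map_pow, ← map_pow, ← map_mul, ← map_mul, hgf, map_mul, map_mul, map_prod, map_prod]
    simp only [map_pow]
    exact mul_le_of_le_one_left' hwf
  have hμm : μ ^ m = μ ^ (m - ∑ j, C j * q j) * ∏ j, μ ^ (C j * q j) := by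
    rw [Finset.prod_pow_eq_pow_sum, ← pow_add]
    congr 1
    omega
  have hvol : w (jac hc.tb (fam N cB (M.x i) cG)) * ∏ j, w (c j) = μ * (P * Q) := by
    rw [hμ, rv, ← hP, ← hQ]
    calc _ = w (jac hc.tb (fam N cB (M.x i) cG)) * (∏ j, w (c j)) * (P⁻¹ * P) * (Q⁻¹ * Q) := by
          rw [inv_mul_cancel₀ hP0, inv_mul_cancel₀ hQ0, mul_one, mul_one]
      _ = _ := by ac_rfl
  have hpos : 0 < (∏ j, w (c j)) ^ m := pow_pos hTpos m
  refine le_of_mul_le_mul_right (a := (∏ j, w (c j)) ^ m) ?_ hpos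
  rw [one_mul]
  calc _ = h * w (algebraMap Y N g) * p * (∏ j, w (b j / (D j).sec ^ q j)) *
        ((w (jac hc.tb (fam N cB (M.x i) cG)) * ∏ j, w (c j)) *
          (u * w (algebraMap Y N (jac (M.tb i) y)) * v)) ^ m := by
        exact EstKAux.aux1 _ _ _ _ _ _ _ _ _ m
    _ = (h * (u * P) ^ m) * (p * (v * Q) ^ m) *
        (w (algebraMap Y N g) * w (algebraMap Y N (jac (M.tb i) y)) ^ m) *
        ((∏ j, w (b j / (D j).sec ^ q j)) * ∏ j, μ ^ (C j * q j)) *
        μ ^ (m - ∑ j, C j * q j) := by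
        rw [hvol]
        exact EstKAux.aux2 _ _ _ _ _ _ _ _ _ _ _ _ m hμm
    _ ≤ α * β * (∏ j, w (algebraMap Y N ((D j).S.gen i)) ^ q j) *
        ((∏ j, w (b j / (D j).sec ^ q j)) * ∏ j, μ ^ (C j * q j)) *
        μ ^ (m - ∑ j, C j * q j) := by gcongr
    _ = (∏ j, w (b j / (D j).sec ^ q j) * μ ^ (C j * q j) *
        w (algebraMap Y N ((D j).S.gen i)) ^ q j) * (α * β * μ ^ (m - ∑ j, C j * q j)) := by
        rw [Finset.prod_mul_distrib, Finset.prod_mul_distrib]
        exact EstKAux.aux3 _ _ _ _ _ _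
    _ ≤ 1 * (∏ j, w (c j)) ^ m := by
        gcongr
        exact Finset.prod_le_one' fun j _ => hterm j
    _ = _ := one_mul _

end Pf72953.Twr
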