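import Mathlib
import Pool.Agent.Lib.Pf72953.Adapted

/-!
MODULE Pf72953t.Idx: the ramification index is at most the degree.

PROOF.  Let `f = finrank L N`.  The `f + 1` elements `1, z, …, z ^ f` of `N` are linearly dependent over `L`:
`∑ a_i z ^ i = 0`, not all `a_i = 0` (if `z = 0` the statement is trivial unless `f = 0`, which does not occur:
`Module.finrank_pos`).  Two different nonzero terms have the same (maximal) value (otherwise the sum has the
value of its unique maximal term, `Valuation.map_sum_eq_of_lt` or induction): `w a_i * w z ^ i = w a_j * w z ^ j ≠ 0` with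
`i < j ≤ f`.  So `w (a_i / a_j) = w z ^ (j - i) < 1`, hence `w z ^ (j - i) ≤ w τ` by `IsUnif.le`, and
`w z ^ f ≤ w z ^ (j - i)` since `w z ≤ 1` and `j - i ≤ f`.
-/

set_option autoImplicit false

open scoped WithZero

namespace Pf72953.Twr

namespace IdxAux

/-- two terms of the same value -/
theorem exists_pair {L N : Type*} [Field L] [Field N] [Algebra L N] [FiniteDimensional L N]
    (w : Valuation N ℤᵐ⁰) (z : N) : ∃ (i j : ℕ) (a b : L), i < j ∧ j ≤ Module.finrank L N ∧
      w (algebraMap L N a) * w z ^ i = w (algebraMap L N b) * w z ^ j ∧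
      w (algebraMap L N b) * w z ^ j ≠ 0 ∨ z = 0 := by
  classical
  by_cases hz : z = 0
  · exact ⟨0, 0, 0, 0, Or.inr hz⟩
  set f := Module.finrank L N with hf
  have hdep : ¬ LinearIndependent L (fun i : Fin (f + 1) => z ^ (i : ℕ)) := by
    intro h
    have := h.fintype_card_le_finrank
    rw [Fintype.card_fin] at this
    omega
  obtain ⟨g, hg0, k, hk⟩ := Fintype.not_linearIndependent_iff.1 hdep
  simp only [Algebra.smul_def] at hg0
  obtain ⟨i, -, hi⟩ := Finset.exists_max_image (Finset.univ : Finset (Fin (f + 1)))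
    (fun i => w (algebraMap L N (g i) * z ^ (i : ℕ))) Finset.univ_nonempty
  have hkne : w (algebraMap L N (g k) * z ^ (k : ℕ)) ≠ 0 := by
    rw [Valuation.ne_zero_iff]
    exact mul_ne_zero ((map_ne_zero _).2 hk) (pow_ne_zero _ hz)
  have hine : w (algebraMap L N (g i) * z ^ (i : ℕ)) ≠ 0 := by
    intro h0
    have := hi k (Finset.mem_univ k)
    rw [h0] at this
    exact hkne (le_zero_iff.1 this)
  obtain ⟨j, hji, hj⟩ : ∃ j, j ≠ i ∧ w (algebraMap L N (g j) * z ^ (j : ℕ)) =
      w (algebraMap L N (g i) * z ^ (i : ℕ)) := by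
    by_contra hcon
    push Not at hcon
    have h1 : w (∑ j : Fin (f + 1), algebraMap L N (g j) * z ^ (j : ℕ)) =
        w (algebraMap L N (g i) * z ^ (i : ℕ)) := by
      refine w.map_sum_eq_of_lt (Finset.mem_univ i) fun j hj => ?_
      have hj' : j ≠ i := by
        rw [Finset.mem_sdiff, Finset.mem_singleton] at hj
        exact hj.2
      exact lt_of_le_of_ne (hi j (Finset.mem_univ j)) (hcon j hj')
    rw [hg0, map_zero] at h1
    exact hine h1.symm
  rcases lt_or_gt_of_ne hji with h | h
  · refine ⟨j, i, g j, g i, Or.inl ⟨h, by have := i.2; omega, ?_, ?_⟩⟩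
    · rw [map_mul, map_mul, map_pow, map_pow] at hj
      exact hj
    · rw [map_mul, map_pow] at hine
      exact hine
  · refine ⟨i, j, g i, g j, Or.inl ⟨h, by have := j.2; omega, ?_, ?_⟩⟩
    · rw [map_mul, map_mul, map_pow, map_pow] at hj
      exact hj.symm
    · rw [map_mul, map_mul, map_pow, map_pow] at hj
      rw [map_mul, map_pow] at hine
      rw [hj]
      exact hine

end IdxAux

open IdxAux in
theorem pow_finrank_le {L N : Type*} [Field L] [Field N] [Algebra L N] [FiniteDimensional L N]
    {w : Valuation N ℤᵐ⁰} {τ : L} (hτ : IsUnif (w.comap (algebraMap L N)) τ) {z : N}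
    (hz : w z < 1) : w z ^ Module.finrank L N ≤ w (algebraMap L N τ) := by
  obtain ⟨i, j, a, b, h | h⟩ := exists_pair (L := L) w z
  · obtain ⟨hij, hj, he, hne⟩ := h
    have hwb : w (algebraMap L N b) ≠ 0 := left_ne_zero_of_mul hne
    have hwz : w z ^ j ≠ 0 := right_ne_zero_of_mul hne
    have hwz1 : w z ≠ 0 := by
      intro h0
      rw [h0, zero_pow (by omega)] at hwz
      exact hwz rfl
    have hwi : w z ^ i ≠ 0 := pow_ne_zero _ hwz1
    have h1 : w (algebraMap L N (a / b)) = w z ^ (j - i) := by
      rw [map_div₀, map_div₀, div_eq_iff hwb]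
      have e : w z ^ j = w z ^ (j - i) * w z ^ i := by
        rw [← pow_add]
        congr 1
        omega
      rw [e, ← mul_assoc] at he
      have := mul_right_cancel₀ hwi he
      rw [this, mul_comm]
    have h2 : w z ^ (j - i) < 1 := pow_lt_one' hz (by omega)
    have h3 := hτ.le (a / b) (by
      rw [Valuation.comap_apply, h1]
      exact h2)
    rw [Valuation.comap_apply, Valuation.comap_apply, h1] at h3
    refine le_trans ?_ h3
    exact pow_le_pow_right_of_le_one' hz.le (by omega)
  · subst h
    have : 0 < Module.finrank L N := Module.finrank_pos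
    rw [map_zero, zero_pow (by omega)]
    exact zero_le

end Pf72953.Twr
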