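import Mathlib
import Pool.Agent.Lib.Pf72953.Abhyankar
import Pool.Agent.Lib.Pf72953.Adapted

/-!
MODULE Pf72953t.Ext: extension of residually independent families.

PROOF.  Let `R = ResidueField w.valuationSubring`, a `B`-algebra as in the proof of `Up.IsDivisorial.under`
(file Pf72953u/Inst.lean: `letI : Algebra B w.valuationSubring := ((algebraMap B L).codRestrict ..).toAlgebra`).  By
`resIndep_iff` a family is residually independent iff its residues are algebraically independent over `B`; so the
residues of `ξ` are algebraically independent, and `hw.resid` gives `dimension B L - 1` algebraically independent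
elements of `R`, so `dimension B L - 1 ≤ trdeg B R`.  Also `r + 1 ≤ dimension B L`: `(t, ξ)` is algebraically
independent for `t` with `w t < 1`, `t ≠ 0` (`ResIndep.algebraicIndependent`, `exists_unif`).  Extend the range of the
residues of `ξ` to a transcendence basis `T` of `R` (`exists_isTranscendenceBasis_superset`), `#T = trdeg ≥ dimension B L - 1`, choose
`n = dimension B L - 1 - r` elements of `T` outside the range (`#(T \ range) ≥ n`), lift them to the valuation ring
(`residue_surjective`).  The joint family is algebraically independent as an injective enumeration of a subset of `T`.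
-/

set_option autoImplicit false
set_option linter.style.haveILetI false

open scoped WithZero
open IsLocalRing

namespace Pf72953.Twr

theorem exists_resIndep_ext {B L : Type*} [Field B] [Field L] [Algebra B L] [FinTrdeg B L]
    {w : Valuation L ℤᵐ⁰} (hw : IsDivisorial B L w) {r : ℕ} {ξ : Fin r → L}
    (hξ : ResIndep B w ξ) :
    ∃ (n : ℕ) (ξ' : Fin n → L), r + n + 1 = dimension B L ∧ ResIndep B w (Sum.elim ξ ξ') := by
  classical
  have hB : ∀ b : B, algebraMap B L b ∈ w.valuationSubring := by
    intro b
    rcases eq_or_ne b 0 with rfl | hb
    · simp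
    · exact (hw.const b hb).le
  letI algB : Algebra B w.valuationSubring :=
    ((algebraMap B L).codRestrict w.valuationSubring hB).toAlgebra
  haveI : IsScalarTower B w.valuationSubring L := IsScalarTower.of_algebraMap_eq fun _ => rfl
  have hmem : ∀ i, ξ i ∈ w.valuationSubring := fun i => (hξ.apply i).le
  set x : Fin r → w.valuationSubring := fun i => ⟨ξ i, hmem i⟩ with hx
  have h1 : AlgebraicIndependent B (fun i => residue w.valuationSubring (x i)) :=
    (resIndep_iff w x).mp hξ
  obtain ⟨x₀, hx₀⟩ := hw.resid
  have hx₀' : ResIndep B w x₀ := hx₀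
  have hmem₀ : ∀ i, x₀ i ∈ w.valuationSubring := fun i => (hx₀'.apply i).le
  have h2 := natCast_le_trdeg_of_le_dimension
    ((resIndep_iff w (fun i => (⟨x₀ i, hmem₀ i⟩ : w.valuationSubring))).mp hx₀')
  obtain ⟨t, ht⟩ := exists_unif w hw.nontrivial
  have h3 := (ResIndep.algebraicIndependent hξ ht.ne_zero ht.lt_one).lift_cardinalMk_le_trdeg
  have h4 : r + 1 ≤ dimension B L := by
    rw [← trdeg_eq_dimension, Cardinal.mk_fintype, Fintype.card_option, Fintype.card_fin,
      Cardinal.lift_natCast, Cardinal.lift_natCast] at h3
    exact_mod_cast h3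
  have hs : AlgebraicIndepOn B id (Set.range fun i => residue w.valuationSubring (x i)) :=
    h1.coe_range
  obtain ⟨T, hsT, hT⟩ := exists_isTranscendenceBasis_superset hs
  obtain ⟨n, hn⟩ : ∃ n, r + n + 1 = dimension B L := ⟨dimension B L - 1 - r, by omega⟩
  set S := Set.range fun i => residue w.valuationSubring (x i) with hS
  have hcard : (n : Cardinal) ≤ Cardinal.mk (T \ S : Set (ResidueField w.valuationSubring)) := by
    by_contra hlt
    rw [not_le] at hlt
    obtain ⟨m, hm⟩ := Cardinal.lt_aleph0.mp (hlt.trans Cardinal.natCast_lt_aleph0)
    have h5 := Cardinal.mk_sdiff_add_mk hsT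
    have h6 : Cardinal.mk S = r := by
      have h7 := Cardinal.mk_range_eq_of_injective h1.injective
      rw [Cardinal.mk_fin, Cardinal.lift_natCast] at h7
      rw [hS]
      simpa using h7
    rw [hT.cardinalMk_eq_trdeg, hm, h6] at h5
    rw [← h5] at h2
    rw [hm] at hlt
    have h7 : m < n := by exact_mod_cast hlt
    have h8 : dimension B L - 1 ≤ m + r := by exact_mod_cast h2
    omega
  have h9 : Cardinal.lift (Cardinal.mk (Fin n)) ≤
      Cardinal.lift (Cardinal.mk (T \ S : Set (ResidueField w.valuationSubring))) := by
    simpa using hcard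
  rw [Cardinal.lift_mk_le'] at h9
  obtain ⟨f⟩ := h9
  choose z hz using fun j => residue_surjective ((f j : ResidueField w.valuationSubring))
  refine ⟨n, fun j => (z j : L), hn, ?_⟩
  have h10 : ResIndep B w (fun i => ((Sum.elim x z i : w.valuationSubring) : L)) := by
    rw [resIndep_iff]
    let g : Fin r ⊕ Fin n → T := Sum.elim (fun i => ⟨residue w.valuationSubring (x i), hsT ⟨i, rfl⟩⟩)
      (fun j => ⟨f j, (f j).2.1⟩)
    have hg : Function.Injective g := by
      rintro (i | i) (j | j) hij
      · exact congrArg Sum.inl (h1.injective (congrArg Subtype.val hij))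
      · exact absurd ⟨i, congrArg Subtype.val hij⟩ (f j).2.2
      · exact absurd ⟨j, (congrArg Subtype.val hij).symm⟩ (f i).2.2
      · have h12 : ((g (Sum.inr i) : T) : ResidueField w.valuationSubring) = g (Sum.inr j) :=
          congrArg (fun a : T => (a : ResidueField w.valuationSubring)) hij
        exact congrArg Sum.inr (f.injective (Subtype.ext h12))
    have h11 := hT.1.comp g hg
    have h12 : (fun i => residue w.valuationSubring (Sum.elim x z i)) =
        (Subtype.val : T → ResidueField w.valuationSubring) ∘ g := by
      funext i
      rcases i with i | j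
      · rfl
      · exact hz j
    rw [h12]
    exact h11
  have h13 : (fun i => ((Sum.elim x z i : w.valuationSubring) : L)) =
      Sum.elim ξ (fun j => (z j : L)) := by
    funext i
    rcases i with i | j <;> rfl
  rw [← h13]
  exact h10

end Pf72953.Twr
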