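import Mathlib
import Pool.Agent.Lib.Pf72953.Orb
import Pool.Agent.Lib.Pf72953t.Ext

/-!
MODULE Pf72953t.Ram: ramification in terms of logarithmic volumes.

`B ⊆ Z ⊆ L`, `w` divisorial on `L/B`, `c = (t, ξ)` adapted to the restriction of `w` to `Z`, `τ` a uniformizer of `w`.
PROOF.  `hc`: `c = (fun o => o.elim t ξ) ∘ e`, `e : ι ≃ Option (Fin r)`, `ξ : Fin r → Z` residually independent; so is its image in `L`
(`Adapted.map`).  `exists_resIndep_ext` gives `ξ' : Fin n → L` with `r + n + 1 = dimension B L` and `(ξ, ξ')` residually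
independent.  Put `c'' = Sum.elim (image of c) ξ' : ι ⊕ Fin n → L` and `c' =` the same family with `t` replaced by `τ`.
Both are adapted to `w` (with `t`, resp. `τ`), `#(ι ⊕ Fin n) = dimension B L`, so both are log bases
(`Adapted.logBasis`), and `c'` is a regular basis (`Adapted.regBasis`, `τ` is a uniformizer).  `LogBasis.vol_eq` for the family `c''`,
with `jac_self` and `Adapted.prod`, gives
(1) `w (jac c' c'') * w τ = w t`.
Let `d_a = pd c' (Sum.inl a)`, `a ∈ ι`; these are regular (`RegBasis.der`).  `det_der_algebraMap` (Pf72953/Orb.lean, for `B, Z, L`) gives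
`det (d_a x_b) = jac_Z c x * det (d_a c_b)`, and `det (d_a c_b) = jac c' c''`: the matrix `(pd c' p) (c'' q)`, `p, q ∈ ι ⊕ Fin n`, has the
columns `q = inr j` equal to the unit vectors (`c'' (inr j) = c' (inr j)`, `pd_self`), use `Matrix.det_fromBlocks_zero₁₂`
(see the end of the proof of `Mov.jac_lt_one` in Pf72953m/Over.lean for the same computation).  So `hram` gives
`w (jac_Z c x) * w (jac c' c'') < 1`; multiply by `w τ` and use (1).
-/

set_option autoImplicit false
set_option linter.style.haveILetI false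

open scoped WithZero

namespace Pf72953.Twr

namespace RamAux

/-- reindexing of the families -/
def opt (r n : ℕ) : Option (Fin r) ⊕ Fin n ≃ Option (Fin r ⊕ Fin n) where
  toFun := Sum.elim (fun o => o.elim none (fun i => some (Sum.inl i))) (fun j => some (Sum.inr j))
  invFun := fun o => o.elim (Sum.inl none)
    (Sum.elim (fun i => Sum.inl (some i)) (fun j => Sum.inr j))
  left_inv := by
    rintro ((_ | i) | j) <;> rfl
  right_inv := by
    rintro (_ | (i | j)) <;> rfl

/-- the family `(s, ξ, ξ')` -/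
def F {L ι : Type*} {r n : ℕ} (e : ι ≃ Option (Fin r)) (ξ : Fin r → L) (ξ' : Fin n → L) (s : L) :
    ι ⊕ Fin n → L :=
  Sum.elim (fun a => (e a).elim s ξ) ξ'

theorem reindex {k K α β Γ : Type*} [Field k] [Field K] [Algebra k K]
    [LinearOrderedCommGroupWithZero Γ] {w : Valuation K Γ} {x : α → K} (hx : ResIndep k w x)
    (f : β ≃ α) : ResIndep k w (x ∘ f) := by
  intro p hp
  have h1 : MvPolynomial.aeval (x ∘ f) p = MvPolynomial.aeval x (MvPolynomial.rename f p) := by
    rw [MvPolynomial.aeval_rename]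
  rw [h1]
  refine hx _ fun h0 => hp ?_
  exact MvPolynomial.rename_injective f f.injective (by rw [h0, map_zero])

theorem adapted_F {k L ι : Type*} [Field k] [Field L] [Algebra k L] {r n : ℕ}
    (e : ι ≃ Option (Fin r)) {ξ : Fin r → L} {ξ' : Fin n → L} {w : Valuation L ℤᵐ⁰}
    (h : ResIndep k w (Sum.elim ξ ξ')) {s : L} (hs0 : s ≠ 0) (hs : w s < 1) :
    Adapted k w (F e ξ ξ' s) s := by
  refine ⟨r + n, (Equiv.sumCongr e (Equiv.refl (Fin n))).trans
    ((opt r n).trans (Equiv.optionCongr finSumFinEquiv)), Sum.elim ξ ξ' ∘ finSumFinEquiv.symm,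
    reindex h _, hs0, hs, ?_⟩
  funext p
  rcases p with a | j
  · rcases h1 : e a with _ | i
    · simp [F, opt, h1]
    · simp [F, opt, h1]
  · simp [F, opt]

end RamAux

open RamAux

theorem ram_core {B Z L ι : Type*} [Field B] [CharZero B] [Field Z] [Field L] [Algebra B Z]
    [Algebra Z L] [Algebra B L] [IsScalarTower B Z L] [Algebra.EssFiniteType B Z]
    [Algebra.EssFiniteType B L] [Fintype ι] [DecidableEq ι] {w : Valuation L ℤᵐ⁰}
    (hw : IsDivisorial B L w) {c : ι → Z} {t : Z}
    (hc : Adapted B (w.comap (algebraMap Z L)) c t) (htb : IsTranscendenceBasis B c) {τ : L}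
    (hτ : IsUnif w τ) (x : ι → Z)
    (hram : ∀ d : ι → Derivation B L L, (∀ a z, w z ≤ 1 → w (d a z) ≤ 1) →
      w (Matrix.det (Matrix.of fun a b => d a (algebraMap Z L (x b)))) < 1) :
    w (algebraMap Z L (jac htb x)) * w (algebraMap Z L t) < w τ := by
  classical
  obtain ⟨r, e, ξ, hξ, ht0, ht, hce⟩ := hc
  have hξL : ResIndep B w (fun j => algebraMap Z L (ξ j)) := by
    intro p hp
    have h1 := hξ p hp
    rw [Valuation.comap_apply] at h1
    rw [← h1]
    congr 1
    exact MvPolynomial.aeval_algebraMap_apply _ ξ p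
  obtain ⟨n, ξ', hn, hξ'⟩ := exists_resIndep_ext hw hξL
  have hcard : Fintype.card (ι ⊕ Fin n) = dimension B L := by
    rw [Fintype.card_sum, Fintype.card_fin, Fintype.card_congr e, Fintype.card_option,
      Fintype.card_fin]
    omega
  have ht0' : algebraMap Z L t ≠ 0 := by simpa using ht0
  have ht' : w (algebraMap Z L t) < 1 := ht
  have ha1 := adapted_F (w := w) e hξ' ht0' ht'
  have ha2 := adapted_F (w := w) e hξ' hτ.ne_zero hτ.lt_one
  have hlog1 := ha1.logBasis hcard
  have hlog2 := ha2.logBasis hcard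
  have hreg := ha2.regBasis hcard hτ
  set c1 := F e (fun j => algebraMap Z L (ξ j)) ξ' (algebraMap Z L t) with hc1
  set c2 := F e (fun j => algebraMap Z L (ξ j)) ξ' τ with hc2
  have hvol := hlog2.vol_eq hlog1 c1
  rw [jac_self, map_one, one_mul, ha1.prod, ha2.prod] at hvol
  have hdet : Matrix.det (Matrix.of fun a b => pd hreg.tb (Sum.inl a) (algebraMap Z L (c b))) =
      jac hlog2.tb c1 := by
    rw [jac_eq_det]
    have h3 : (Matrix.of fun p q => pd hlog2.tb p (c1 q)) =
        Matrix.fromBlocks (Matrix.of fun a b => pd hreg.tb (Sum.inl a) (algebraMap Z L (c b))) 0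
          (Matrix.of fun (p : Fin n) (b : ι) => pd hlog2.tb (Sum.inr p) (c1 (Sum.inl b))) 1 := by
      ext p q
      rcases p with p | p <;> rcases q with q | q
      · rw [Matrix.fromBlocks_apply₁₁, Matrix.of_apply, Matrix.of_apply]
        congr 1
        rw [hc1, hce]
        change (e q).elim (algebraMap Z L t) (fun j => algebraMap Z L (ξ j)) =
          algebraMap Z L ((e q).elim t ξ)
        rcases e q with _ | i <;> rfl
      · rw [Matrix.fromBlocks_apply₁₂, Matrix.of_apply, Matrix.zero_apply]
        have h4 := pd_self hlog2.tb (Sum.inl p) (Sum.inr q)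
        rw [if_neg (fun h => by cases h)] at h4
        exact h4
      · rw [Matrix.fromBlocks_apply₂₁, Matrix.of_apply, Matrix.of_apply]
      · rw [Matrix.fromBlocks_apply₂₂, Matrix.of_apply, Matrix.one_apply]
        have h4 := pd_self hlog2.tb (Sum.inr p) (Sum.inr q)
        simp only [Sum.inr.injEq] at h4
        exact h4
    rw [h3, Matrix.det_fromBlocks_zero₁₂, Matrix.det_one, mul_one]
  have h1 := hram (fun a => pd hreg.tb (Sum.inl a)) (fun a z hz => hreg.der _ z hz)
  rw [det_der_algebraMap htb (fun a => pd hreg.tb (Sum.inl a)) x, hdet, map_mul] at h1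
  have hτ0 : 0 < w τ := zero_lt_iff.mpr ((Valuation.ne_zero_iff w).mpr hτ.ne_zero)
  rw [← hvol, ← mul_assoc]
  calc _ < 1 * w τ := by
        exact mul_lt_mul_of_pos_right h1 hτ0
    _ = w τ := one_mul _

end Pf72953.Twr
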