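import Mathlib
import Pool.Agent.Lib.Pf72953f.RelW
import Pool.Agent.Lib.Pf72953t.Sec

/-!
MODULE Pf72953t.Vol: the relative logarithmic volume at a valuation trivial on `B`.

`Z` is the compositum of `B` and `Y`: transcendence bases `x` of `B` and `y` of `Y` give one of `Z` (`hZ`), and transcendence
bases of `Z` and of `G` give one of `N` (`hN`).
PROOF.  Let `u` be the restriction of `w` to `Z`; it is divisorial over `k` (`IsDivisorial.restrict`, `hnt`), trivial on `B`,
hence divisorial over `B` (`Mov.IsDivisorial.over`, Pf72953m/Over.lean, or `Fib.IsDivisorial_over`).  `dimension B Z = dimension k Y` (from `hZ`,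
`card_eq_of_isTranscendenceBasis`, `tb` of towers; cf. the proof of `Mov.jac_lt_one`).  `exists_adapted` over `B` gives `c₁ : Fin _ → Z` and a
uniformizer `t` of `u`; `Fib.Adapted_rel` : `cZ = Sum.elim (image of x) c₁` is adapted over `k` with the same `t`; it is a log
basis and a regular basis of `Z/k` (`Adapted.logBasis`, `Adapted.regBasis`).
`LogBasis.prod_le` (`B := Z`, `F := G`, `L := N`, families `Sum.elim x (M.x i)` of `Z` and `cG` of `G`) gives
`w (jac hc.tb (fam N x (M.x i) cG)) * ∏ w c ≤ (w (jac_k cZ (x, x_i)) * ∏ w cZ) * (w (jac cG cG) * ∏ w cG)`, and `∏ w cZ = w t`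
(`Adapted.prod`), `jac cG cG = 1` (`jac_self`), `∏ w x = 1` (`w` is trivial on `B`); so
`rv ≤ w (jac_k cZ (x, x_i)) * w t`.  `jac_k cZ (x, x_i) = jac_B c₁ x_i` (`Fib.jac_rel`, file Pf72953f/Rel.lean, and `jac_self`).
Finally `w (jac_B c₁ x_i) ≤ 1` by `RegBasis.jac_le` over `B` (`hA`, `M.mem`).
-/

set_option autoImplicit false
set_option linter.style.haveILetI false

open scoped WithZero
open Pf72953 Pf72953.Var Pf72953.Mov

namespace Pf72953.Twr

variable {k B Y G Z N ιB ιG : Type*} [Field k] [CharZero k] [Field B] [CharZero B] [Field Y]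
  [Field G] [Field Z] [Field N]
  [Algebra k B] [Algebra k Y] [Algebra k G] [Algebra k Z] [Algebra k N] [Algebra B Z]
  [Algebra Y Z] [Algebra Z N] [Algebra B N] [Algebra Y N]
  [Algebra G N] [IsScalarTower k B Z] [IsScalarTower k Y Z] [IsScalarTower k Z N]
  [IsScalarTower k B N] [IsScalarTower k Y N] [IsScalarTower k G N] [IsScalarTower B Z N]
  [IsScalarTower Y Z N]
  [Algebra.EssFiniteType k B] [Algebra.EssFiniteType k Z] [Algebra.EssFiniteType k G]
  [Algebra.EssFiniteType k N]
  [Fintype ιB] [DecidableEq ιB] [Fintype ιG] [DecidableEq ιG] {M : SmoothModel k Y}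

theorem rv_le
    (hZ : ∀ {x : ιB → B} {y : Fin (dimension k Y) → Y}, IsTranscendenceBasis k x →
      IsTranscendenceBasis k y → IsTranscendenceBasis k
        (Sum.elim (fun i => algebraMap B Z (x i)) (fun j => algebraMap Y Z (y j))))
    (hN : ∀ {z : ιB ⊕ Fin (dimension k Y) → Z} {g : ιG → G}, IsTranscendenceBasis k z →
      IsTranscendenceBasis k g → IsTranscendenceBasis k
        (Sum.elim (fun i => algebraMap Z N (z i)) (fun j => algebraMap G N (g j))))
    {w : Valuation N ℤᵐ⁰} (hw : IsDivisorial k N w)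
    (htriv : ∀ b : B, b ≠ 0 → w (algebraMap B N b) = 1)
    (hnt : ∃ s : Z, s ≠ 0 ∧ w (algebraMap Z N s) ≠ 1) {i : M.I}
    (hA : ∀ f ∈ M.A i, w (algebraMap Y N f) ≤ 1) {x : ιB → B} (hx : IsTranscendenceBasis k x)
    {cG : ιG → G} (hcG : LogBasis k (w.comap (algebraMap G N)) cG)
    {c : (ιB ⊕ Fin (dimension k Y)) ⊕ ιG → N} (hc : LogBasis k w c) :
    ∃ (c₁ : Fin (dimension k Y) → Z) (t : Z) (htb : IsTranscendenceBasis B c₁),
      Adapted B (w.comap (algebraMap Z N)) c₁ t ∧ IsUnif (w.comap (algebraMap Z N)) t ∧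
      rv M i x cG hc ≤
        w (algebraMap Z N (jac htb (fun a => algebraMap Y Z (M.x i a)))) * w (algebraMap Z N t) ∧
      w (algebraMap Z N (jac htb (fun a => algebraMap Y Z (M.x i a)))) ≤ 1 := by
  classical
  haveI : Algebra.EssFiniteType B Z := Algebra.EssFiniteType.of_comp k B Z
  have hZt : ∀ b : B, b ≠ 0 → (w.comap (algebraMap Z N)) (algebraMap B Z b) = 1 := by
    intro b hb
    rw [Valuation.comap_apply, ← IsScalarTower.algebraMap_apply B Z N]
    exact htriv b hb
  have huk : IsDivisorial k Z (w.comap (algebraMap Z N)) := hw.restrict hnt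
  have huB : IsDivisorial B Z (w.comap (algebraMap Z N)) := IsDivisorial.over huk hZt
  have hdim : Fintype.card (Fin (dimension k Y)) = dimension B Z := by
    obtain ⟨s, hs⟩ := exists_isTranscendenceBasis B Z
    haveI := finite_of_isTranscendenceBasis hs
    haveI := Fintype.ofFinite s
    have h1 := hx.sumElim_comp hs
    have h2 := card_eq_of_isTranscendenceBasis h1
    have h3 := card_eq_of_isTranscendenceBasis hs
    have h4 := card_eq_of_isTranscendenceBasis (hZ hx (M.tb i))
    rw [Fintype.card_sum] at h2 h4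
    omega
  obtain ⟨c₁, t, ht, hc₁⟩ := huB.exists_adapted hdim
  have hreg := hc₁.regBasis hdim ht
  have hcZ := Fib.Adapted_rel (k := k) hx.1 hc₁
  have hlog := hcZ.logBasis (card_eq_of_isTranscendenceBasis (Fib.tb_rel hx hreg.tb))
  refine ⟨c₁, t, hreg.tb, hc₁, ht, ?_, ?_⟩
  · have hNb := hN hlog.tb hcG.tb
    have h1 := LogBasis.prod_le hlog hcG hc hNb
      (Sum.elim (fun a => algebraMap B Z (x a)) (fun a => algebraMap Y Z (M.x i a))) cG
    have h2 := hcZ.prod
    simp only [Valuation.comap_apply] at h2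
    rw [h2, jac_self, map_one, map_one, one_mul, Fib.jac_rel hx hreg.tb hlog.tb x, jac_self,
      map_one, one_mul] at h1
    have h3 : (Sum.elim (fun a => algebraMap Z N ((Sum.elim (fun a => algebraMap B Z (x a))
        (fun a => algebraMap Y Z (M.x i a))) a)) (fun j => algebraMap G N (cG j)) :
          (ιB ⊕ Fin (dimension k Y)) ⊕ ιG → N) = fam N x (M.x i) cG := by
      funext a
      rcases a with (a | a) | a
      · simp only [fam, Sum.elim_inl, ← IsScalarTower.algebraMap_apply B Z N]
      · simp only [fam, Sum.elim_inl, Sum.elim_inr, ← IsScalarTower.algebraMap_apply Y Z N]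
      · rfl
    rw [h3] at h1
    have hP : ∏ j, w (algebraMap B N (x j)) = 1 :=
      Finset.prod_eq_one fun j _ => htriv _ (hx.1.ne_zero j)
    have hG0 : ∏ j, w (algebraMap G N (cG j)) ≠ 0 := by
      refine Finset.prod_ne_zero_iff.mpr fun j _ => ?_
      rw [Valuation.ne_zero_iff]
      simpa using hcG.tb.1.ne_zero j
    rw [rv, hP, inv_one, mul_one]
    calc _ ≤ (w (algebraMap Z N (jac hreg.tb (fun a => algebraMap Y Z (M.x i a)))) *
          w (algebraMap Z N t) * ∏ j, w (algebraMap G N (cG j))) *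
          (∏ j, w (algebraMap G N (cG j)))⁻¹ := by gcongr
      _ = _ := by rw [mul_assoc, mul_inv_cancel₀ hG0, mul_one]
  · have h1 := hreg.jac_le (fun a => algebraMap Y Z (M.x i a)) (fun a => by
      rw [Valuation.comap_apply, ← IsScalarTower.algebraMap_apply Y Z N]
      exact hA _ (M.mem i a))
    exact h1

end Pf72953.Twr
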