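import Mathlib
import Pool.Agent.Lib.Pf72953t.Idx
import Pool.Agent.Lib.Pf72953t.Ram
import Pool.Agent.Lib.Pf72953t.Vol
import Pool.Agent.Lib.Pf72953t.EstK

/-!
MODULE Pf72953t.Est: the main estimate for forms on `B × M × G` with poles along moving divisors.

This generalises `Mov.mem_GoodL` (Pf72953m/Est.lean; copy its structure): the new factor is `p ∈ WReg k γ m` on `G`.
Notation: `w` the valuation of `N`, its restriction to `E` divisorial, `c` adapted, `t` uniformizer of the restriction (in `E`), `T = w t`;
`w` is divisorial on `N/k` (`IsDivisorial.of_comap`), `hlog` the log basis of `N` given by `c`, `∏ w c = T`.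
Chart `i` of `M` at `w` (`M.cover`), `l₀ j` the index of the largest coefficient.
(0) `fam_chain` for transcendence bases `cB` of `B`, `M.x i` of `Y`, `cG` of `G` (EstK).
(key) `est_key` (EstK), with `c` the image of the adapted family, `∏ w c = T`: it suffices to find `cB`, `cG` and `α`, `β` with
`w h * (w (jac hcB x) * ∏ w cB) ^ m ≤ α`, `w p * (w (jac hcG γ) * ∏ w cG) ^ m ≤ β` and `α * β * rv ^ (m - ∑ C_j q_j) ≤ T ^ m`.
(1) `w` nontrivial on `B`: `hh` gives `cB`, a log basis, with `α = T ^ m`.  For `G`: if `w` is nontrivial on `G` take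
`WReg.log_bound` (its right hand side is `≤ 1`), otherwise `cG = γ` (`LogBasis.of_trivial`), `β = 1`.  Use `key`.
(2) `w` trivial on `B`.  By `hunr` (for the restriction of `w` to `L`, which is divisorial) the image of `t` in `L` is a uniformizer of the
restriction of `w` to `L`.  `w h ≤ 1`, and `w ((D j).a l) ≤ 1`, `= 1` unless `0` (`val_eq_one_of_isIntegral`).
(2a) `w` trivial on `Z`.  By `hunr'` `t` is a uniformizer of `w`, `c` gives a regular basis
(`Adapted.regBasis`).  The elements `sec_j` are algebraic over `Z`, so `w sec_j = 1`, also `w gen_j = 1`, `w b_j ≤ 1`.  With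
`cB = x` and `cG` a regular basis of `G` with `w p * w (jac cG γ) ^ m ≤ 1` (`WReg.reg_bound`, or `cG = γ` if `w` is trivial on `G`) and
`w (jac htb (fam N x (M.x i) cG)) ≤ 1` (`RegBasis.jac_le`, all entries have value `≤ 1`) the claim follows as in the last case of
`Mov.mem_GoodL`.
(2b) `w` nontrivial on `Z`.  `rv_le` (with `x` for `B` and a log basis `cG` of `G`) gives `c₁`, `s` (in `Z`, a uniformizer), and
`rv ≤ w (jac c₁ x_i) * w s`, `w (jac c₁ x_i) ≤ 1`; since `s` lies in `L`, `w s ≤ T`: `rv ≤ T`.
(2b-off) all `w sec_j ≥ w gen_j` : then `w (b_j / sec_j ^ q_j) * w gen_j ^ q_j ≤ 1`, and with `cG`, `β = 1` as in (1) the claim follows from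
`rv ^ m ≤ T ^ m` (no need of `sec_bound'`).
(2b-on) some `w sec_j < w gen_j`.
 If `w` is trivial on `G`: `cG = γ`, `β = 1`; `ram_core` (for `B, Z, L`, the restriction `w_L` of `w` to `L`, `c₁`, `s`, `τ = t`,
 `x := fun a => algebraMap Y Z (M.x i a)`, hypothesis from `hram j w ..`) gives `w (jac c₁ x_i) * w s < T`; so for
 `z = jac c₁ x_i * s ∈ Z ⊆ L`: `w (z / t) < 1`, `w (z / t) ≤ T`, hence `rv ≤ w z ≤ T ^ 2`; and `2 * (m - ∑ C_j q_j) ≥ m`, use `key`.
 If `w` is nontrivial on `G`: `WReg.log_bound` gives `cG`, `tG` with `w tG < 1`, `tG ≠ 0`, `β = w tG ^ m`.  With `f = finrank L N`, `S = ∑ C_j q_j`, `f * S ≤ m`: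
 `w tG ^ m ≤ (w tG ^ f) ^ S ≤ T ^ S` (`pow_finrank_le`) and `rv ^ (m - S) ≤ T ^ (m - S)`, use `key` with `α = 1`.
-/

set_option autoImplicit false
set_option linter.style.haveILetI false

open scoped WithZero
open Pf72953 Pf72953.Var Pf72953.Mov

namespace Pf72953.Twr

variable {k B Y G Z E L N J ιB ιG : Type*} [Field k] [CharZero k] [IsAlgClosed k] [Field B]
  [CharZero B] [Field Y] [Field G] [Field Z] [Field E] [Field L] [Field N]
  [Algebra k B] [Algebra k Y] [Algebra k G] [Algebra k Z] [Algebra k E] [Algebra k L] [Algebra k N]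
  [Algebra B Z] [Algebra B E] [Algebra B L] [Algebra B N] [Algebra Y Z] [Algebra Y L]
  [Algebra Y N] [Algebra Z L] [Algebra Z N] [Algebra E L] [Algebra E N] [Algebra L N]
  [Algebra G N] [IsScalarTower k B Z] [IsScalarTower k Y Z] [IsScalarTower k Z N]
  [IsScalarTower k B N] [IsScalarTower k Y N] [IsScalarTower k G N] [IsScalarTower k E N]
  [IsScalarTower k L N] [IsScalarTower k E L] [IsScalarTower k B L] [IsScalarTower k Y L]
  [IsScalarTower k Z L]
  [IsScalarTower B Z L] [IsScalarTower B Z N] [IsScalarTower Y Z L] [IsScalarTower Y Z N]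
  [IsScalarTower B E L] [IsScalarTower B E N] [IsScalarTower B L N] [IsScalarTower Y L N]
  [IsScalarTower Z L N] [IsScalarTower E L N]
  [Algebra.EssFiniteType k B] [Algebra.EssFiniteType k Y] [Algebra.EssFiniteType k G]
  [Algebra.EssFiniteType k Z] [Algebra.EssFiniteType k E] [Algebra.EssFiniteType k L]
  [Algebra.EssFiniteType k N] [FiniteDimensional E L] [FiniteDimensional E N]
  [FiniteDimensional L N] [Fintype J]
  [Fintype ιB] [DecidableEq ιB] [Fintype ιG] [DecidableEq ιG] {M : SmoothModel k Y}

namespace EstAux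

section monoid

variable {R : Type*} [CommMonoid R]

theorem id1 (h g p b J jy jG T : R) (m : ℕ) :
    h * g * p * b * (J * (jy * jG)) ^ m * T ^ m = h * g * p * b * ((J * T) * (jy * jG)) ^ m := by
  simp only [mul_pow, mul_comm, mul_left_comm, mul_assoc]

theorem id2 (h g p b μ Q jy jG : R) (m : ℕ) :
    h * g * p * b * ((μ * Q) * (jy * jG)) ^ m =
      h * (g * jy ^ m) * (p * (jG * Q) ^ m) * b * μ ^ m := by
  simp only [mul_pow, mul_comm, mul_left_comm, mul_assoc]

theorem id3 (h g p b J jy jG : R) (m : ℕ) :
    h * g * p * b * (J * (jy * jG)) ^ m = h * J ^ m * (g * jy ^ m) * (p * jG ^ m) * b := by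
  simp only [mul_pow, mul_comm, mul_left_comm, mul_assoc]

end monoid

section gpart

variable {k G N ιG : Type*} [Field k] [CharZero k] [Field G] [Field N] [Algebra k G]
  [Algebra k N] [Algebra G N] [IsScalarTower k G N] [Algebra.EssFiniteType k G]
  [Algebra.EssFiniteType k N] [Fintype ιG] [DecidableEq ιG]

theorem gtriv {γ : ιG → G} (hγ : IsTranscendenceBasis k γ) {m : ℕ} (p : G)
    {w : Valuation N ℤᵐ⁰} (hG : ∀ g : G, g ≠ 0 → w (algebraMap G N g) = 1) :
    w (algebraMap G N p) * (w (algebraMap G N (jac hγ γ)) *
      ∏ j, w (algebraMap G N (γ j))) ^ m ≤ 1 := by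
  have h1 : ∏ j, w (algebraMap G N (γ j)) = 1 :=
    Finset.prod_eq_one fun j _ => hG _ (hγ.1.ne_zero j)
  rw [jac_self, map_one, map_one, h1, one_mul, one_pow, mul_one]
  rcases eq_or_ne p 0 with h | h
  · rw [h, map_zero, map_zero]; exact zero_le_one
  · exact (hG p h).le

/-- a logarithmic basis of `G` -/
theorem gpart {γ : ιG → G} (hγ : IsTranscendenceBasis k γ) {m : ℕ} {p : G} (hp : p ∈ WReg k γ m)
    {w : Valuation N ℤᵐ⁰} (hw : IsDivisorial k N w) :
    ∃ (cG : ιG → G) (hcG : LogBasis k (w.comap (algebraMap G N)) cG),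
      w (algebraMap G N p) * (w (algebraMap G N (jac hcG.tb γ)) *
        ∏ j, w (algebraMap G N (cG j))) ^ m ≤ 1 := by
  by_cases hG : ∃ g : G, g ≠ 0 ∧ w (algebraMap G N g) ≠ 1
  · have hdG := hw.restrict hG
    obtain ⟨cG, hcG, tG, htG0, htG1, hb⟩ := WReg.log_bound hγ hp hdG
    refine ⟨cG, hcG, ?_⟩
    simp only [Valuation.comap_apply] at hb htG1
    exact hb.trans (pow_le_one' htG1.le m)
  · push Not at hG
    exact ⟨γ, LogBasis.of_trivial (fun a ha => hG a ha) hγ, gtriv hγ p hG⟩

/-- a regular basis of `G` -/
theorem gpart_reg {γ : ιG → G} (hγ : IsTranscendenceBasis k γ) {m : ℕ} {p : G}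
    (hp : p ∈ WReg k γ m) {w : Valuation N ℤᵐ⁰} (hw : IsDivisorial k N w) :
    ∃ (cG : ιG → G) (hcG : IsTranscendenceBasis k cG), (∀ l, w (algebraMap G N (cG l)) ≤ 1) ∧
      w (algebraMap G N p) * w (algebraMap G N (jac hcG γ)) ^ m ≤ 1 := by
  by_cases hG : ∃ g : G, g ≠ 0 ∧ w (algebraMap G N g) ≠ 1
  · have hdG := hw.restrict hG
    obtain ⟨cG, hcG, hb⟩ := WReg.reg_bound hγ hp hdG
    exact ⟨cG, hcG.tb, hcG.le_one, hb⟩
  · push Not at hG
    refine ⟨γ, hγ, fun l => (hG _ (hγ.1.ne_zero l)).le, ?_⟩
    rw [jac_self, map_one, map_one, one_pow, mul_one]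
    rcases eq_or_ne p 0 with h | h
    · rw [h, map_zero, map_zero]; exact zero_le_one
    · exact (hG p h).le

end gpart

end EstAux

/-- **Main estimate.** -/
theorem mem_GoodL'
    (hZ : ∀ {x : ιB → B} {y : Fin (dimension k Y) → Y}, IsTranscendenceBasis k x →
      IsTranscendenceBasis k y → IsTranscendenceBasis k
        (Sum.elim (fun i => algebraMap B Z (x i)) (fun j => algebraMap Y Z (y j))))
    (hN : ∀ {z : ιB ⊕ Fin (dimension k Y) → Z} {g : ιG → G}, IsTranscendenceBasis k z →
      IsTranscendenceBasis k g → IsTranscendenceBasis k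
        (Sum.elim (fun i => algebraMap Z N (z i)) (fun j => algebraMap G N (g j))))
    (hunr : Unramified k B E L) (hunr' : Unramified k Z L N) (D : J → MovingDivisor M B N)
    (hram : ∀ j, RamifiedOn k L G (D j)) {C : J → ℕ} (hC : ∀ j, Cert (D j) (C j)) {m : ℕ}
    {q : J → ℕ} (hq : max 2 (Module.finrank L N) * ∑ j, C j * q j ≤ m)
    {x : ιB → B} (hx : IsTranscendenceBasis k x) {y : Fin (dimension k Y) → Y}
    (hy : IsTranscendenceBasis k y) {γ : ιG → G} (hγ : IsTranscendenceBasis k γ)
    {h : B} (hh : h ∈ WOrb k E x m) {g : Y} (hg : g ∈ CoefSec M (fun j => (D j).S) y m q)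
    {p : G} (hp : p ∈ WReg k γ m) {b : J → N} (hb : ∀ j, b j ∈ Num (D j) (q j)) :
    algebraMap B N h * algebraMap Y N g * algebraMap G N p *
      ∏ j, b j / (D j).sec ^ q j ∈ GoodL k E (fam N x y γ) m := by
  classical
  intro w hv c t hc ht htb
  have hqf : Module.finrank L N * ∑ j, C j * q j ≤ m :=
    le_trans (Nat.mul_le_mul_right _ (le_max_right _ _)) hq
  have hq2 : 2 * ∑ j, C j * q j ≤ m := le_trans (Nat.mul_le_mul_right _ (le_max_left _ _)) hq
  have hqle : ∑ j, C j * q j ≤ m := by omega
  have hcardN : Fintype.card ((ιB ⊕ Fin (dimension k Y)) ⊕ ιG) = dimension k N :=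
    card_eq_of_isTranscendenceBasis htb
  have htbE : IsTranscendenceBasis k c := IsTranscendenceBasis.of_comp_algebraMap htb
  have hcardE : Fintype.card ((ιB ⊕ Fin (dimension k Y)) ⊕ ιG) = dimension k E :=
    card_eq_of_isTranscendenceBasis htbE
  have hwN : IsDivisorial k N w := IsDivisorial.of_comap (hcardN.symm.trans hcardE) hv
  have hcN : Adapted k w (fun i => algebraMap E N (c i)) (algebraMap E N t) := hc.map
  have hwt : w (algebraMap E N t) ≠ 0 := by
    rw [Valuation.ne_zero_iff]; simpa using ht.ne_zero
  have hwtpos : 0 < w (algebraMap E N t) := zero_lt_iff.mpr hwt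
  have hlog := hcN.logBasis hcardN
  have hprod : ∏ j, w (algebraMap E N (c j)) = w (algebraMap E N t) := hcN.prod
  -- the chart
  obtain ⟨i, hi⟩ := M.cover (w.comap (algebraMap Y N)) (fun κ hκ => by
    rw [Valuation.comap_apply, ← IsScalarTower.algebraMap_apply k Y N]
    exact hwN.const κ hκ)
  have hA : ∀ f ∈ M.A i, w (algebraMap Y N f) ≤ 1 := hi
  haveI : Nonempty M.I := ⟨i⟩
  have hfam : ∀ {cB : ιB → B} {y' : Fin (dimension k Y) → Y} {cG : ιG → G},
      IsTranscendenceBasis k cB → IsTranscendenceBasis k y' → IsTranscendenceBasis k cG →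
      IsTranscendenceBasis k (fam N cB y' cG) := fun hcB hy' hcG =>
    (fam_chain hZ hN hcB hy' hcG htb x y γ).1
  have hsec0 : ∀ j, (D j).sec ≠ 0 := fun j => sec_ne_zero' (D j) hfam hx hγ
  have hwsec : ∀ j, w (D j).sec ≠ 0 := fun j => (Valuation.ne_zero_iff w).mpr (hsec0 j)
  -- the logarithmic step
  have key : ∀ {cB : ιB → B} (hcB : IsTranscendenceBasis k cB) {cG : ιG → G}
      (hcG : IsTranscendenceBasis k cG) {α β : ℤᵐ⁰},
      w (algebraMap B N h) * (w (algebraMap B N (jac hcB x)) *
        ∏ j, w (algebraMap B N (cB j))) ^ m ≤ α →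
      w (algebraMap G N p) * (w (algebraMap G N (jac hcG γ)) *
        ∏ j, w (algebraMap G N (cG j))) ^ m ≤ β →
      α * β * rv M i cB cG hlog ^ (m - ∑ j, C j * q j) ≤ w (algebraMap E N t) ^ m →
      w (algebraMap B N h * algebraMap Y N g * algebraMap G N p *
        ∏ j, b j / (D j).sec ^ q j) * w (jac htb (fam N x y γ)) ^ m ≤ 1 := by
    intro cB hcB cG hcG α β h1 h2 h3
    have h4 := est_key D hC hqle hcB hcG (hfam hcB (M.tb i) hcG) hA hlog hg hb hsec0 h1 h2
      (by rw [hprod]; exact h3)
    rw [(fam_chain hZ hN hcB (M.tb i) hcG htb x y γ).2]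
    simpa only [map_mul, map_prod] using h4
  by_cases hnt : ∃ a : B, a ≠ 0 ∧ w (algebraMap B N a) ≠ 1
  · -- `w` nontrivial on `B`
    obtain ⟨cG, hcG, hbG⟩ := EstAux.gpart hγ hp hwN
    obtain ⟨cB, hcB', hbB'⟩ := hh (w.comap (algebraMap E N)) hv (by
      obtain ⟨a, ha0, ha⟩ := hnt
      refine ⟨a, ha0, ?_⟩
      rwa [Valuation.comap_apply, ← IsScalarTower.algebraMap_apply]) t ht
    have hbB : w (algebraMap B N h) * (w (algebraMap B N (jac hcB'.tb x)) *
        ∏ i, w (algebraMap B N (cB i))) ^ m ≤ w (algebraMap E N t) ^ m := by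
      simp only [Valuation.comap_apply, ← IsScalarTower.algebraMap_apply B E N] at hbB'
      exact hbB'
    refine key hcB'.tb hcG.tb hbB hbG ?_
    rw [mul_one]
    exact mul_le_of_le_one_right' (pow_le_one' (rv_le_one hcB'.tb hcG.tb hA hlog) _)
  · -- `w` trivial on `B`
    push Not at hnt
    have htbL : IsTranscendenceBasis k (fun i => algebraMap E L (c i)) := by
      apply IsTranscendenceBasis.of_comp_algebraMap (A' := N)
      have e : (algebraMap L N ∘ fun i => algebraMap E L (c i)) =
          fun i => algebraMap E N (c i) := by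
        funext i
        rw [Function.comp_apply, ← IsScalarTower.algebraMap_apply]
      rw [e]
      exact htb
    have hcardL : Fintype.card ((ιB ⊕ Fin (dimension k Y)) ⊕ ιG) = dimension k L :=
      card_eq_of_isTranscendenceBasis htbL
    have hcomap : (w.comap (algebraMap L N)).comap (algebraMap E L) = w.comap (algebraMap E N) := by
      ext z
      rw [Valuation.comap_apply, Valuation.comap_apply, Valuation.comap_apply,
        ← IsScalarTower.algebraMap_apply]
    have hwL : IsDivisorial k L (w.comap (algebraMap L N)) :=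
      IsDivisorial.of_comap (E := E) (hcardL.symm.trans hcardE) (by rw [hcomap]; exact hv)
    have hntL : ∀ b : B, b ≠ 0 → (w.comap (algebraMap L N)) (algebraMap B L b) = 1 := by
      intro b hb
      rw [Valuation.comap_apply, ← IsScalarTower.algebraMap_apply]
      exact hnt b hb
    have hTL : w (algebraMap L N (algebraMap E L t)) = w (algebraMap E N t) := by
      rw [← IsScalarTower.algebraMap_apply]
    have hunifL : IsUnif (w.comap (algebraMap L N)) (algebraMap E L t) := by
      refine ⟨by simpa using ht.ne_zero, ?_, fun z hz => ?_⟩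
      · have h1 := ht.lt_one
        rw [← hcomap] at h1
        exact h1
      · obtain ⟨t', ht', hzt'⟩ := hunr _ hwL hntL z hz
        refine hzt'.trans ?_
        have h2 := ht.le t' (by rw [← hcomap]; exact ht')
        rw [← hcomap] at h2
        exact h2
    have hleT : ∀ z : L, w (algebraMap L N z) < 1 →
        w (algebraMap L N z) ≤ w (algebraMap E N t) := by
      intro z hz
      have h1 := hunifL.le z hz
      rw [Valuation.comap_apply, Valuation.comap_apply, hTL] at h1
      exact h1
    have hT1 : w (algebraMap E N t) < 1 := ht.lt_one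
    have hone : ∀ a : B, w (algebraMap B N a) ≤ 1 := by
      intro a
      rcases eq_or_ne a 0 with rfl | ha
      · simp
      · exact (hnt a ha).le
    have hPone : ∏ j, w (algebraMap B N (x j)) = 1 :=
      Finset.prod_eq_one fun j _ => hnt _ (hx.1.ne_zero j)
    have haone : ∀ j l, w ((D j).a l) ≤ 1 := fun j l => by
      rcases eq_or_ne ((D j).a l) 0 with h0 | h0
      · rw [h0]; simp
      · exact (val_eq_one_of_isIntegral hnt h0 ((D j).a_alg l).isIntegral).le
    have hmax : ∀ j, ∃ l₀, ∀ l, w ((D j).a l) ≤ w ((D j).a l₀) := fun j => by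
      obtain ⟨l₀, -, hl₀⟩ := Finset.exists_max_image Finset.univ (fun l => w ((D j).a l))
        Finset.univ_nonempty
      exact ⟨l₀, fun l => hl₀ l (Finset.mem_univ l)⟩
    choose l₀ hl₀ using hmax
    have hbone : ∀ j, w (b j) ≤ 1 := fun j =>
      (hb j w (l₀ j) (hl₀ j)).trans (pow_le_one' (haone j _) _)
    obtain ⟨f, hf, hgf⟩ := hg i
    have hwf := hA f hf
    have hgf' : w (algebraMap Y N g) * w (algebraMap Y N (jac (M.tb i) y)) ^ m ≤
        ∏ j, w (algebraMap Y N ((D j).S.gen i)) ^ q j := by
      rw [← map_pow, ← map_pow, ← map_mul, ← map_mul, hgf, map_mul, map_mul, map_prod, map_prod]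
      simp only [map_pow]
      exact mul_le_of_le_one_left' hwf
    have hxα : w (algebraMap B N h) * (w (algebraMap B N (jac hx x)) *
        ∏ j, w (algebraMap B N (x j))) ^ m ≤ 1 := by
      rw [jac_self, map_one, map_one, one_mul, hPone, one_pow, mul_one]
      exact hone h
    by_cases hZt : ∃ s : Z, s ≠ 0 ∧ w (algebraMap Z N s) ≠ 1
    · -- `w` nontrivial on `Z`
      have hrvle : ∀ {cG : ιG → G}, LogBasis k (w.comap (algebraMap G N)) cG →
          rv M i x cG hlog ≤ w (algebraMap E N t) := by
        intro cG hcG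
        obtain ⟨c₁, s, htb₁, had, hs, hrv, hj1⟩ := rv_le hZ hN hwN hnt hZt hA hx hcG hlog
        refine hrv.trans ?_
        have h1 : w (algebraMap Z N s) ≤ w (algebraMap E N t) := by
          rw [IsScalarTower.algebraMap_apply Z L N]
          apply hleT
          rw [← IsScalarTower.algebraMap_apply Z L N]
          exact hs.lt_one
        calc _ ≤ 1 * w (algebraMap E N t) := by gcongr
          _ = _ := one_mul _
      by_cases hlt : ∃ j, w (D j).sec < w (algebraMap Y N ((D j).S.gen i))
      · -- on one of the divisors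
        obtain ⟨j, hj⟩ := hlt
        by_cases hGt : ∃ g : G, g ≠ 0 ∧ w (algebraMap G N g) ≠ 1
        · -- `w` nontrivial on `G`
          have hdG := hwN.restrict hGt
          obtain ⟨cG, hcG, tG, htG0, htG1, hbG⟩ := WReg.log_bound hγ hp hdG
          simp only [Valuation.comap_apply] at hbG htG1
          refine key hx hcG.tb (α := 1) (β := w (algebraMap G N tG) ^ m) hxα hbG ?_
          rw [one_mul]
          have h1 : w (algebraMap G N tG) ^ Module.finrank L N ≤ w (algebraMap E N t) := by
            have h2 := pow_finrank_le hunifL htG1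
            rwa [hTL] at h2
          calc _ ≤ w (algebraMap E N t) ^ (∑ j, C j * q j) *
                w (algebraMap E N t) ^ (m - ∑ j, C j * q j) := by
                refine mul_le_mul' ?_ (pow_le_pow_left' (hrvle hcG) _)
                calc _ ≤ w (algebraMap G N tG) ^ (Module.finrank L N * ∑ j, C j * q j) :=
                      pow_le_pow_right_of_le_one' htG1.le hqf
                  _ = (w (algebraMap G N tG) ^ Module.finrank L N) ^ (∑ j, C j * q j) :=
                      pow_mul _ _ _
                  _ ≤ _ := pow_le_pow_left' h1 _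
            _ = _ := by
                rw [← pow_add]
                congr 1
                omega
        · -- `w` trivial on `G`
          push Not at hGt
          have hcG : LogBasis k (w.comap (algebraMap G N)) γ :=
            LogBasis.of_trivial (fun a ha => hGt a ha) hγ
          obtain ⟨c₁, s, htb₁, had, hs, hrv, hj1⟩ := rv_le hZ hN hwN hnt hZt hA hx hcG hlog
          haveI : Algebra.EssFiniteType B Z := Algebra.EssFiniteType.of_comp k B Z
          haveI : Algebra.EssFiniteType B L := Algebra.EssFiniteType.of_comp k B L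
          have hwLB : IsDivisorial B L (w.comap (algebraMap L N)) :=
            Pf72953.Mov.IsDivisorial.over (k := k) hwL hntL
          have hcomapZ : (w.comap (algebraMap L N)).comap (algebraMap Z L) =
              w.comap (algebraMap Z N) := by
            ext z
            rw [Valuation.comap_apply, Valuation.comap_apply, Valuation.comap_apply,
              ← IsScalarTower.algebraMap_apply]
          have had' : Adapted B ((w.comap (algebraMap L N)).comap (algebraMap Z L)) c₁ s := by
            rw [hcomapZ]; exact had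
          have hram' := ram_core hwLB had' htb₁ hunifL (fun a => algebraMap Y Z (M.x i a))
            (fun d hd => by
              have h1 := hram j w hwN hnt hGt i hA hj d hd
              rw [Valuation.comap_apply]
              simp only [← IsScalarTower.algebraMap_apply Y Z L]
              exact h1)
          obtain ⟨z, hz⟩ : ∃ z : Z, z = jac htb₁ (fun a => algebraMap Y Z (M.x i a)) * s :=
            ⟨_, rfl⟩
          have hzlt : w (algebraMap Z N z) < w (algebraMap E N t) := by
            rw [Valuation.comap_apply, Valuation.comap_apply, Valuation.comap_apply, hTL,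
              ← IsScalarTower.algebraMap_apply, ← IsScalarTower.algebraMap_apply] at hram'
            rw [hz, map_mul, map_mul]
            exact hram'
          have hz2 : w (algebraMap Z N z) ≤ w (algebraMap E N t) ^ 2 := by
            have h1 : w (algebraMap L N (algebraMap Z L z / algebraMap E L t)) =
                w (algebraMap Z N z) / w (algebraMap E N t) := by
              rw [map_div₀, map_div₀, ← IsScalarTower.algebraMap_apply,
                ← IsScalarTower.algebraMap_apply]
            have h2 : w (algebraMap L N (algebraMap Z L z / algebraMap E L t)) < 1 := by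
              rw [h1, div_lt_one₀ hwtpos]
              exact hzlt
            have h3 := hleT _ h2
            rw [h1, div_le_iff₀ hwtpos] at h3
            rw [pow_two]
            exact h3
          have h3 : rv M i x γ hlog ≤ w (algebraMap E N t) ^ 2 := by
            refine hrv.trans ?_
            rw [hz, map_mul, map_mul] at hz2
            exact hz2
          refine key hx hγ (α := 1) (β := 1) hxα (EstAux.gtriv hγ p hGt) ?_
          rw [one_mul, one_mul]
          calc _ ≤ (w (algebraMap E N t) ^ 2) ^ (m - ∑ j, C j * q j) :=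
                pow_le_pow_left' h3 _
            _ = w (algebraMap E N t) ^ (2 * (m - ∑ j, C j * q j)) := by rw [← pow_mul]
            _ ≤ w (algebraMap E N t) ^ m :=
              pow_le_pow_right_of_le_one' hT1.le (by omega)
      · -- off the divisors
        push Not at hlt
        have hsec : ∀ j, w (b j / (D j).sec ^ q j) *
            w (algebraMap Y N ((D j).S.gen i)) ^ q j ≤ 1 := by
          intro j
          have h5 : 0 < w (D j).sec ^ q j := pow_pos (zero_lt_iff.mpr (hwsec j)) _
          rw [map_div₀, map_pow, div_mul_eq_mul_div, div_le_one₀ h5]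
          calc w (b j) * w (algebraMap Y N ((D j).S.gen i)) ^ q j
              ≤ 1 * w (D j).sec ^ q j :=
                mul_le_mul' (hbone j) (pow_le_pow_left' (hlt j) _)
            _ = _ := one_mul _
        obtain ⟨cG, hcG, hbG⟩ := EstAux.gpart hγ hp hwN
        have hQ0 : ∏ j, w (algebraMap G N (cG j)) ≠ 0 := by
          refine Finset.prod_ne_zero_iff.mpr fun j _ => ?_
          rw [Valuation.ne_zero_iff]
          simpa using hcG.tb.1.ne_zero j
        have hvol : w (jac htb (fam N x (M.x i) cG)) * w (algebraMap E N t) =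
            rv M i x cG hlog * ∏ j, w (algebraMap G N (cG j)) := by
          rw [rv, hPone, inv_one, mul_one, hprod, mul_assoc, inv_mul_cancel₀ hQ0, mul_one]
        have hpos : 0 < w (algebraMap E N t) ^ m := pow_pos hwtpos m
        refine le_of_mul_le_mul_right (a := w (algebraMap E N t) ^ m) ?_ hpos
        rw [one_mul, (fam_chain hZ hN hx (M.tb i) hcG.tb htb x y γ).2]
        calc _ = w (algebraMap B N h) * w (algebraMap Y N g) * w (algebraMap G N p) *
              (∏ j, w (b j / (D j).sec ^ q j)) *
              ((w (jac htb (fam N x (M.x i) cG)) * w (algebraMap E N t)) *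
                (w (algebraMap Y N (jac (M.tb i) y)) *
                  w (algebraMap G N (jac hcG.tb γ)))) ^ m := by
              rw [jac_self, map_one, one_mul]
              simp only [map_mul, map_prod]
              exact EstAux.id1 _ _ _ _ _ _ _ _ _
          _ = w (algebraMap B N h) *
              (w (algebraMap Y N g) * w (algebraMap Y N (jac (M.tb i) y)) ^ m) *
              (w (algebraMap G N p) * (w (algebraMap G N (jac hcG.tb γ)) *
                ∏ j, w (algebraMap G N (cG j))) ^ m) *
              (∏ j, w (b j / (D j).sec ^ q j)) * rv M i x cG hlog ^ m := by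
              rw [hvol]
              exact EstAux.id2 _ _ _ _ _ _ _ _ _
          _ ≤ 1 * (∏ j, w (algebraMap Y N ((D j).S.gen i)) ^ q j) * 1 *
              (∏ j, w (b j / (D j).sec ^ q j)) * w (algebraMap E N t) ^ m := by
              refine mul_le_mul' (mul_le_mul' (mul_le_mul' (mul_le_mul' (hone h) hgf') hbG)
                le_rfl) (pow_le_pow_left' (hrvle hcG) m)
          _ = (∏ j, w (b j / (D j).sec ^ q j) *
              w (algebraMap Y N ((D j).S.gen i)) ^ q j) * w (algebraMap E N t) ^ m := by
              rw [one_mul, mul_one, Finset.prod_mul_distrib,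
                mul_comm (∏ j, w (b j / (D j).sec ^ q j))]
          _ ≤ 1 * w (algebraMap E N t) ^ m :=
              mul_le_mul' (Finset.prod_le_one' fun j _ => hsec j) le_rfl
          _ = _ := one_mul _
    · -- `w` trivial on `Z`
      push Not at hZt
      have hunif : IsUnif w (algebraMap E N t) := by
        refine ⟨by simpa using ht.ne_zero, ht.lt_one, fun z hz => ?_⟩
        obtain ⟨t', ht', hzt'⟩ := hunr' w hwN hZt z hz
        exact hzt'.trans (hleT t' ht')
      have hreg := hcN.regBasis hcardN hunif
      have hYone : ∀ f : Y, f ≠ 0 → w (algebraMap Y N f) = 1 := fun f hf => by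
        rw [IsScalarTower.algebraMap_apply Y Z N]
        exact hZt _ (by simpa using hf)
      have hsecint : ∀ j, IsIntegral Z (D j).sec := by
        intro j
        rw [MovingDivisor.sec]
        refine IsIntegral.sum _ fun l _ => ?_
        refine IsIntegral.mul ?_ ?_
        · exact (((D j).a_alg l).isIntegral).tower_top
        · rw [IsScalarTower.algebraMap_apply Y Z N]
          exact isIntegral_algebraMap
      have hsecone : ∀ j, w (D j).sec = 1 := fun j =>
        val_eq_one_of_isIntegral hZt (hsec0 j) (hsecint j)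
      have hblone : ∀ j, w (b j / (D j).sec ^ q j) ≤ 1 := by
        intro j
        rw [map_div₀, map_pow, hsecone, one_pow, div_one]
        exact hbone j
      have hgenone : ∏ j, w (algebraMap Y N ((D j).S.gen i)) ^ q j = 1 :=
        Finset.prod_eq_one fun j _ => by rw [hYone _ ((D j).S.ne i), one_pow]
      rw [hgenone] at hgf'
      obtain ⟨cG, hcG, hle, hbG⟩ := EstAux.gpart_reg hγ hp hwN
      have hj : w (jac htb (fam N x (M.x i) cG)) ≤ 1 := hreg.jac_le _ (by
        rintro ((j | a) | l)
        · exact hone _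
        · exact hA _ (M.mem i a)
        · exact hle l)
      rw [(fam_chain hZ hN hx (M.tb i) hcG htb x y γ).2]
      calc _ = w (algebraMap B N h) * w (jac htb (fam N x (M.x i) cG)) ^ m *
            (w (algebraMap Y N g) * w (algebraMap Y N (jac (M.tb i) y)) ^ m) *
            (w (algebraMap G N p) * w (algebraMap G N (jac hcG γ)) ^ m) *
            ∏ j, w (b j / (D j).sec ^ q j) := by
            rw [jac_self, map_one, one_mul]
            simp only [map_mul, map_prod]
            exact EstAux.id3 _ _ _ _ _ _ _ _
        _ ≤ 1 * 1 * 1 * 1 * 1 :=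
            mul_le_mul' (mul_le_mul' (mul_le_mul' (mul_le_mul' (hone h) (pow_le_one' hj m))
              hgf') hbG) (Finset.prod_le_one' fun j _ => hblone j)
        _ = 1 := by simp only [one_mul]

end Pf72953.Twr
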