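import Mathlib
import Pool.Agent.Lib.Pf72953v.CoreAbs

/-!
MODULE Pf72953t.GoodUp: good forms in a finite extension which is not Galois.

PROOF of `GoodL.up`: let `w` be a valuation of `N'` with divisorial restriction to `E`, `c`, `t` as in the definition of `GoodL`.  Apply
`hU` to the restriction `v` of `w` to `N` (`v.comap = w.comap` on `E` by `IsScalarTower E N N'`); the family `c` in `N` is a transcendence
basis (`IsTranscendenceBasis.of_comp_algebraMap` or from the one in `N'`: it is algebraically independent and `N/E` is algebraic; or use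
`hc.regBasis .. |>.tb.algebraMap_comp`), and the jacobian in `N'` is the image of the one in `N` (`jac_algebraMap`).
PROOF of `of_good'`: let `N' = IntermediateField.normalClosure E N (AlgebraicClosure N)`, a finite Galois extension of `E` containing `N`
(see `Up.kodairaGE_le` in Pf72953u/Inst.lean for the instances; `CharZero` gives separability).  `θ` and `a` map to `N'`: `Ratios k E a` goes up by `GoodL.up`, algebraic
independence too.  Apply `of_good` (Pf72953v/CoreAbs.lean).
-/

set_option autoImplicit false
set_option linter.style.haveILetI false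

open scoped WithZero
open Pf72953 Pf72953.Var

namespace Pf72953.Twr

theorem GoodUpAux.jac_congr {k K ι : Type*} [Field k] [CharZero k] [Field K] [Algebra k K]
    [Fintype ι] [DecidableEq ι] {y y' : ι → K} (e : y = y') (hy : IsTranscendenceBasis k y)
    (hy' : IsTranscendenceBasis k y') (a : ι → K) : jac hy a = jac hy' a := by
  subst e
  rfl

theorem GoodL.up {k E N N' ι : Type*} [Field k] [CharZero k] [Field E] [Field N] [Field N']
    [Algebra k E] [Algebra k N] [Algebra k N'] [Algebra E N] [Algebra E N'] [Algebra N N']
    [IsScalarTower k E N] [IsScalarTower k E N'] [IsScalarTower E N N'] [IsScalarTower k N N']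
    [FiniteDimensional E N'] [Algebra.EssFiniteType k E] [Fintype ι] [DecidableEq ι]
    {a : ι → N} (ha : IsTranscendenceBasis k a) {m : ℕ} {U : N} (hU : U ∈ GoodL k E a m) :
    algebraMap N N' U ∈ GoodL k E (fun i => algebraMap N N' (a i)) m := by
  intro w hw c t hc ht htb
  have hv : (w.comap (algebraMap N N')).comap (algebraMap E N) = w.comap (algebraMap E N') := by
    ext x
    rw [Valuation.comap_apply, Valuation.comap_apply, Valuation.comap_apply,
      ← IsScalarTower.algebraMap_apply E N N']
  have hfun : (fun i => algebraMap N N' (algebraMap E N (c i))) =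
      fun i => algebraMap E N' (c i) := by
    funext i
    exact (IsScalarTower.algebraMap_apply E N N' (c i)).symm
  have htb' : IsTranscendenceBasis k (fun i => algebraMap N N' (algebraMap E N (c i))) := by
    rw [hfun]
    exact htb
  have htbN : IsTranscendenceBasis k (fun i => algebraMap E N (c i)) :=
    IsTranscendenceBasis.of_comp_algebraMap (A' := N') htb'
  have h1 := hU (w.comap (algebraMap N N')) (by rw [hv]; exact hw) c t (by rw [hv]; exact hc)
    (by rw [hv]; exact ht) htbN
  rw [GoodUpAux.jac_congr hfun.symm htb htb', jac_algebraMap htbN htb' a]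
  exact h1

theorem GoodUpAux.of_good_aux {k E N ι : Type*} [Field k] [CharZero k] [Field E] [Field N]
    [Algebra k E] [Algebra k N] [Algebra E N] [IsScalarTower k E N] [FiniteDimensional E N]
    [CharZero E] [CharZero N]
    [Algebra.EssFiniteType k E] [Fintype ι] [DecidableEq ι] (Ω : Type*) [Field Ω] [Algebra E Ω]
    [Algebra N Ω] [IsScalarTower E N Ω] [FiniteDimensional E Ω] [Normal E Ω] {a : ι → N}
    (ha : IsTranscendenceBasis k a) {c : ℕ} {θ : Fin c → N} (hθ : AlgebraicIndependent k θ)
    (hθa : ∀ i, θ i ∈ Ratios k E a) (h1 : (1 : N) ∈ Ratios k E a) : KodairaGE k E c := by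
  letI : Algebra k Ω := ((algebraMap E Ω).comp (algebraMap k E)).toAlgebra
  haveI : IsScalarTower k E Ω := IsScalarTower.of_algebraMap_eq fun _ => rfl
  haveI : IsScalarTower k N Ω := IsScalarTower.of_algebraMap_eq fun c => by
    rw [IsScalarTower.algebraMap_apply k E N, ← IsScalarTower.algebraMap_apply E N Ω]
    rfl
  haveI : IsGalois E Ω := ⟨⟩
  haveI : Algebra.EssFiniteType E Ω := inferInstance
  haveI : Algebra.EssFiniteType k Ω := Algebra.EssFiniteType.comp k E Ω
  haveI : FiniteDimensional N Ω := FiniteDimensional.right E N Ω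
  have haΩ : IsTranscendenceBasis k (fun i => algebraMap N Ω (a i)) := ha.algebraMap_comp
  have hθΩ : AlgebraicIndependent k (fun i => algebraMap N Ω (θ i)) :=
    (AlgHom.algebraicIndependent_iff (IsScalarTower.toAlgHom k N Ω)
      (algebraMap N Ω).injective).mpr hθ
  have hup : ∀ z : N, z ∈ Ratios k E a →
      algebraMap N Ω z ∈ Ratios k E (fun i => algebraMap N Ω (a i)) := by
    rintro z ⟨m, hm, U, hU, hUne, hzU⟩
    refine ⟨m, hm, algebraMap N Ω U, GoodL.up ha hU, ?_, ?_⟩
    · rw [Ne, map_eq_zero]
      exact hUne
    · rw [← map_mul]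
      exact GoodL.up ha hzU
  refine of_good haΩ hθΩ (fun i => hup _ (hθa i)) ?_
  have h2 := hup 1 h1
  rwa [map_one] at h2

theorem of_good' {k E N ι : Type*} [Field k] [CharZero k] [Field E] [Field N]
    [Algebra k E] [Algebra k N] [Algebra E N] [IsScalarTower k E N] [FiniteDimensional E N]
    [Algebra.EssFiniteType k E] [Fintype ι] [DecidableEq ι] {a : ι → N}
    (ha : IsTranscendenceBasis k a) {c : ℕ} {θ : Fin c → N} (hθ : AlgebraicIndependent k θ)
    (hθa : ∀ i, θ i ∈ Ratios k E a) (h1 : (1 : N) ∈ Ratios k E a) : KodairaGE k E c := by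
  haveI : CharZero E := charZero_of_injective_algebraMap (algebraMap k E).injective
  haveI : CharZero N := charZero_of_injective_algebraMap (algebraMap k N).injective
  let Ω := IntermediateField.normalClosure E N (AlgebraicClosure N)
  haveI : IsAlgClosure E (AlgebraicClosure N) :=
    ⟨inferInstance, Algebra.IsAlgebraic.trans E N (AlgebraicClosure N)⟩
  haveI : Normal E (AlgebraicClosure N) := IsAlgClosure.normal E (AlgebraicClosure N)
  haveI : Normal E Ω := inferInstance
  haveI : FiniteDimensional E Ω := inferInstance
  exact GoodUpAux.of_good_aux Ω ha hθ hθa h1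

end Pf72953.Twr
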