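import Mathlib
import Pool.Agent.Lib.Pf72953.Core
import Pool.Agent.Lib.Pf72953t.Sec

/-!
MODULE Pf72953t.Ind: algebraic independence over three algebraically independent subfields.

`N` is algebraic over the compositum of `B`, `Y`, `G` and `dim N = dim B + dim Y + dim G`.
PROOF of `fam_tb`: as `Pf72953.sumElim_tb` (Core.lean): `N` is algebraic over `Algebra.adjoin k (Set.range (fam N x y g))`
(`IsAlgebraic.adjoin_of_forall_isAlgebraic` and `isAlgebraic_transport` for the three fields) and the number of elements is the dimension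
(`Algebra.IsAlgebraic.isTranscendenceBasis_of_lift_le_trdeg_of_finite`).
PROOF of `indep3`: let `κ = algebraicClosure B N` (an intermediate field of `N/B`, with the `k`-algebra structure through `B`); `ξ` lies in
`κ` and is algebraically independent there.  `κ/B` is algebraic, so `dimension k κ = dimension k B`.  Extend the images of `ξ`, `η`, `ψ` to
transcendence bases of `κ`, `Y`, `G` over `k` (`exists_isTranscendenceBasis_superset`, as in `Pf72953.sumElim_indep`), which are finite, and apply
`fam_tb` with `κ` in place of `B` (its hypotheses for `κ` follow from those for `B`); then compose with the injective map of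
index types as at the end of `Pf72953.sumElim_indep`.
-/

set_option autoImplicit false
set_option linter.style.haveILetI false

open scoped WithZero
open Pf72953 Pf72953.Var Pf72953.Mov

namespace Pf72953.Twr

namespace IndAux

/-- `fam_tb` without finiteness of `B`, `Y`, `G` -/
theorem fam_tb_aux {k B Y G N : Type*} [Field k] [Field B] [Field Y] [Field G] [Field N]
    [Algebra k B] [Algebra k Y] [Algebra k G] [Algebra k N] [Algebra B N] [Algebra Y N]
    [Algebra G N] [IsScalarTower k B N] [IsScalarTower k Y N] [IsScalarTower k G N]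
    [FinTrdeg k N] {ιB ιY ιG : Type*} [Fintype ιB] [Fintype ιY] [Fintype ιG]
    (hdim : dimension k B + dimension k Y + dimension k G = dimension k N)
    (halg : ∀ a : N, IsAlgebraic (Algebra.adjoin k (Set.range (algebraMap B N) ∪
      Set.range (algebraMap Y N) ∪ Set.range (algebraMap G N))) a)
    {x : ιB → B} {y : ιY → Y} {g : ιG → G} (hx : IsTranscendenceBasis k x)
    (hy : IsTranscendenceBasis k y) (hg : IsTranscendenceBasis k g) :
    IsTranscendenceBasis k (fam N x y g) := by
  have : Algebra.IsAlgebraic (Algebra.adjoin k (Set.range (fam N x y g))) N := by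
    refine ⟨fun a => (halg a).adjoin_of_forall_isAlgebraic ?_⟩
    rintro _ ⟨(⟨b, rfl⟩ | ⟨b, rfl⟩) | ⟨b, rfl⟩, _⟩
    · exact isAlgebraic_transport hx (Set.range (fam N x y g))
        (fun i => ⟨Sum.inl (Sum.inl i), rfl⟩) b
    · exact isAlgebraic_transport hy (Set.range (fam N x y g))
        (fun i => ⟨Sum.inl (Sum.inr i), rfl⟩) b
    · exact isAlgebraic_transport hg (Set.range (fam N x y g))
        (fun i => ⟨Sum.inr i, rfl⟩) b
  refine Algebra.IsAlgebraic.isTranscendenceBasis_of_lift_le_trdeg_of_finite k (fam N x y g) ?_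
  rw [← trdeg_eq_dimension, Cardinal.mk_fintype, Fintype.card_sum, Fintype.card_sum,
    card_eq_of_isTranscendenceBasis hx, card_eq_of_isTranscendenceBasis hy,
    card_eq_of_isTranscendenceBasis hg, hdim, Cardinal.lift_natCast, Cardinal.lift_natCast]

end IndAux

variable {k B Y G N : Type*} [Field k] [CharZero k] [Field B] [Field Y] [Field G] [Field N]
  [Algebra k B] [Algebra k Y] [Algebra k G] [Algebra k N] [Algebra B N] [Algebra Y N]
  [Algebra G N] [IsScalarTower k B N] [IsScalarTower k Y N] [IsScalarTower k G N]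
  [Algebra.EssFiniteType k B] [Algebra.EssFiniteType k Y] [Algebra.EssFiniteType k G]
  [Algebra.EssFiniteType k N]

theorem fam_tb {ιB ιY ιG : Type*} [Fintype ιB] [Fintype ιY] [Fintype ιG]
    (hdim : dimension k B + dimension k Y + dimension k G = dimension k N)
    (halg : ∀ a : N, IsAlgebraic (Algebra.adjoin k (Set.range (algebraMap B N) ∪
      Set.range (algebraMap Y N) ∪ Set.range (algebraMap G N))) a)
    {x : ιB → B} {y : ιY → Y} {g : ιG → G} (hx : IsTranscendenceBasis k x)
    (hy : IsTranscendenceBasis k y) (hg : IsTranscendenceBasis k g) :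
    IsTranscendenceBasis k (fam N x y g) := by
  exact IndAux.fam_tb_aux hdim halg hx hy hg

theorem indep3
    (hdim : dimension k B + dimension k Y + dimension k G = dimension k N)
    (halg : ∀ a : N, IsAlgebraic (Algebra.adjoin k (Set.range (algebraMap B N) ∪
      Set.range (algebraMap Y N) ∪ Set.range (algebraMap G N))) a)
    {a b c : ℕ} {ξ : Fin a → N} {η : Fin b → Y} {ψ : Fin c → G}
    (hξ : AlgebraicIndependent k ξ) (hξB : ∀ i, IsAlgebraic B (ξ i))
    (hη : AlgebraicIndependent k η) (hψ : AlgebraicIndependent k ψ) :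
    AlgebraicIndependent k (Sum.elim (Sum.elim ξ (fun j => algebraMap Y N (η j)))
      (fun l => algebraMap G N (ψ l))) := by
  classical
  let B₁ : IntermediateField B N := algebraicClosure B N
  have hB₁ : ∀ c : N, IsAlgebraic B c → c ∈ B₁ := fun c hc => mem_algebraicClosure_iff.2 hc
  have : IsScalarTower k B₁ N := IsScalarTower.of_algebraMap_eq fun c => rfl
  let ξ' : Fin a → B₁ := fun i => ⟨ξ i, hB₁ _ (hξB i)⟩
  have hξ' : AlgebraicIndependent k ξ' := by
    have h1 : (fun i => (IsScalarTower.toAlgHom k B₁ N) (ξ' i)) = ξ := rfl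
    rw [← h1] at hξ
    exact (AlgHom.algebraicIndependent_iff (IsScalarTower.toAlgHom k B₁ N)
      (algebraMap B₁ N).injective).mp hξ
  obtain ⟨x₀, hx₀⟩ := exists_tb k B
  have hx₁ : IsTranscendenceBasis k (algebraMap B B₁ ∘ x₀) := hx₀.algebraMap_comp
  have : FinTrdeg k B₁ := FinTrdeg.of_isTranscendenceBasis hx₁
  have hdimB : dimension k B₁ = dimension k B := by
    rw [← card_eq_of_isTranscendenceBasis hx₁, Fintype.card_fin]
  obtain ⟨S, hS, hS'⟩ := exists_isTranscendenceBasis_superset (R := k) (s := Set.range ξ')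
    hξ'.to_subtype_range
  obtain ⟨T, hT, hT'⟩ := exists_isTranscendenceBasis_superset (R := k) (s := Set.range η)
    hη.to_subtype_range
  obtain ⟨U, hU, hU'⟩ := exists_isTranscendenceBasis_superset (R := k) (s := Set.range ψ)
    hψ.to_subtype_range
  have := finite_of_isTranscendenceBasis hS'
  have := finite_of_isTranscendenceBasis hT'
  have := finite_of_isTranscendenceBasis hU'
  have := Fintype.ofFinite S
  have := Fintype.ofFinite T
  have := Fintype.ofFinite U
  have halg' : ∀ a : N, IsAlgebraic (Algebra.adjoin k (Set.range (algebraMap B₁ N) ∪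
      Set.range (algebraMap Y N) ∪ Set.range (algebraMap G N))) a := by
    intro c
    refine (halg c).adjoin_of_forall_isAlgebraic ?_
    rintro _ ⟨(⟨b, rfl⟩ | ⟨b, rfl⟩) | ⟨b, rfl⟩, h⟩
    · exact absurd (Or.inl (Or.inl ⟨algebraMap B B₁ b, rfl⟩)) h
    · exact absurd (Or.inl (Or.inr ⟨b, rfl⟩)) h
    · exact absurd (Or.inr ⟨b, rfl⟩) h
  have hZ := IndAux.fam_tb_aux (hdimB ▸ hdim) halg' hS' hT' hU'
  let e : (Fin a ⊕ Fin b) ⊕ Fin c → (S ⊕ T) ⊕ U :=
    Sum.map (Sum.map (fun i => ⟨ξ' i, hS ⟨i, rfl⟩⟩) (fun j => ⟨η j, hT ⟨j, rfl⟩⟩))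
      (fun l => ⟨ψ l, hU ⟨l, rfl⟩⟩)
  have he : Function.Injective e := by
    refine Function.Injective.sumMap (Function.Injective.sumMap ?_ ?_) ?_
    · intro i j hij
      exact hξ'.injective (congrArg Subtype.val hij)
    · intro i j hij
      exact hη.injective (congrArg Subtype.val hij)
    · intro i j hij
      exact hψ.injective (congrArg Subtype.val hij)
  have h2 := hZ.1.comp e he
  have h3 : (fam N (fun i : S => (i : B₁)) (fun i : T => (i : Y)) (fun i : U => (i : G))) ∘ e =
      Sum.elim (Sum.elim ξ (fun j => algebraMap Y N (η j))) (fun l => algebraMap G N (ψ l)) := by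
    funext i
    rcases i with (i | i) | i <;> rfl
  rw [← h3]
  exact h2

end Pf72953.Twr
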