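import Mathlib
import Pool.Agent.Lib.Pf72953.Core
import Pool.Agent.Lib.Pf72953t.Ind

/-!
MODULE Pf72953t.IndZ: the transcendence bases of the compositum `Z` of `B` and `Y`, and of `N` over `k` in terms of `Z` and `G`.

PROOF.  `Z_tb`: the family is algebraically independent as a subfamily (in `N`) of `fam N x y g` for some transcendence basis `g` of
`G` (`fam_tb`, `AlgebraicIndependent.of_comp` or `AlgHom.algebraicIndependent_iff` for `Z → N`), and `Z` is algebraic over it since `Z` is algebraic over
the compositum of `B` and `Y` (`hgen`; `isAlgebraic_transport` for the two fields, as in `Pf72953.sumElim_tb`, Core.lean).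
`N_tb`: `N` is algebraic over `Algebra.adjoin k` of the family (transport of `z` and `g`: `Z` contains `B` and `Y`) and the number of elements
`dim Z + dim G = dim B + dim Y + dim G` (from `Z_tb`) is the dimension
(`Algebra.IsAlgebraic.isTranscendenceBasis_of_lift_le_trdeg_of_finite` as in `Pf72953.sumElim_tb`).
-/

set_option autoImplicit false
set_option linter.style.haveILetI false

open scoped WithZero
open Pf72953 Pf72953.Var Pf72953.Mov

namespace Pf72953.Twr

variable {k B Y G N : Type*} [Field k] [CharZero k] [Field B] [Field Y] [Field G] [Field N]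
  [Algebra k B] [Algebra k Y] [Algebra k G] [Algebra k N] [Algebra B N] [Algebra Y N]
  [Algebra G N] [IsScalarTower k B N] [IsScalarTower k Y N] [IsScalarTower k G N]
  [Algebra.EssFiniteType k B] [Algebra.EssFiniteType k Y] [Algebra.EssFiniteType k G]
  [Algebra.EssFiniteType k N]

variable {Z : Type*} [Field Z] [Algebra k Z] [Algebra B Z] [Algebra Y Z] [Algebra Z N]
  [IsScalarTower k B Z] [IsScalarTower k Y Z] [IsScalarTower k Z N] [IsScalarTower B Z N]
  [IsScalarTower Y Z N]

theorem Z_tb {ιB ιY : Type*} [Fintype ιB] [Fintype ιY]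
    (hdim : dimension k B + dimension k Y + dimension k G = dimension k N)
    (halg : ∀ a : N, IsAlgebraic (Algebra.adjoin k (Set.range (algebraMap B N) ∪
      Set.range (algebraMap Y N) ∪ Set.range (algebraMap G N))) a)
    (hgen : ∀ s : Z, IsAlgebraic (Algebra.adjoin k (Set.range (algebraMap B Z) ∪
      Set.range (algebraMap Y Z))) s)
    {x : ιB → B} {y : ιY → Y} (hx : IsTranscendenceBasis k x)
    (hy : IsTranscendenceBasis k y) : IsTranscendenceBasis k
      (Sum.elim (fun i => algebraMap B Z (x i)) (fun j => algebraMap Y Z (y j))) := by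
  obtain ⟨g, hg⟩ := exists_tb k G
  have h1 := (fam_tb hdim halg hx hy hg).1
  set s : ιB ⊕ ιY → Z :=
    Sum.elim (fun i => algebraMap B Z (x i)) (fun j => algebraMap Y Z (y j)) with hs
  have h2 : AlgebraicIndependent k (fun i => algebraMap Z N (s i)) := by
    have h3 := h1.comp (Sum.inl : ιB ⊕ ιY → (ιB ⊕ ιY) ⊕ Fin (dimension k G)) Sum.inl_injective
    have h4 : (fun i => algebraMap Z N (s i)) =
        fam N x y g ∘ (Sum.inl : ιB ⊕ ιY → (ιB ⊕ ιY) ⊕ Fin (dimension k G)) := by
      funext i
      rcases i with i | i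
      · exact (IsScalarTower.algebraMap_apply B Z N (x i)).symm
      · exact (IsScalarTower.algebraMap_apply Y Z N (y i)).symm
    rw [h4]
    exact h3
  have h5 : AlgebraicIndependent k s :=
    (AlgHom.algebraicIndependent_iff (IsScalarTower.toAlgHom k Z N)
      (algebraMap Z N).injective).mp h2
  refine h5.isTranscendenceBasis_iff_isAlgebraic.mpr
    ⟨fun a => (hgen a).adjoin_of_forall_isAlgebraic ?_⟩
  rintro _ ⟨⟨b, rfl⟩ | ⟨b, rfl⟩, _⟩
  · exact isAlgebraic_transport hx (Set.range s) (fun i => ⟨Sum.inl i, rfl⟩) b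
  · exact isAlgebraic_transport hy (Set.range s) (fun i => ⟨Sum.inr i, rfl⟩) b

theorem N_tb {ιZ ιG : Type*} [Fintype ιZ] [Fintype ιG]
    (hdim : dimension k B + dimension k Y + dimension k G = dimension k N)
    (halg : ∀ a : N, IsAlgebraic (Algebra.adjoin k (Set.range (algebraMap B N) ∪
      Set.range (algebraMap Y N) ∪ Set.range (algebraMap G N))) a)
    (hgen : ∀ s : Z, IsAlgebraic (Algebra.adjoin k (Set.range (algebraMap B Z) ∪
      Set.range (algebraMap Y Z))) s)
    {z : ιZ → Z} {g : ιG → G} (hz : IsTranscendenceBasis k z)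
    (hg : IsTranscendenceBasis k g) : IsTranscendenceBasis k
      (Sum.elim (fun i => algebraMap Z N (z i)) (fun j => algebraMap G N (g j))) := by
  obtain ⟨x, hx⟩ := exists_tb k B
  obtain ⟨y, hy⟩ := exists_tb k Y
  have hZ := card_eq_of_isTranscendenceBasis (Z_tb hdim halg hgen hx hy)
  rw [Fintype.card_sum, Fintype.card_fin, Fintype.card_fin] at hZ
  set s : ιZ ⊕ ιG → N :=
    Sum.elim (fun i => algebraMap Z N (z i)) (fun j => algebraMap G N (g j)) with hs
  haveI : Algebra.IsAlgebraic (Algebra.adjoin k (Set.range s)) N := by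
    refine ⟨fun a => (halg a).adjoin_of_forall_isAlgebraic ?_⟩
    rintro _ ⟨(⟨b, rfl⟩ | ⟨b, rfl⟩) | ⟨b, rfl⟩, _⟩
    · rw [IsScalarTower.algebraMap_apply B Z N]
      exact isAlgebraic_transport hz (Set.range s) (fun i => ⟨Sum.inl i, rfl⟩) _
    · rw [IsScalarTower.algebraMap_apply Y Z N]
      exact isAlgebraic_transport hz (Set.range s) (fun i => ⟨Sum.inl i, rfl⟩) _
    · exact isAlgebraic_transport hg (Set.range s) (fun i => ⟨Sum.inr i, rfl⟩) b
  refine Algebra.IsAlgebraic.isTranscendenceBasis_of_lift_le_trdeg_of_finite k s ?_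
  rw [← trdeg_eq_dimension, Cardinal.mk_fintype, Fintype.card_sum,
    card_eq_of_isTranscendenceBasis hz, card_eq_of_isTranscendenceBasis hg, ← hZ, hdim]
  simp

end Pf72953.Twr
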