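import Mathlib
import Pool.Agent.Lib.Pf72953t.Ind
import Pool.Agent.Lib.Pf72953t.IndZ
import Pool.Agent.Lib.Pf72953t.Est
import Pool.Agent.Lib.Pf72953t.GoodUp

/-!
MODULE Pf72953t.Core: the Kodaira dimension of the total space (lower bound).

This generalises `Mov.core` (Pf72953m/Fin.lean; copy its proof) by the factor `G`.
PROOF.  Let `ν = max 2 (finrank L N)`.  The hypotheses `hZ`, `hN` of `mem_GoodL'` are `Z_tb` and `N_tb` (`hcomp` gives the hypothesis `hgen` of these
lemmas by `IntermediateField.isAlgebraic_adjoin_iff` or directly); `dimension k E = dimension k N` as in `Mov.core`.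
Forms: `g₀`, `g₂`, `φ` on `M` from `hpos`, `hb` as in `Mov.core`; `p₀ ∈ WReg k γ m₃`, `p₀ ≠ 0`, `θ_i` with `θ_i p₀ ∈ WReg k γ m₃` from `hc`
(`KodairaGE.exists_coord`, `γ` from `exists_tb k G`).  Weights: `N₁ = ν * m₂ * ∑ C_j`, `m = N₁ m₀ + m₂`, `q_j = N₁ q₀_j + m₂`, so
`ν ∑ C_j q_j ≤ m` (as in `Mov.core` with `2` replaced by `ν`).  Total degree `m₁ m m₃`: the forms
`h₀ ^ (m m₃) * (g₀ ^ N₁ g₂) ^ (m₁ m₃) * p₀ ^ (m₁ m) * ∏ (D j).a (l₀ j) ^ (m₁ m₃ q_j) / sec_j ^ (m₁ m₃ q_j)` and the variants with one factor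
changed (`(f h₀) ^ (m m₃)`; one factor `g₀ ^ N₁ g₂` replaced by `g₀ ^ N₁ φ_i g₂`; one factor `p₀` replaced by `θ_i p₀`; one coefficient `a_l'` replaced by
`a_l`) are good by `mem_GoodL'`; so the `f ^ (m m₃)`, `φ_i`, `θ_i`, `a_l / a_l'` are in `Ratios k E (fam N x y γ)`, as in `Mov.core`.
Independence: `indep3` applied to `ξ'_i = ξ_i ^ (m m₃)` (algebraic over `B`), `φ`, `θ`.  Conclude by `of_good'` (with `fam_tb`).
-/

set_option autoImplicit false
set_option linter.style.haveILetI false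

open scoped WithZero
open Pf72953 Pf72953.Var Pf72953.Mov

namespace Pf72953.Twr

namespace CoreAux

theorem essZ {k B Y Z : Type*} [Field k] [Field B] [Field Y] [Field Z] [Algebra k B] [Algebra k Y]
    [Algebra k Z] [Algebra B Z] [Algebra Y Z] [IsScalarTower k B Z] [IsScalarTower k Y Z]
    [Algebra.EssFiniteType k B] [Algebra.EssFiniteType k Y] (hcomp : IsCompositum k B Y Z) :
    Algebra.EssFiniteType k Z := by
  classical
  obtain ⟨s, hs⟩ := IntermediateField.fg_top k B
  obtain ⟨t, ht⟩ := IntermediateField.fg_top k Y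
  rw [← IntermediateField.fg_top_iff]
  refine ⟨s.image (algebraMap B Z) ∪ t.image (algebraMap Y Z), ?_⟩
  rw [_root_.eq_top_iff]
  intro z _
  have hle : IntermediateField.adjoin k (Set.range (algebraMap B Z) ∪ Set.range (algebraMap Y Z)) ≤
      IntermediateField.adjoin k
        (↑(s.image (algebraMap B Z) ∪ t.image (algebraMap Y Z)) : Set Z) := by
    rw [IntermediateField.adjoin_le_iff]
    rintro _ (⟨b, rfl⟩ | ⟨b, rfl⟩)
    · have hb : b ∈ IntermediateField.adjoin k (s : Set B) := by rw [hs]; trivial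
      have h1 : IntermediateField.adjoin k (s : Set B) ≤
          (IntermediateField.adjoin k
            (↑(s.image (algebraMap B Z) ∪ t.image (algebraMap Y Z)) : Set Z)).comap
            (IsScalarTower.toAlgHom k B Z) := by
        rw [IntermediateField.adjoin_le_iff]
        intro c hc
        refine IntermediateField.subset_adjoin k _ (Finset.mem_coe.mpr ?_)
        exact Finset.mem_union_left _ (Finset.mem_image_of_mem _ (Finset.mem_coe.mp hc))
      exact h1 hb
    · have hb : b ∈ IntermediateField.adjoin k (t : Set Y) := by rw [ht]; trivial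
      have h1 : IntermediateField.adjoin k (t : Set Y) ≤
          (IntermediateField.adjoin k
            (↑(s.image (algebraMap B Z) ∪ t.image (algebraMap Y Z)) : Set Z)).comap
            (IsScalarTower.toAlgHom k Y Z) := by
        rw [IntermediateField.adjoin_le_iff]
        intro c hc
        refine IntermediateField.subset_adjoin k _ (Finset.mem_coe.mpr ?_)
        exact Finset.mem_union_right _ (Finset.mem_image_of_mem _ (Finset.mem_coe.mp hc))
      exact h1 hb
  exact hle (hcomp z)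

theorem alg_of_adjoin {k Z : Type*} [Field k] [Field Z] [Algebra k Z] {S : Set Z} {z : Z}
    (h : z ∈ IntermediateField.adjoin k S) : IsAlgebraic (Algebra.adjoin k S) z := by
  rw [IntermediateField.mem_adjoin_iff_div] at h
  obtain ⟨a, ha, b, hb, rfl⟩ := h
  rw [div_eq_mul_inv]
  exact (isAlgebraic_algebraMap (⟨a, ha⟩ : Algebra.adjoin k S)).mul
    (isAlgebraic_algebraMap (⟨b, hb⟩ : Algebra.adjoin k S)).inv

end CoreAux

open CoreAux

variable {k B Y G Z E L N J : Type*} [Field k] [CharZero k] [IsAlgClosed k] [Field B]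
  [Field Y] [Field G] [Field Z] [Field E] [Field L] [Field N]
  [Algebra k B] [Algebra k Y] [Algebra k G] [Algebra k Z] [Algebra k E] [Algebra k L] [Algebra k N]
  [Algebra B Z] [Algebra B E] [Algebra B L] [Algebra B N] [Algebra Y Z] [Algebra Y L]
  [Algebra Y N] [Algebra Z L] [Algebra Z N] [Algebra E L] [Algebra E N] [Algebra L N]
  [Algebra G N] [IsScalarTower k B Z] [IsScalarTower k Y Z] [IsScalarTower k Z N]
  [IsScalarTower k B N] [IsScalarTower k Y N] [IsScalarTower k G N] [IsScalarTower k E N]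
  [IsScalarTower k L N] [IsScalarTower k E L] [IsScalarTower k B L] [IsScalarTower k Y L]
  [IsScalarTower k Z L]
  [IsScalarTower B Z L] [IsScalarTower B Z N] [IsScalarTower Y Z L] [IsScalarTower Y Z N]
  [IsScalarTower B E L] [IsScalarTower B E N] [IsScalarTower B L N] [IsScalarTower Y L N]
  [IsScalarTower Z L N] [IsScalarTower E L N]
  [Algebra.EssFiniteType k B] [Algebra.EssFiniteType k Y] [Algebra.EssFiniteType k G]
  [Algebra.EssFiniteType k E] [FiniteDimensional E L] [FiniteDimensional E N]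
  [FiniteDimensional L N] [Fintype J] {M : SmoothModel k Y}

theorem core'
    (hcomp : IsCompositum k B Y Z)
    (hdim : dimension k B + dimension k Y + dimension k G = dimension k E)
    (halg : ∀ a : N, IsAlgebraic (Algebra.adjoin k (Set.range (algebraMap B N) ∪
      Set.range (algebraMap Y N) ∪ Set.range (algebraMap G N))) a)
    (hunr : Unramified k B E L) (hunr' : Unramified k Z L N) (D : J → MovingDivisor M B N)
    (hram : ∀ j, RamifiedOn k L G (D j)) (hpos : PositiveOn L D)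
    {x : Fin (dimension k B) → B} (hx : IsTranscendenceBasis k x) {m₁ : ℕ}
    (hm₁ : 1 ≤ m₁) {h₀ : B} (hh₀ : h₀ ∈ WOrb k E x m₁) (hh₀ne : h₀ ≠ 0) {a b c : ℕ}
    {ξ : Fin a → N} (hξ : AlgebraicIndependent k ξ)
    (hξ' : ∀ i, (∃ f : B, ξ i = algebraMap B N f ∧ f * h₀ ∈ WOrb k E x m₁) ∨
      ∃ j, ξ i ∈ (D j).ratios)
    (hb : LogKodairaGE M (fun j => (D j).S) b) (hc : KodairaGE k G c) :
    KodairaGE k E (a + b + c) := by
  classical
  haveI : Algebra.EssFiniteType k L := Algebra.EssFiniteType.comp k E L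
  haveI : Algebra.EssFiniteType k N := Algebra.EssFiniteType.comp k E N
  haveI : Algebra.EssFiniteType k Z := essZ hcomp
  haveI : CharZero B := charZero_of_injective_algebraMap (algebraMap k B).injective
  obtain ⟨y, hy⟩ := exists_tb k Y
  obtain ⟨γ, hγ⟩ := exists_tb k G
  obtain ⟨zE, hzE⟩ := exists_tb k E
  have hdimN : dimension k E = dimension k N := by
    have h1 : IsTranscendenceBasis k (algebraMap E N ∘ zE) := hzE.algebraMap_comp
    have h2 := card_eq_of_isTranscendenceBasis h1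
    rwa [Fintype.card_fin] at h2
  have hdim' := hdim.trans hdimN
  have hgen : ∀ s : Z, IsAlgebraic (Algebra.adjoin k (Set.range (algebraMap B Z) ∪
      Set.range (algebraMap Y Z))) s := fun s => alg_of_adjoin (hcomp s)
  have hZ : ∀ {x : Fin (dimension k B) → B} {y : Fin (dimension k Y) → Y},
      IsTranscendenceBasis k x → IsTranscendenceBasis k y → IsTranscendenceBasis k
        (Sum.elim (fun i => algebraMap B Z (x i)) (fun j => algebraMap Y Z (y j))) :=
    fun hx hy => Z_tb (G := G) (N := N) hdim' halg hgen hx hy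
  have hN : ∀ {z : Fin (dimension k B) ⊕ Fin (dimension k Y) → Z} {g : Fin (dimension k G) → G},
      IsTranscendenceBasis k z → IsTranscendenceBasis k g → IsTranscendenceBasis k
        (Sum.elim (fun i => algebraMap Z N (z i)) (fun j => algebraMap G N (g j))) :=
    fun hz hg => N_tb hdim' halg hgen hz hg
  have hBYG : ∀ {x : Fin (dimension k B) → B} {y : Fin (dimension k Y) → Y}
      {g : Fin (dimension k G) → G},
      IsTranscendenceBasis k x → IsTranscendenceBasis k y → IsTranscendenceBasis k g →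
        IsTranscendenceBasis k (fam N x y g) :=
    fun hx hy hg => fam_tb hdim' halg hx hy hg
  haveI hMne : Nonempty M.I := by
    obtain ⟨i, -⟩ := M.cover 1 (fun c hc => Valuation.one_apply_of_ne_zero (by simpa using hc))
    exact ⟨i⟩
  -- the forms on `M` and `G`
  obtain ⟨m₀, q₀, C₀, hlt, hmult, ω₀, hω₀, hω₀ne⟩ := hpos
  obtain ⟨m₂, hm₂, η₀, hη₀, hη₀ne, φ, hφ, hφη⟩ := hb
  obtain ⟨m₃, hm₃, p₀, hp₀, hp₀ne, θ, hθ, hθp⟩ := hc.exists_coord hγ
  obtain ⟨ν, hν⟩ : ∃ ν, ν = max 2 (Module.finrank L N) := ⟨_, rfl⟩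
  rw [← hν] at hlt
  set g₀ := coef hy m₀ ω₀ with hg₀
  set g₂ := coef hy m₂ η₀ with hg₂
  have hg₀mem := (mem_pluriSections_iff hy ω₀).mp hω₀
  have hg₂mem := (mem_pluriSections_iff hy η₀).mp hη₀
  have hg₀ne : g₀ ≠ 0 := fun h0 => hω₀ne (by rw [eq_coef_smul hy m₀ ω₀, ← hg₀, h0, zero_smul])
  have hg₂ne : g₂ ≠ 0 := fun h0 => hη₀ne (by rw [eq_coef_smul hy m₂ η₀, ← hg₂, h0, zero_smul])
  have hφmem : ∀ i, φ i * g₂ ∈ CoefSec M (fun j => (D j).S) y m₂ (fun _ => m₂) := fun i => by
    have := (mem_pluriSections_iff hy _).mp (hφη i)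
    rwa [map_smul, smul_eq_mul] at this
  -- the certificates
  have hcert : ∀ j, ∃ C, Cert (D j) C ∧ (q₀ j ≠ 0 → C ≤ C₀ j) := by
    intro j
    by_cases hj : q₀ j = 0
    · obtain ⟨C, hC⟩ := exists_cert (D j)
      exact ⟨C, hC, fun h => absurd hj h⟩
    · exact ⟨C₀ j, (hmult j hj).cert, fun _ => le_rfl⟩
  choose C hC hCle using hcert
  have hlt' : ν * ∑ j, C j * q₀ j < m₀ := by
    refine lt_of_le_of_lt ?_ hlt
    refine Nat.mul_le_mul_left ν (Finset.sum_le_sum fun j _ => ?_)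
    by_cases hj : q₀ j = 0
    · rw [hj]; simp
    · exact Nat.mul_le_mul_right _ (hCle j hj)
  -- the weights
  set N₁ := ν * m₂ * ∑ j, C j with hN₁
  set m := N₁ * m₀ + m₂ with hm
  set q : J → ℕ := fun j => N₁ * q₀ j + m₂ with hq
  have hqm : ν * ∑ j, C j * q j ≤ m := by
    have h1 : ∑ j, C j * q j = N₁ * ∑ j, C j * q₀ j + m₂ * ∑ j, C j := by
      rw [Finset.mul_sum, Finset.mul_sum, ← Finset.sum_add_distrib]
      refine Finset.sum_congr rfl fun j _ => ?_
      simp only [hq]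
      ring
    rw [h1, hm]
    calc ν * (N₁ * ∑ j, C j * q₀ j + m₂ * ∑ j, C j) = N₁ * (ν * ∑ j, C j * q₀ j + 1) := by
          rw [hN₁]; ring
      _ ≤ N₁ * m₀ := Nat.mul_le_mul_left N₁ hlt'
      _ ≤ N₁ * m₀ + m₂ := Nat.le_add_right _ _
  have hm1 : 1 ≤ m := by omega
  have hq1 : ∀ j, 1 ≤ q j := fun j => by simp only [hq]; omega
  set K := m₁ * m₃ with hK
  have hK1 : 1 ≤ K := Nat.one_le_iff_ne_zero.mpr (Nat.mul_ne_zero (by omega) (by omega))
  have e1 : m₁ * (m * m₃) = K * m := by rw [hK]; ring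
  have e3 : m₃ * (m₁ * m) = K * m := by rw [hK]; ring
  have hqm' : max 2 (Module.finrank L N) * ∑ j, C j * (K * q j) ≤ K * m := by
    rw [← hν]
    have h1 : ∑ j, C j * (K * q j) = K * ∑ j, C j * q j := by
      rw [Finset.mul_sum]
      exact Finset.sum_congr rfl fun j _ => by ring
    rw [h1]
    calc ν * (K * ∑ j, C j * q j) = K * (ν * ∑ j, C j * q j) := by ring
      _ ≤ K * m := Nat.mul_le_mul_left _ hqm
  -- the forms
  have hg : g₀ ^ N₁ * g₂ ∈ CoefSec M (fun j => (D j).S) y m q :=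
    CoefSec.mul (CoefSec.pow hg₀mem N₁) hg₂mem
  have hgφ : ∀ i, g₀ ^ N₁ * (φ i * g₂) ∈ CoefSec M (fun j => (D j).S) y m q := fun i =>
    CoefSec.mul (CoefSec.pow hg₀mem N₁) (hφmem i)
  have hh : h₀ ^ (m * m₃) ∈ WOrb k E x (K * m) := e1 ▸ WOrb.pow hh₀ (m * m₃)
  have hp : p₀ ^ (m₁ * m) ∈ WReg k γ (K * m) := e3 ▸ WReg.pow hp₀ (m₁ * m)
  choose l₀ hl₀ using fun j => (D j).a_ne
  have hnum : ∀ j, (D j).a (l₀ j) ^ (K * q j) ∈ Num (D j) (K * q j) := fun j => by
    have := Mov.Num.pow (Mov.Num.coeff (D := D j) (l₀ j)) (K * q j)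
    rwa [one_mul] at this
  have hsec0 : ∀ j, (D j).sec ≠ 0 := fun j => sec_ne_zero' (D j) hBYG hx hγ
  have key := fun {h : B} (hh : h ∈ WOrb k E x (K * m)) {g : Y}
      (hg : g ∈ CoefSec M (fun j => (D j).S) y (K * m) (fun j => K * q j)) {p : G}
      (hp : p ∈ WReg k γ (K * m)) {b : J → N}
      (hb : ∀ j, b j ∈ Num (D j) (K * q j)) =>
    mem_GoodL' (E := E) hZ hN hunr hunr' D hram hC hqm' hx hy hγ hh hg hp hb
  have hM1 : 1 ≤ K * m := Nat.one_le_iff_ne_zero.mpr (Nat.mul_ne_zero (by omega) (by omega))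
  have hgM := CoefSec.pow hg K
  set b₀ : J → N := fun j => (D j).a (l₀ j) ^ (K * q j) with hb₀
  set U : N := algebraMap B N (h₀ ^ (m * m₃)) * algebraMap Y N ((g₀ ^ N₁ * g₂) ^ K) *
    algebraMap G N (p₀ ^ (m₁ * m)) * ∏ j, b₀ j / (D j).sec ^ (K * q j) with hU
  have hUmem : U ∈ GoodL k E (fam N x y γ) (K * m) := key hh hgM hp hnum
  have hB0 : algebraMap B N (h₀ ^ (m * m₃)) ≠ 0 := (map_ne_zero _).2 (pow_ne_zero _ hh₀ne)
  have hY0 : algebraMap Y N ((g₀ ^ N₁ * g₂) ^ K) ≠ 0 := by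
    have := pow_ne_zero K (mul_ne_zero (pow_ne_zero N₁ hg₀ne) hg₂ne)
    simpa using this
  have hG0 : algebraMap G N (p₀ ^ (m₁ * m)) ≠ 0 := (map_ne_zero _).2 (pow_ne_zero _ hp₀ne)
  have hUne : U ≠ 0 := by
    refine mul_ne_zero (mul_ne_zero (mul_ne_zero hB0 hY0) hG0)
      (Finset.prod_ne_zero_iff.mpr fun j _ => ?_)
    exact div_ne_zero (pow_ne_zero _ (hl₀ j)) (pow_ne_zero _ (hsec0 j))
  -- the ratios
  have hR1 : (1 : N) ∈ Ratios k E (fam N x y γ) := ⟨K * m, hM1, U, hUmem, hUne, by rwa [one_mul]⟩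
  have hRB : ∀ f : B, f * h₀ ∈ WOrb k E x m₁ →
      algebraMap B N (f ^ (m * m₃)) ∈ Ratios k E (fam N x y γ) := by
    intro f hf
    refine ⟨K * m, hM1, U, hUmem, hUne, ?_⟩
    have h0 : (f * h₀) ^ (m * m₃) ∈ WOrb k E x (K * m) := e1 ▸ WOrb.pow hf (m * m₃)
    have h1 := key h0 hgM hp hnum
    have h2 : algebraMap B N (f ^ (m * m₃)) * U = algebraMap B N ((f * h₀) ^ (m * m₃)) *
        algebraMap Y N ((g₀ ^ N₁ * g₂) ^ K) * algebraMap G N (p₀ ^ (m₁ * m)) *
        ∏ j, b₀ j / (D j).sec ^ (K * q j) := by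
      rw [hU, mul_pow f h₀ (m * m₃), map_mul (algebraMap B N)]
      ring
    rw [h2]
    exact h1
  have hRY : ∀ i, algebraMap Y N (φ i) ∈ Ratios k E (fam N x y γ) := by
    intro i
    refine ⟨K * m, hM1, U, hUmem, hUne, ?_⟩
    obtain ⟨K', hK'⟩ : ∃ K', K = K' + 1 := ⟨K - 1, by omega⟩
    have h0 := CoefSec.mul (CoefSec.pow hg K') (hgφ i)
    have h3 : (fun j => K' * q j + q j) = fun j => K * q j := by
      funext j; rw [hK']; ring
    have h4 : K' * m + m = K * m := by rw [hK']; ring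
    rw [h3, h4] at h0
    have h1 := key hh h0 hp hnum
    have h2 : algebraMap Y N (φ i) * U = algebraMap B N (h₀ ^ (m * m₃)) *
        algebraMap Y N ((g₀ ^ N₁ * g₂) ^ K' * (g₀ ^ N₁ * (φ i * g₂))) *
        algebraMap G N (p₀ ^ (m₁ * m)) *
        ∏ j, b₀ j / (D j).sec ^ (K * q j) := by
      have h5 : (g₀ ^ N₁ * g₂) ^ K = (g₀ ^ N₁ * g₂) ^ K' * (g₀ ^ N₁ * g₂) := by
        rw [hK', pow_succ]
      rw [hU, h5]
      simp only [map_mul]
      ring
    rw [h2]
    exact h1
  have hRG : ∀ i, algebraMap G N (θ i) ∈ Ratios k E (fam N x y γ) := by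
    intro i
    refine ⟨K * m, hM1, U, hUmem, hUne, ?_⟩
    obtain ⟨n₁, hn₁⟩ : ∃ n₁, m₁ * m = n₁ + 1 := by
      have : 1 ≤ m₁ * m := Nat.one_le_iff_ne_zero.mpr (Nat.mul_ne_zero (by omega) (by omega))
      exact ⟨m₁ * m - 1, by omega⟩
    have h0 : p₀ ^ n₁ * (θ i * p₀) ∈ WReg k γ (K * m) := by
      have h5 := WReg.mul (WReg.pow hp₀ n₁) (hθp i)
      have h6 : m₃ * n₁ + m₃ = K * m := by
        rw [← e3, hn₁]
        ring
      rwa [h6] at h5
    have h1 := key hh hgM h0 hnum
    have h2 : algebraMap G N (θ i) * U = algebraMap B N (h₀ ^ (m * m₃)) *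
        algebraMap Y N ((g₀ ^ N₁ * g₂) ^ K) *
        algebraMap G N (p₀ ^ n₁ * (θ i * p₀)) *
        ∏ j, b₀ j / (D j).sec ^ (K * q j) := by
      have h5 : p₀ ^ (m₁ * m) = p₀ ^ n₁ * p₀ := by
        rw [hn₁, pow_succ]
      rw [hU, h5]
      simp only [map_mul]
      ring
    rw [h2]
    exact h1
  have hRA : ∀ θ : N, (∃ j, θ ∈ (D j).ratios) → θ ∈ Ratios k E (fam N x y γ) := by
    rintro θ ⟨j, l, l', rfl⟩
    by_cases hl' : (D j).a l' = 0
    · refine ⟨K * m, hM1, U, hUmem, hUne, ?_⟩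
      rw [hl', div_zero, zero_mul]
      intro w _ c t _ _ htb
      simp
    · have hpos1 : 1 ≤ K * q j := Nat.one_le_iff_ne_zero.mpr
        (Nat.mul_ne_zero (by omega) (by have := hq1 j; omega))
      obtain ⟨p, hpp⟩ : ∃ p, K * q j = p + 1 := ⟨K * q j - 1, by omega⟩
      have hn1 : ∀ l₁ : Fin ((D j).r + 1),
          (D j).a l₁ * (D j).a l' ^ p ∈ Num (D j) (K * q j) := by
        intro l₁
        have := Mov.Num.mul (Mov.Num.coeff (D := D j) l₁)
          (Mov.Num.pow (Mov.Num.coeff (D := D j) l') p)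
        rw [one_mul, add_comm 1 p, ← hpp] at this
        exact this
      have hbn : ∀ l₁ : Fin ((D j).r + 1), ∀ j', Function.update b₀ j
          ((D j).a l₁ * (D j).a l' ^ p) j' ∈ Num (D j') (K * q j') := by
        intro l₁ j'
        by_cases hj : j' = j
        · subst hj
          rw [Function.update_self]
          exact hn1 l₁
        · rw [Function.update_of_ne hj]
          exact hnum j'
      have h1 := key hh hgM hp (hbn l')
      have h2 := key hh hgM hp (hbn l)
      have hprod : ∀ l₁ : Fin ((D j).r + 1), ∏ j', Function.update b₀ j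
          ((D j).a l₁ * (D j).a l' ^ p) j' / (D j').sec ^ (K * q j') =
          (D j).a l₁ * ((D j).a l' ^ p / (D j).sec ^ (K * q j) *
            ∏ j' ∈ Finset.univ.erase j, b₀ j' / (D j').sec ^ (K * q j')) := by
        intro l₁
        rw [← Finset.mul_prod_erase Finset.univ _ (Finset.mem_univ j), Function.update_self]
        have h5 : ∏ j' ∈ Finset.univ.erase j, Function.update b₀ j
            ((D j).a l₁ * (D j).a l' ^ p) j' / (D j').sec ^ (K * q j') =
            ∏ j' ∈ Finset.univ.erase j, b₀ j' / (D j').sec ^ (K * q j') :=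
          Finset.prod_congr rfl fun j' hj' => by
            rw [Function.update_of_ne (Finset.ne_of_mem_erase hj')]
        rw [h5]
        ring
      rw [hprod] at h1 h2
      refine ⟨K * m, hM1, _, h1, ?_, ?_⟩
      · refine mul_ne_zero (mul_ne_zero (mul_ne_zero hB0 hY0) hG0) (mul_ne_zero hl' (mul_ne_zero
          (div_ne_zero (pow_ne_zero _ hl') (pow_ne_zero _ (hsec0 j)))
          (Finset.prod_ne_zero_iff.mpr fun j' _ =>
            div_ne_zero (pow_ne_zero _ (hl₀ j')) (pow_ne_zero _ (hsec0 j')))))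
      · convert h2 using 1
        field_simp
  -- replace the elements of the first type by powers
  have hmm : 1 ≤ m * m₃ := Nat.one_le_iff_ne_zero.mpr (Nat.mul_ne_zero (by omega) (by omega))
  set ξ' : Fin a → N := fun i => ξ i ^ (m * m₃) with hξ'def
  have hξ'' : AlgebraicIndependent k ξ' := algebraicIndependent_pow hξ hmm
  have hξB : ∀ i, IsAlgebraic B (ξ' i) := by
    intro i
    refine IsAlgebraic.pow ?_ (m * m₃)
    rcases hξ' i with ⟨f, hf, -⟩ | ⟨j, l, l', hθ⟩
    · rw [hf]; exact isAlgebraic_algebraMap f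
    · rw [hθ, div_eq_mul_inv]
      exact ((D j).a_alg l).mul ((D j).a_alg l').inv
  have hjoint := indep3 hdim' halg hξ'' hξB hφ hθ
  let e : Fin (a + b + c) ≃ (Fin a ⊕ Fin b) ⊕ Fin c :=
    finSumFinEquiv.symm.trans (Equiv.sumCongr finSumFinEquiv.symm (Equiv.refl _))
  have hΘind := hjoint.comp e e.injective
  refine of_good' (a := fam N x y γ) (hBYG hx hy hγ) hΘind (fun i => ?_) hR1
  simp only [Function.comp_apply]
  rcases e i with (i' | j') | l'
  · simp only [Sum.elim_inl]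
    rcases hξ' i' with ⟨f, hf, hfm⟩ | hj
    · rw [hξ'def]
      simp only
      rw [hf, ← map_pow]
      exact hRB f hfm
    · rw [hξ'def]
      simp only
      obtain ⟨m', hm', V, hV, hVne, hθV⟩ := hRA _ hj
      refine ⟨(m * m₃) * m', Nat.one_le_iff_ne_zero.mpr (Nat.mul_ne_zero (by omega) (by omega)),
        V ^ (m * m₃), ?_, pow_ne_zero _ hVne, ?_⟩
      · intro w hw c t hc ht htb
        have h1 := hV w hw c t hc ht htb
        generalize m * m₃ = mm
        rw [map_pow, mul_comm mm m', pow_mul, ← mul_pow]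
        exact pow_le_one' h1 mm
      · intro w hw c t hc ht htb
        have h1 := hθV w hw c t hc ht htb
        generalize m * m₃ = mm
        rw [← mul_pow, map_pow, mul_comm mm m', pow_mul, ← mul_pow]
        exact pow_le_one' h1 mm
  · simp only [Sum.elim_inl, Sum.elim_inr]
    exact hRY j'
  · simp only [Sum.elim_inr]
    exact hRG l'

end Pf72953.Twr
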