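import Mathlib
import Pool.Agent.Lib.Pf72953.Core
import Pool.Agent.Lib.Pf72953t.Bd

/-!
MODULE Pf72953t.Cnt: counting algebraically independent ratios of products of sections.

PROOF.  Let `F₀ = ∑ c_a e_a ≠ 0` be the expansion `h0`; some term is nonzero: `c⋆ := c_a ≠ 0`, `e⋆ := e_a ≠ 0`.  Let
`S₁ = {image in N of g / c⋆ | g ∈ Bd M S κ K C s y m}`, `S₂ = {image in N of g / e⋆ | g ∈ WReg k γ m}`.  By `h0`, `hff` the elements
`F₀ / (c⋆ e⋆)` and `f_i F₀ / (c⋆ e⋆)` are sums of products of one element of `S₁` and one of `S₂`; so `f_i` lies in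
`IntermediateField.adjoin κ (S₁ ∪ S₂)` and is algebraic over `Algebra.adjoin κ (S₁ ∪ S₂)`
(`IntermediateField.isAlgebraic_adjoin_iff`).  `exists_indep_in_set` (over `κ`) gives `ψ : Fin c → N` algebraically independent over `κ` with all
`ψ i ∈ S₁ ∪ S₂`.  Let `c₁` be the number of `i` with `ψ i ∈ S₁` and `c₂ = c - c₁` the number of the others (which are in `S₂`);
enumerate the two sets of indices.
The `c₁` elements `g_i / c⋆` of `C` are algebraically independent over `κ` (`AlgebraicIndependent.of_comp` or `AlgHom.algebraicIndependent_iff` for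
`C → N`), so `upper'` (with `g₀ = c⋆`, `f_i = g_i / c⋆`) gives `LogKodairaGE M S c₁`.
The `c₂` elements `g_i / e⋆` of `G` are algebraically independent over `k` (`AlgebraicIndependent.restrictScalars` from `κ` to `k`, then `G → N`), so
`KodairaGE.of_coord` gives `KodairaGE k G c₂`.
-/

set_option autoImplicit false
set_option linter.style.haveILetI false

open scoped WithZero
open Pf72953 Pf72953.Var Pf72953.Mov Pf72953.Up

namespace Pf72953.Twr

variable {k κ Y K C Ω G N J : Type*} [Field k] [CharZero k] [IsAlgClosed k] [Field κ] [CharZero κ]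
  [Field Y] [Field K] [Field C] [Field G] [Field N] [Algebra k κ] [Algebra k Y] [Algebra k K]
  [Algebra k C] [Algebra k G] [Algebra k N] [Algebra κ N] [Algebra C N] [Algebra G N]
  [Algebra κ K] [Algebra κ C] [Algebra Y K] [Algebra Y C] [Algebra K C]
  [IsScalarTower k κ K] [IsScalarTower k Y K] [IsScalarTower k κ C]
  [IsScalarTower k Y C] [IsScalarTower κ K C] [IsScalarTower Y K C] [IsScalarTower k K C]
  [IsScalarTower k κ N] [IsScalarTower κ C N] [IsScalarTower k G N] [IsScalarTower k C N]
  [FiniteDimensional K C]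
  [Algebra.EssFiniteType k Y] [Algebra.EssFiniteType k G] [Algebra.EssFiniteType κ K]
  [Algebra.EssFiniteType κ C] [Fintype J]

/-- sums of products of a function on `C` with the local bounds and a regular form of `G` -/
def Prods (N : Type*) [Field N] [Algebra C N] [Algebra G N] (M : SmoothModel k Y)
    (S : J → LineBundle M) (s : J → K) (y : Fin (dimension k Y) → Y)
    (γ : Fin (dimension k G) → G) (m : ℕ) : Set N :=
  {F | ∃ (n : ℕ) (c : Fin n → C) (e : Fin n → G), (∀ a, c a ∈ Bd M S κ K C s y m) ∧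
    (∀ a, e a ∈ WReg k γ m) ∧ F = ∑ a, algebraMap C N (c a) * algebraMap G N (e a)}

namespace CntAux

/-- a quotient of two elements of a subalgebra is algebraic over it -/
theorem isAlgebraic_of_mul_eq {R A : Type*} [Field R] [Field A] [Algebra R A] (T : Subalgebra R A)
    {x p q : A} (hp : p ∈ T) (hq : q ∈ T) (hq0 : q ≠ 0) (h : x * q = p) : IsAlgebraic T x := by
  refine ⟨Polynomial.C (⟨q, hq⟩ : T) * Polynomial.X - Polynomial.C (⟨p, hp⟩ : T), ?_, ?_⟩
  · intro h0
    have h1 := congrArg (fun P : Polynomial T => P.coeff 1) h0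
    simp only [Polynomial.coeff_sub, Polynomial.coeff_C_mul, Polynomial.coeff_X_one, mul_one,
      Polynomial.coeff_C_succ, sub_zero, Polynomial.coeff_zero] at h1
    exact hq0 (congrArg (fun z : T => (z : A)) h1)
  · rw [map_sub, map_mul, Polynomial.aeval_C, Polynomial.aeval_C, Polynomial.aeval_X]
    have h1 : algebraMap T A ⟨q, hq⟩ = q := rfl
    have h2 : algebraMap T A ⟨p, hp⟩ = p := rfl
    rw [h1, h2, ← h]
    ring

end CntAux

theorem count {M : SmoothModel k Y} {S : J → LineBundle M} {s : J → K}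
    (hS : Setup' M S κ K s) (Ω : Type*) [Field Ω] [Algebra κ Ω] [Algebra K Ω] [Algebra C Ω]
    [IsScalarTower K C Ω] [IsScalarTower κ K Ω] [FiniteDimensional K Ω] [IsGalois K Ω]
    [Nonempty M.I] {y : Fin (dimension k Y) → Y} (hy : IsTranscendenceBasis k y)
    {γ : Fin (dimension k G) → G} (hγ : IsTranscendenceBasis k γ) {m c : ℕ} (hm : 1 ≤ m)
    {F₀ : N} (hne : F₀ ≠ 0) (h0 : F₀ ∈ Prods (κ := κ) (K := K) (C := C) N M S s y γ m)
    {f : Fin c → N} (hf : AlgebraicIndependent κ f)
    (hff : ∀ i, f i * F₀ ∈ Prods (κ := κ) (K := K) (C := C) N M S s y γ m) :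
    ∃ c₁ c₂ : ℕ, c = c₁ + c₂ ∧ LogKodairaGE M S c₁ ∧ KodairaGE k G c₂ := by
  classical
  obtain ⟨n, cc, ee, hcc, hee, hF₀⟩ := h0
  -- a nonzero term
  obtain ⟨a, ha⟩ : ∃ a, algebraMap C N (cc a) * algebraMap G N (ee a) ≠ 0 := by
    by_contra hcon
    push Not at hcon
    exact hne (by rw [hF₀]; exact Finset.sum_eq_zero fun a _ => hcon a)
  have hc0 : cc a ≠ 0 := by
    intro h
    rw [h, map_zero, zero_mul] at ha
    exact ha rfl
  have he0 : ee a ≠ 0 := by
    intro h
    rw [h, map_zero, mul_zero] at ha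
    exact ha rfl
  have hc0N : algebraMap C N (cc a) ≠ 0 := left_ne_zero_of_mul ha
  have he0N : algebraMap G N (ee a) ≠ 0 := right_ne_zero_of_mul ha
  set S₁ : Set N := {x | ∃ g ∈ Bd M S κ K C s y m, algebraMap C N (g / cc a) = x} with hS₁
  set S₂ : Set N := {x | ∃ g ∈ WReg k γ m, algebraMap G N (g / ee a) = x} with hS₂
  have hprod : ∀ P ∈ Prods (κ := κ) (K := K) (C := C) N M S s y γ m,
      P / (algebraMap C N (cc a) * algebraMap G N (ee a)) ∈ Algebra.adjoin κ (S₁ ∪ S₂) := by
    rintro P ⟨l, c', e', hc', he', rfl⟩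
    rw [Finset.sum_div]
    refine Subalgebra.sum_mem _ fun b _ => ?_
    have e1 : algebraMap C N (c' b) * algebraMap G N (e' b) /
        (algebraMap C N (cc a) * algebraMap G N (ee a)) =
        algebraMap C N (c' b / cc a) * algebraMap G N (e' b / ee a) := by
      rw [map_div₀, map_div₀, div_mul_div_comm]
    rw [e1]
    refine Subalgebra.mul_mem _ (Algebra.subset_adjoin (Or.inl ⟨_, hc' b, rfl⟩))
      (Algebra.subset_adjoin (Or.inr ⟨_, he' b, rfl⟩))
  have hP0 : F₀ / (algebraMap C N (cc a) * algebraMap G N (ee a)) ∈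
      Algebra.adjoin κ (S₁ ∪ S₂) := hprod F₀ ⟨n, cc, ee, hcc, hee, hF₀⟩
  have halg : ∀ i, IsAlgebraic (Algebra.adjoin κ (S₁ ∪ S₂)) (f i) := by
    intro i
    refine CntAux.isAlgebraic_of_mul_eq _ (hprod _ (hff i)) hP0 (div_ne_zero hne ha) ?_
    rw [mul_div_assoc]
  obtain ⟨ψ, hψ, hψS⟩ := exists_indep_in_set (S₁ ∪ S₂) f hf halg
  -- the two kinds of indices
  set I₁ : Finset (Fin c) := Finset.univ.filter (fun i => ψ i ∈ S₁) with hI₁
  set I₂ : Finset (Fin c) := Finset.univ.filter (fun i => ¬ ψ i ∈ S₁) with hI₂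
  have hcard : c = I₁.card + I₂.card := by
    have h := Finset.card_filter_add_card_filter_not (s := (Finset.univ : Finset (Fin c)))
      (fun i => ψ i ∈ S₁)
    rw [Finset.card_univ, Fintype.card_fin] at h
    exact h.symm
  have hm1 : ∀ j : Fin I₁.card, ∃ g ∈ Bd M S κ K C s y m,
      algebraMap C N (g / cc a) = ψ (I₁.equivFin.symm j) := by
    intro j
    exact (Finset.mem_filter.1 (I₁.equivFin.symm j).2).2
  have hm2 : ∀ j : Fin I₂.card, ∃ g ∈ WReg k γ m,
      algebraMap G N (g / ee a) = ψ (I₂.equivFin.symm j) := by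
    intro j
    have h1 := (Finset.mem_filter.1 (I₂.equivFin.symm j).2).2
    rcases hψS (I₂.equivFin.symm j) with h2 | h2
    · exact absurd h2 h1
    · exact h2
  choose g₁ hg₁ hg₁' using hm1
  choose g₂ hg₂ hg₂' using hm2
  refine ⟨I₁.card, I₂.card, hcard, ?_, ?_⟩
  · have hind : AlgebraicIndependent κ (fun j => g₁ j / cc a) := by
      have h1 : AlgebraicIndependent κ (fun j : Fin I₁.card => ψ (I₁.equivFin.symm j)) :=
        hψ.comp (fun j : Fin I₁.card => ((I₁.equivFin.symm j : I₁) : Fin c))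
          (fun i j hij => I₁.equivFin.symm.injective (Subtype.ext hij))
      have h2 : (fun j => algebraMap C N (g₁ j / cc a)) =
          fun j : Fin I₁.card => ψ (I₁.equivFin.symm j) := funext hg₁'
      rw [← h2] at h1
      exact (AlgHom.algebraicIndependent_iff (IsScalarTower.toAlgHom κ C N)
        (algebraMap C N).injective).mp h1
    exact upper' hS Ω hy hm (hcc a) hc0 hind fun j => by
      rw [div_mul_cancel₀ _ hc0]
      exact hg₁ j
  · have hind : AlgebraicIndependent k (fun j => g₂ j / ee a) := by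
      have h1 : AlgebraicIndependent κ (fun j : Fin I₂.card => ψ (I₂.equivFin.symm j)) :=
        hψ.comp (fun j : Fin I₂.card => ((I₂.equivFin.symm j : I₂) : Fin c))
          (fun i j hij => I₂.equivFin.symm.injective (Subtype.ext hij))
      have h2 : (fun j => algebraMap G N (g₂ j / ee a)) =
          fun j : Fin I₂.card => ψ (I₂.equivFin.symm j) := funext hg₂'
      rw [← h2] at h1
      have h3 : AlgebraicIndependent k (fun j => algebraMap G N (g₂ j / ee a)) :=
        h1.restrictScalars (algebraMap k κ).injective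
      exact (AlgHom.algebraicIndependent_iff (IsScalarTower.toAlgHom k G N)
        (algebraMap G N).injective).mp h3
    exact KodairaGE.of_coord hγ hm (hee a) he0 hind fun j => by
      rw [div_mul_cancel₀ _ he0]
      exact hg₂ j

end Pf72953.Twr
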