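import Mathlib
import Pool.Agent.Lib.Pf72953f.Kun
import Pool.Agent.Lib.Pf72953u.Main

/-!
MODULE Pf72953t.CoefG: regular forms of `N/C`, `N` the compositum of `C` and the constant field `G`.

PROOF.  (1) As in `Fib.Comp.kunneth` (file Pf72953f/Kun.lean), steps (2)-(4): a chart `A` of `G/k` with coordinates `γ` (`exists_chart`), its base
change `Up.bc C N A` (`Up.Chart.baseChange`, `KunAux.gen`), `f ∈ Up.bc C N A` by `Up.Chart.hartogs` and `hf`
(`jac_self`), `Up.mem_bc`, `exists_rank`: `f = ∑_a c_a e_a`, both families independent over `k`.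
(2) `e_a ∈ WReg k γ m`: let `v` be divisorial on `G/k`, `c₀` a regular basis, `(c₁, t)` adapted, `t` a uniformizer
(`IsDivisorial.exists_adapted`), `c₁ = (t, ξ)` reindexed, `ξ` residually independent over `k`.  `h.symm.exists_gauss hC hz` gives `W` on `N` with `W = v` on
`G`, `W = 1` on `C ∖ 0`, `v (e a) ≤ W f` (third property, `c` independent over `k`, `mul_comm` in the sum), and every value of `W` is a value of `v`.
CLAIM: `ξ` (in `N`) is residually independent over `C` for `W`: let `p ≠ 0` be a polynomial over `C`; choose a basis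
`b` of `C/k` (`Module.Basis.ofVectorSpace`); `p = ∑_g b_g p_g` with `p_g` polynomials over `k` (finitely many nonzero, not all zero), so
`p(ξ) = ∑_g b_g p_g(ξ)`, `W (p(ξ)) ≤ 1`, and `W (p(ξ)) ≥ v (p_g (ξ)) = 1` for some `g` by the third property (enumerate the support by `Fin n` as in
`Fib.CoefsAux.resIndep_sum`).
So the image of `c₁` is adapted to `W` over `C` with the uniformizer `t`, `#ιG = dimension C N` (`Comp.tb`), hence `W` is divisorial over `C` and
`c₁` is a regular basis of `N/C`; `hf` gives `W f * W (jac_C c₁ γ) ^ m ≤ 1`.  `jac_C c₁ γ` is the image of `jac_k c₁ γ` (`Up.jac_base`, Pf72953u/Main.lean, or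
`Up.pd_base`; import Pf72953u.Main if needed).  Hence `v (e a) * v (jac c₁ γ) ^ m ≤ 1`, and
`v (jac c₀ γ) ≤ v (jac c₁ γ)` (`jac_chain`, `RegBasis.jac_le`).
-/

set_option autoImplicit false

open scoped WithZero TensorProduct

namespace Pf72953.Fib

namespace CoefGAux

section

variable {k C G N : Type*} [Field k] [Field C] [Field G] [Field N]
  [Algebra k C] [Algebra k G] [Algebra k N] [Algebra C N] [Algebra G N] [IsScalarTower k C N]
  [IsScalarTower k G N]

theorem algebraMap_aeval_eq {r : ℕ} (x : Fin r → G) (q : MvPolynomial (Fin r) k) :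
    algebraMap G N (MvPolynomial.aeval x q) =
      ∑ d ∈ q.support, algebraMap k N (q.coeff d) * ∏ i, algebraMap G N (x i) ^ d i := by
  rw [MvPolynomial.aeval_eq_eval₂Hom, MvPolynomial.coe_eval₂Hom, MvPolynomial.eval₂_eq', map_sum]
  refine Finset.sum_congr rfl fun d _ => ?_
  rw [map_mul, map_prod, ← IsScalarTower.algebraMap_apply]
  simp only [map_pow]

theorem aeval_split {κ : Type*} (b : Module.Basis κ k C) {r : ℕ} (x : Fin r → G)
    (p : MvPolynomial (Fin r) C) (hp : p ≠ 0) :
    ∃ (S : Finset κ) (q : κ → MvPolynomial (Fin r) k), (∃ g ∈ S, q g ≠ 0) ∧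
      MvPolynomial.aeval (fun i => algebraMap G N (x i)) p =
        ∑ g ∈ S, algebraMap G N (MvPolynomial.aeval x (q g)) * algebraMap C N (b g) := by
  classical
  let S : Finset κ := p.support.biUnion fun d => (b.repr (p.coeff d)).support
  let q : κ → MvPolynomial (Fin r) k := fun g =>
    ∑ d ∈ p.support, MvPolynomial.monomial d (b.repr (p.coeff d) g)
  have hcoeff : ∀ g d, (q g).coeff d = b.repr (p.coeff d) g := by
    intro g d
    simp only [q, MvPolynomial.coeff_sum, MvPolynomial.coeff_monomial]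
    rw [Finset.sum_ite_eq' p.support d]
    split_ifs with h1
    · rfl
    · rw [MvPolynomial.notMem_support_iff.1 h1]
      simp
  have hsup : ∀ g, (q g).support ⊆ p.support := by
    intro g d hd
    rw [MvPolynomial.mem_support_iff, hcoeff] at hd
    rw [MvPolynomial.mem_support_iff]
    intro h0
    rw [h0] at hd
    simp at hd
  refine ⟨S, q, ?_, ?_⟩
  · obtain ⟨d, hd⟩ := MvPolynomial.support_nonempty.2 hp
    have h1 : b.repr (p.coeff d) ≠ 0 := by
      intro h0
      exact (MvPolynomial.mem_support_iff.1 hd) (by simpa using h0)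
    obtain ⟨g, hg⟩ := Finsupp.support_nonempty_iff.2 h1
    refine ⟨g, Finset.mem_biUnion.2 ⟨d, hd, hg⟩, fun h0 => ?_⟩
    have h2 := hcoeff g d
    rw [h0, MvPolynomial.coeff_zero] at h2
    exact (Finsupp.mem_support_iff.1 hg) h2.symm
  · have h1 : ∀ g, algebraMap G N (MvPolynomial.aeval x (q g)) =
        ∑ d ∈ p.support, algebraMap k N (b.repr (p.coeff d) g) *
          ∏ i, algebraMap G N (x i) ^ d i := by
      intro g
      rw [algebraMap_aeval_eq]
      rw [Finset.sum_subset (hsup g) (fun d _ hd => by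
        rw [MvPolynomial.notMem_support_iff.1 hd, map_zero, zero_mul])]
      refine Finset.sum_congr rfl fun d _ => ?_
      rw [hcoeff]
    simp only [h1, Finset.sum_mul]
    rw [Finset.sum_comm, MvPolynomial.aeval_eq_eval₂Hom, MvPolynomial.coe_eval₂Hom,
      MvPolynomial.eval₂_eq']
    refine Finset.sum_congr rfl fun d hd => ?_
    have h2 : algebraMap C N (p.coeff d) =
        ∑ g ∈ S, algebraMap k N (b.repr (p.coeff d) g) * algebraMap C N (b g) := by
      have h3 : p.coeff d = ∑ g ∈ S, b.repr (p.coeff d) g • b g := by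
        conv_lhs => rw [← b.linearCombination_repr (p.coeff d)]
        rw [Finsupp.linearCombination_apply, Finsupp.sum]
        refine Finset.sum_subset ?_ fun g _ hg => ?_
        · intro g hg
          exact Finset.mem_biUnion.2 ⟨d, hd, hg⟩
        · rw [Finsupp.notMem_support_iff.1 hg, zero_smul]
      conv_lhs => rw [h3]
      rw [map_sum]
      refine Finset.sum_congr rfl fun g _ => ?_
      rw [Algebra.smul_def, map_mul, ← IsScalarTower.algebraMap_apply]
    rw [h2, Finset.sum_mul]
    refine Finset.sum_congr rfl fun g _ => ?_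
    ring

theorem resIndep_base {v : Valuation G ℤᵐ⁰} {W : Valuation N ℤᵐ⁰}
    (hWG : ∀ c, W (algebraMap G N c) = v c) (hWC : ∀ e : C, e ≠ 0 → W (algebraMap C N e) = 1)
    (hWlow : ∀ (n : ℕ) (e : Fin n → C), LinearIndependent k e → ∀ (c : Fin n → G) (a : Fin n),
        v (c a) ≤ W (∑ a, algebraMap G N (c a) * algebraMap C N (e a)))
    {r : ℕ} {x : Fin r → G} (hx : ResIndep k v x) :
    ResIndep C W (fun i => algebraMap G N (x i)) := by
  intro p hp
  let b := Module.Basis.ofVectorSpace k C
  obtain ⟨S, q, ⟨g, hg, hq⟩, hpe⟩ := aeval_split (N := N) b x p hp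
  rw [hpe]
  refine le_antisymm ?_ ?_
  · refine Valuation.map_sum_le _ fun j _ => ?_
    rw [map_mul, hWG, hWC _ (b.ne_zero j), mul_one]
    exact hx.aeval_le _
  · let f : Fin S.card ≃ S := S.equivFin.symm
    have hsum : ∑ g ∈ S, algebraMap G N (MvPolynomial.aeval x (q g)) * algebraMap C N (b g) =
        ∑ a : Fin S.card, algebraMap G N (MvPolynomial.aeval x (q (f a))) *
          algebraMap C N (b (f a)) := by
      rw [← Finset.sum_coe_sort]
      exact (Equiv.sum_comp f (fun j : S => algebraMap G N (MvPolynomial.aeval x (q j)) *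
        algebraMap C N (b j))).symm
    rw [hsum]
    have hli : LinearIndependent k (fun a : Fin S.card => b (f a)) :=
      b.linearIndependent.comp (fun a => (f a : _)) (Subtype.val_injective.comp f.injective)
    have h1 := hWlow _ _ hli (fun a => MvPolynomial.aeval x (q (f a))) (f.symm ⟨g, hg⟩)
    refine le_trans ?_ h1
    simp only [Equiv.apply_symm_apply]
    exact (hx _ hq).ge

end

end CoefGAux

theorem Comp.exists_const {k C G N ιG ιC : Type*} [Field k] [CharZero k] [Field C] [CharZero C]
    [Field G] [CharZero G] [Field N] [Algebra k C] [Algebra k G] [Algebra k N] [Algebra C N]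
    [Algebra G N] [IsScalarTower k C N] [IsScalarTower k G N] [Fintype ιG] [DecidableEq ιG]
    [Fintype ιC] [Algebra.EssFiniteType k G] [Algebra.EssFiniteType k N]
    (h : Comp k C G N) (hC : ClosedIn k C) (hG : ClosedIn k G)
    {z : ιC → C} (hz : IsTranscendenceBasis k z) {γ : ιG → G} (hγ : IsTranscendenceBasis k γ)
    {m : ℕ} {f : N} (hf : f ∈ WReg C (fun j => algebraMap G N (γ j)) m) :
    ∃ (n : ℕ) (c : Fin n → C) (e : Fin n → G), LinearIndependent k c ∧ LinearIndependent k e ∧
      (∀ a, e a ∈ WReg k γ m) ∧ f = ∑ a, algebraMap C N (c a) * algebraMap G N (e a) := by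
  classical
  haveI : Algebra.EssFiniteType C N := Algebra.EssFiniteType.of_comp k C N
  have htb : IsTranscendenceBasis C (fun i => algebraMap G N (γ i)) := h.tb hγ
  obtain ⟨A, hA⟩ := exists_chart hγ
  have hch : Up.Chart htb (Up.bc C N A) := hA.baseChange htb (KunAux.gen h)
  have hf2 : f ∈ Up.bc C N A := by
    by_contra hcon
    obtain ⟨v, hv, hreg, -, hlt⟩ := hch.hartogs hcon
    have h1 := hf v hv _ hreg
    rw [jac_self, map_one, one_pow, mul_one] at h1
    exact absurd h1 (not_le.2 hlt)
  obtain ⟨p, -, hp⟩ := Up.mem_bc (Module.Basis.ofVectorSpace k C) hf2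
  obtain ⟨n, c, e, hc, he, ht⟩ := exists_rank
    (∑ g ∈ p.support, (Module.Basis.ofVectorSpace k C g) ⊗ₜ[k] p g)
  have hfe : f = ∑ a, algebraMap C N (c a) * algebraMap G N (e a) := by
    have h1 := congrArg (pmap k C G N) ht
    rw [map_sum, map_sum] at h1
    simp only [pmap_tmul] at h1
    rw [← h1, hp, Finsupp.sum]
  refine ⟨n, c, e, hc, he, fun a => ?_, hfe⟩
  intro v hv c₀ hc₀
  have hcard : Fintype.card ιG = dimension k G := card_eq_of_isTranscendenceBasis hγ
  obtain ⟨c₁, t, ht, hc₁⟩ := hv.exists_adapted (ι := ιG) hcard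
  have hc₁r : RegBasis k v c₁ := hc₁.regBasis hcard ht
  obtain ⟨W, hWG, hWC, hWlow, hWval⟩ := h.symm.exists_gauss hC hz (v := v) hv.const
  have hcardN : Fintype.card ιG = dimension C N := card_eq_of_isTranscendenceBasis htb
  have hu : IsUnif W (algebraMap G N t) := by
    refine ⟨by simpa using ht.ne_zero, by rw [hWG]; exact ht.lt_one, fun a ha => ?_⟩
    obtain ⟨b, hb⟩ := hWval a
    rw [hb] at ha ⊢
    rw [hWG]
    exact ht.le b ha
  have hle1 := hc₁.le_one
  obtain ⟨r, e', x, hx, ht0, ht1, hcx⟩ := hc₁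
  have hres := CoefGAux.resIndep_base (k := k) hWG hWC hWlow hx
  have hr : Fintype.card ιG = r + 1 := by
    rw [Fintype.card_congr e', Fintype.card_option, Fintype.card_fin]
  have hrdim : dimension C N - 1 = r := by omega
  have hadapt : Adapted C W (fun i => algebraMap G N (c₁ i)) (algebraMap G N t) := by
    refine ⟨r, e', fun i => algebraMap G N (x i), hres, by simpa using ht0,
      by rw [hWG]; exact ht1, ?_⟩
    funext i
    have h1 : c₁ i = (fun o : Option (Fin r) => o.elim t x) (e' i) := by rw [hcx]; rfl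
    rw [h1]
    simp only [Function.comp_apply]
    cases e' i with
    | none => simp
    | some j => simp
  have hreg : RegBasis C W (fun i => algebraMap G N (c₁ i)) := hadapt.regBasis hcardN hu
  have hdiv : IsDivisorial C N W := by
    refine ⟨hWC, ⟨algebraMap G N t, hu.ne_zero, hu.lt_one.ne⟩, ?_⟩
    rw [hrdim]
    exact ⟨_, hres⟩
  have h1 := hf W hdiv _ hreg
  rw [Up.jac_base hc₁r.tb hreg.tb γ, hWG] at h1
  have h2 : v (e a) ≤ W f := by
    have h5 := hWlow n c hc e a
    have h6 : (∑ a, algebraMap G N (e a) * algebraMap C N (c a)) = f := by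
      rw [hfe]
      exact Finset.sum_congr rfl fun _ _ => mul_comm _ _
    rwa [h6] at h5
  have h3 : v (e a) * v (jac hc₁r.tb γ) ^ m ≤ 1 := (mul_le_mul' h2 le_rfl).trans h1
  have h4 := hc₀.jac_le c₁ hle1
  rw [jac_chain hc₁r.tb hc₀.tb γ, map_mul]
  refine le_trans (mul_le_mul' le_rfl (pow_le_pow_left' ?_ m)) h3
  exact mul_le_of_le_one_left' h4

end Pf72953.Fib
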