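import Mathlib
import Pool.Agent.Lib.Pf72953u.Pull
import Pool.Agent.Lib.Pf72953f.RelW
import Pool.Agent.Lib.Pf72953t.Defs

/-!
MODULE Pf72953t.RelG: relative forms regular on `E`, in coordinates of a finite extension `N` of `E`.

PROOF of `RelGood.of_WReg`.  Let `W`, `t`, `c`, `hc` be as in the definition; the restriction `v` of `W` to `E` is divisorial over `k`
(`IsDivisorial.restrict`; nontrivial because `N/E` is algebraic: `val_eq_one_of_isIntegral`, as in `Up.WReg.pull`), trivial on `B`, hence
divisorial over `B` (`Mov.IsDivisorial.over` or `Fib.IsDivisorial_over`).  Take `(c₁, t₁)` adapted over `B` with `t₁` a uniformizer; `v t₁ = v t` (both are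
uniformizers).  `Fib.Adapted_rel` for `v`: `(x, c₁)` is adapted over `k`, its image in `N` too (`Adapted.map`), so it is a log basis of
`N/k` (`Adapted.logBasis`; the number of elements is the dimension), and `LogBasis.vol_eq` replaces `c` by it:
`W (jac hc.tb (x, s)) * ∏ W c = W (jac_k (x, c₁) (x, s)) * W t₁` (`Adapted.prod`), and `jac_k (x, c₁) (x, s) = jac_B c₁ s` (over `N`, `Fib.jac_rel`,
`jac_self`).  With `F = f * jac hs z ^ m`: `jac_B c₁ z = jac_B hs z * jac_B c₁ s` (`jac_chain`; all in `N/B`), `jac_B c₁ z` is the image of the same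
jacobian of `E/B` (`jac_algebraMap`), and `hf` gives `v f * v (jac c₁ z) ^ m ≤ 1`.  Multiply by `W t ^ m`.
PROOF of `RelGood.wreg`.  Similar to `Up.WReg.pull`, but directly: `f ∈ WReg B z m` on `E`, so its image is in `WReg B z m` on `N`
(`Up.WReg.pull`), then `Up.WReg.change`.
-/

set_option autoImplicit false
set_option linter.style.haveILetI false

open scoped WithZero
open Pf72953 Pf72953.Var Pf72953.Mov Pf72953.Up

namespace Pf72953.Twr

/-- relative forms `F (ds)^m` of `N/B` which are regular, relative to `B`, at the valuations trivial on `B`, the regularity being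
measured by a uniformizer of `E` -/
def RelGood (k E : Type*) {B N ιB ι : Type*} [Field k] [CharZero k] [Field B] [Field E] [Field N]
    [Algebra k N] [Algebra B N] [Algebra E N] [Fintype ιB] [DecidableEq ιB] [Fintype ι]
    [DecidableEq ι] (x : ιB → B) (s : ι → N) (m : ℕ) : Set N :=
  {F | ∀ w : Valuation N ℤᵐ⁰, IsDivisorial k N w → (∀ b : B, b ≠ 0 → w (algebraMap B N b) = 1) →
    ∀ t : E, IsUnif (w.comap (algebraMap E N)) t →
    ∀ (c : ιB ⊕ ι → N) (hc : LogBasis k w c),
      w F * (w (jac hc.tb (Sum.elim (fun i => algebraMap B N (x i)) s)) * ∏ j, w (c j)) ^ m ≤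
        w (algebraMap E N t) ^ m}

namespace RelGAux

theorem aux1 {R : Type*} [CommMonoid R] (F J U T : R) (m : ℕ) :
    F * J ^ m * (U * T) ^ m = F * (U * J) ^ m * T ^ m := by
  simp only [mul_pow]
  ac_rfl

/-- an adapted system containing a uniformizer is a regular basis (finite transcendence degree) -/
theorem regBasis {B E ι : Type*} [Field B] [CharZero B] [Field E] [Algebra B E] [FinTrdeg B E]
    [Fintype ι] {w : Valuation E ℤᵐ⁰} (hι : Fintype.card ι = dimension B E) {c : ι → E} {t : E}
    (h : Adapted B w c t) (hu : IsUnif w t) : RegBasis B w c := by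
  have htb := isTranscendenceBasis_of_card hι h.algebraicIndependent
  refine ⟨htb, h.le_one, fun i a ha => ?_⟩
  obtain ⟨r, e, x, hx, ht0, ht1, rfl⟩ := h
  set c : ι → E := (fun o : Option (Fin r) => o.elim t x) ∘ e with hcdef
  set K₁ : IntermediateField B E := IntermediateField.adjoin B (Set.range c ∪ {a}) with hK₁
  have hfin : (Set.range c ∪ {a}).Finite := (Set.finite_range c).union (Set.finite_singleton a)
  haveI : Algebra.EssFiniteType B K₁ :=
    IntermediateField.essFiniteType_iff.mpr (IntermediateField.fg_adjoin_of_finite hfin)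
  have hcm : ∀ i, c i ∈ K₁ := fun i =>
    IntermediateField.subset_adjoin B _ (Or.inl ⟨i, rfl⟩)
  have ham : a ∈ K₁ := IntermediateField.subset_adjoin B _ (Or.inr rfl)
  have htm : t ∈ K₁ := by
    have h1 := hcm (e.symm none)
    rw [hcdef] at h1
    simpa using h1
  have hxm : ∀ j, x j ∈ K₁ := fun j => by
    have h1 := hcm (e.symm (some j))
    rw [hcdef] at h1
    simpa using h1
  have hc₁ : Adapted B (w.comap (algebraMap K₁ E))
      ((fun o : Option (Fin r) => o.elim (⟨t, htm⟩ : K₁) (fun j => ⟨x j, hxm j⟩)) ∘ e)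
      (⟨t, htm⟩ : K₁) := by
    refine ⟨r, e, fun j => ⟨x j, hxm j⟩, ?_, ?_, ht1, rfl⟩
    · intro p hp
      rw [Valuation.comap_apply, ← MvPolynomial.aeval_algebraMap_apply]
      exact hx p hp
    · intro h0
      exact ht0 (congrArg Subtype.val h0)
  have hu₁ : IsUnif (w.comap (algebraMap K₁ E)) (⟨t, htm⟩ : K₁) := by
    refine ⟨fun h0 => ht0 (congrArg Subtype.val h0), hu.lt_one, fun b hb => ?_⟩
    exact hu.le _ hb
  have hcomp : ∀ i, c i = algebraMap K₁ E
      (((fun o : Option (Fin r) => o.elim (⟨t, htm⟩ : K₁) (fun j => ⟨x j, hxm j⟩)) ∘ e) i) := by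
    intro i
    rw [hcdef]
    simp only [Function.comp_apply]
    rcases e i with _ | j <;> rfl
  have htb₁ : IsTranscendenceBasis B
      ((fun o : Option (Fin r) => o.elim (⟨t, htm⟩ : K₁) (fun j => ⟨x j, hxm j⟩)) ∘ e) := by
    refine IsTranscendenceBasis.of_comp_algebraMap (A' := E) ?_
    have h1 : (algebraMap K₁ E) ∘
      ((fun o : Option (Fin r) => o.elim (⟨t, htm⟩ : K₁) (fun j => ⟨x j, hxm j⟩)) ∘ e) = c :=
      funext fun i => (hcomp i).symm
    rw [h1]
    exact htb
  have hreg := hc₁.regBasis (card_eq_of_isTranscendenceBasis htb₁) hu₁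
  have h2 := hreg.der i ⟨a, ham⟩ ha
  have h3 := pd_algebraMap (L := E) hreg.tb htb id Function.injective_id (fun i => hcomp i) i
    ⟨a, ham⟩
  change pd htb i a = _ at h3
  rw [h3]
  exact h2

/-- existence of adapted systems (finite transcendence degree) -/
theorem exists_adapted {k K ι : Type*} [Field k] [Field K] [Algebra k K] [FinTrdeg k K]
    {w : Valuation K ℤᵐ⁰} (hw : IsDivisorial k K w) [Fintype ι]
    (hι : Fintype.card ι = dimension k K) : ∃ (c : ι → K) (t : K), IsUnif w t ∧
      Adapted k w c t := by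
  obtain ⟨t, ht⟩ := exists_unif w hw.nontrivial
  obtain ⟨x, hx⟩ := hw.resid
  have hx' : ResIndep k w x := hx
  have hpos : 1 ≤ dimension k K := by
    by_contra h
    have h0 : dimension k K = 0 := by omega
    have h1 : AlgebraicIndependent k
        (fun o : Option (Fin 0) => o.elim t (Fin.elim0 : Fin 0 → K)) := by
      refine ResIndep.algebraicIndependent (w := w) ?_ ht.ne_zero ht.lt_one
      intro p hp
      obtain ⟨c, rfl⟩ : ∃ c, p = MvPolynomial.C c := ⟨_, MvPolynomial.eq_C_of_isEmpty p⟩
      simp only [MvPolynomial.algHom_C]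
      exact hw.const c (by rintro rfl; simp at hp)
    have h2 := h1.lift_cardinalMk_le_trdeg
    rw [← trdeg_eq_dimension, h0] at h2
    simp at h2
  have e : ι ≃ Option (Fin (dimension k K - 1)) := Fintype.equivOfCardEq (by
    rw [hι, Fintype.card_option, Fintype.card_fin]
    omega)
  exact ⟨_, t, ht, _, e, x, hx', ht.ne_zero, ht.lt_one, rfl⟩

theorem pull {B E L ι : Type*} [Field B] [CharZero B] [Field E] [Field L] [Algebra B E]
    [Algebra B L] [Algebra E L] [IsScalarTower B E L] [FiniteDimensional E L]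
    [Fintype ι] [DecidableEq ι]
    {z : ι → E} (hz : IsTranscendenceBasis B z) {m : ℕ} {f : E} (hf : f ∈ WReg B z m) :
    algebraMap E L f ∈ WReg B (fun i => algebraMap E L (z i)) m := by
  intro w hw c hc
  haveI : FinTrdeg B E := FinTrdeg.of_isTranscendenceBasis hz
  haveI : FinTrdeg B L := FinTrdeg.of_isTranscendenceBasis (hz.algebraMap_comp (A := L))
  have hnt : ∃ a : E, a ≠ 0 ∧ w (algebraMap E L a) ≠ 1 := by
    by_contra hcon
    push Not at hcon
    obtain ⟨a, ha0, ha⟩ := hw.nontrivial
    exact ha (val_eq_one_of_isIntegral (B := E) hcon ha0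
      (Algebra.IsIntegral.isIntegral (R := E) a))
  have hv : IsDivisorial B E (w.comap (algebraMap E L)) := hw.restrict hnt
  have hι := card_eq_of_isTranscendenceBasis hz
  obtain ⟨c', t, ht, hc'⟩ := exists_adapted hv hι
  have hreg := regBasis hι hc' ht
  have htb : IsTranscendenceBasis B (fun i => algebraMap E L (c' i)) := hreg.tb.algebraMap_comp
  have h1 := hf _ hv c' hreg
  rw [Valuation.comap_apply, Valuation.comap_apply] at h1
  have h2 : w (jac hc.tb (fun i => algebraMap E L (c' i))) ≤ 1 :=
    hc.jac_le _ fun i => hreg.le_one i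
  rw [jac_chain htb hc.tb, jac_algebraMap hreg.tb htb, map_mul, mul_pow, mul_left_comm]
  exact mul_le_one' (pow_le_one' h2 m) h1

end RelGAux

variable {k B E N ιB ι : Type*} [Field k] [CharZero k] [Field B] [CharZero B] [Field E] [Field N]
  [Algebra k B] [Algebra k E] [Algebra k N] [Algebra B E] [Algebra B N] [Algebra E N]
  [IsScalarTower k B E] [IsScalarTower k B N] [IsScalarTower k E N] [IsScalarTower B E N]
  [Algebra.EssFiniteType k B] [Algebra.EssFiniteType k E] [FiniteDimensional E N]
  [Fintype ιB] [DecidableEq ιB] [Fintype ι] [DecidableEq ι]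

theorem RelGood.of_WReg {x : ιB → B} (hx : IsTranscendenceBasis k x) {z : ι → E}
    (hz : IsTranscendenceBasis B z) {m : ℕ} {f : E} (hf : f ∈ WReg B z m) {s : ι → N}
    (hs : IsTranscendenceBasis B s) :
    algebraMap E N f * jac hs (fun i => algebraMap E N (z i)) ^ m ∈ RelGood k E x s m := by
  intro W hW htriv t ht c hc
  haveI : Algebra.EssFiniteType k N := Algebra.EssFiniteType.comp k E N
  haveI : Algebra.EssFiniteType B E := Algebra.EssFiniteType.of_comp k B E
  have hnt : ∃ a : E, a ≠ 0 ∧ W (algebraMap E N a) ≠ 1 := by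
    by_contra hcon
    push Not at hcon
    obtain ⟨a, ha0, ha⟩ := hW.nontrivial
    exact ha (val_eq_one_of_isIntegral (B := E) hcon ha0
      (Algebra.IsIntegral.isIntegral (R := E) a))
  have hv : IsDivisorial k E (W.comap (algebraMap E N)) := hW.restrict hnt
  have htriv' : ∀ b : B, b ≠ 0 → (W.comap (algebraMap E N)) (algebraMap B E b) = 1 := by
    intro b hb
    rw [Valuation.comap_apply, ← IsScalarTower.algebraMap_apply B E N]
    exact htriv b hb
  have hvB : IsDivisorial B E (W.comap (algebraMap E N)) := Mov.IsDivisorial.over hv htriv'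
  have hι := card_eq_of_isTranscendenceBasis hz
  obtain ⟨c₁, t₁, ht₁, hc₁⟩ := hvB.exists_adapted hι
  have hreg₁ := hc₁.regBasis hι ht₁
  have htt : W (algebraMap E N t₁) = W (algebraMap E N t) :=
    le_antisymm (ht.le t₁ ht₁.lt_one) (ht₁.le t ht.lt_one)
  have hwt : W (algebraMap E N t) ≠ 0 := by
    rw [Valuation.ne_zero_iff]; simpa using ht.ne_zero
  have hckN := (Fib.Adapted_rel (k := k) hx.1 hc₁).map
  have efun : (fun i => algebraMap E N (Sum.elim (fun a => algebraMap B E (x a)) c₁ i)) =
      Sum.elim (fun a => algebraMap B N (x a)) (fun i => algebraMap E N (c₁ i)) := by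
    funext i
    rcases i with i | i
    · simp only [Sum.elim_inl]
      exact (IsScalarTower.algebraMap_apply B E N _).symm
    · simp only [Sum.elim_inr]
  rw [efun] at hckN
  have hlog := hckN.logBasis (card_eq_of_isTranscendenceBasis hc.tb)
  have hc₁N : IsTranscendenceBasis B (fun i => algebraMap E N (c₁ i)) := hreg₁.tb.algebraMap_comp
  have hvol := LogBasis.vol_eq hc hlog (Sum.elim (fun i => algebraMap B N (x i)) s)
  rw [hckN.prod, Fib.jac_rel hx hc₁N hlog.tb x s, jac_self, map_one, one_mul, htt] at hvol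
  rw [hvol]
  have h1 := hf _ hvB c₁ hreg₁
  rw [Valuation.comap_apply, Valuation.comap_apply, ← jac_algebraMap hreg₁.tb hc₁N,
    jac_chain hs hc₁N] at h1
  calc _ = (W (algebraMap E N f) * W (jac hc₁N s * jac hs fun i => algebraMap E N (z i)) ^ m) *
        W (algebraMap E N t) ^ m := by
        rw [map_mul, map_mul, map_pow]
        exact RelGAux.aux1 _ _ _ _ m
    _ ≤ 1 * W (algebraMap E N t) ^ m := by gcongr
    _ = _ := one_mul _

theorem RelGood.wreg {z : ι → E}
    (hz : IsTranscendenceBasis B z) {m : ℕ} {f : E} (hf : f ∈ WReg B z m) {s : ι → N}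
    (hs : IsTranscendenceBasis B s) :
    algebraMap E N f * jac hs (fun i => algebraMap E N (z i)) ^ m ∈ WReg B s m := by
  exact WReg.change hz.algebraMap_comp hs (RelGAux.pull hz hf)

end Pf72953.Twr
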