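import Mathlib
import Pool.Agent.Lib.Pf72953f.Coefs
import Pool.Agent.Lib.Pf72953t.Bd
import Pool.Agent.Lib.Pf72953t.RelG

/-!
MODULE Pf72953t.CoefZ: local bounds for the coefficients of a form on an isotrivial fibration.

Fields: `κ` algebraic over `B`; `Z` the compositum of `B` and `Y`, `K` the compositum of `κ` and `Y`; `C` algebraic over `K`, algebraically closed in
`N`; `N` the compositum of `C` and `G`.
PROOF.  Let `w` be divisorial on `C/κ`, `i` a chart, `hx : RegBasis κ (w|K) (M.x i)`, `hA` as in the definition of `Bd`.  `w` is trivial on `κ`, so on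
`k` and `B`.  `W` := `Comp.exists_gauss hG hγ` for `w` (base `k`; file Pf72953f/Comp.lean or Coefs.lean): `W = w` on `C`, `W = 1` on `G ∖ 0`,
`w (c a) ≤ W F` (third property), every value of `W` is a value of `w`.
Let `(cK, tK)` be adapted over `κ` to the restriction of `w` to `K` (divisorial over `κ`: `IsDivisorial.restrict`; nontrivial since `C/K` is
algebraic), `tK` a uniformizer, `cK` indexed by `Fin (dimension k Y)`; `cK` and `x_i` (in `K`) are both regular bases, so
(1) `w (jac_κ cK x_i) = 1` (`RegBasis.jac_le` twice, `jac_mul_jac`).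
(2) The family `((x, cK), γ)` of `N` is adapted over `k` to `W` with `t := tK`: `Fib.Adapted_rel` (`B := κ`, `x` in `κ` is algebraically
independent over `k`) gives `(x, cK)` adapted over `k` to `w|K`, `Adapted.map` to `w` on `C`; write it as `(tK, ξ)`, `ξ` residually independent
over `k` in `C`; `(ξ, γ)` is residually independent for `W` by `Fib.CoefsAux.resIndep_sum` (over `k`), and reorder as in the proof of
`Fib.Comp.mem_WReg_left` (`CoefsAux.optSum`).  So it is a log basis `c'` of `N/k` (`Adapted.logBasis`; the cardinality is `dimension k N`) with `∏ W c' = w tK`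
(`Adapted.prod`), and `W` is divisorial over `k` (`resid`: `dimension k N - 1` residually independent elements `(ξ, γ)`).
(3) Reindex `c'` by `Equiv.sumAssoc` to `ιB ⊕ (Fin (dimension k Y) ⊕ ιG)`; `hF` at `W` (trivial on `B`), with `t` a uniformizer of `W|E` (exists:
`W|E` is nontrivial since `N/E` is algebraic), gives
`W F * (W (jac c' (x, (y, γ))) * w tK) ^ m ≤ W t ^ m`, and `jac c' (x, (y, γ)) =` image of `jac_k (x, cK) (x, y)` (`jac_sum`, `jac_self`) `= jac_κ cK y`
(`Fib.jac_rel` over `κ`) `= jac_κ x_i y * jac_κ cK x_i` (`jac_chain`), `jac_κ x_i y =` image of `jac (M.tb i) y` (`Up.jac_base`).  With (1):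
(*) `w (c a) * w (jac (M.tb i) y) ^ m * w tK ^ m ≤ W t ^ m`.
(4) Put `σ_j = s j / gen_j ∈ bc κ K (M.A i)` (`hS.sec`), `w σ_j ≤ 1`.  If some `w σ_j < 1`: `w σ_j ≤ w tK`, `W t ≤ 1`, so
`w (c a * jac ^ m) * w σ_j ^ m ≤ 1` by (*), the other factors are `≤ 1`.
If all `w σ_j = 1`: `hout` at `W`, `z :=` the image of `t` in `L`: `W` is divisorial over `k` by (2), trivial on `B`, `IsGauss`: the elements `e a` algebraic
over `Z` are the images of `c a ∈ C` (`hC`), and the third property of `W` applies.  `PrimeAt M B Z i W`: `center` is `hA` (`algebraMap Y K f ∈ bc`,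
`Algebra.subset_adjoin`); `der`: let `d` be a `B`-derivation of `Z` with `W (d x_a) ≤ 1`, `z ∈ Z` with `W z ≤ 1`; by `der_eq_sum (hxZ i)`
`d z = ∑_a (pd (hxZ i) a z) (d x_a)` and the image of `pd (hxZ i) a z` in `K` is `pd hx.tb a (image of z)` by `Up.pd_base`
(`k := B`, `Y := Z`; `Pf72953u/BaseCh.lean`), of value `≤ 1` by `hx.der`.  `W sec_j = W gen_j` (`hsec`).  So there is `r ∈ Z` with `W r < 1`,
`W t ≤ W r`; the image of `r` in `K` has `w < 1`, so `W r ≤ w tK`, and (*) gives `w (c a * jac ^ m) ≤ 1`.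
-/

set_option autoImplicit false
set_option linter.style.haveILetI false

open scoped WithZero
open Pf72953 Pf72953.Var Pf72953.Mov Pf72953.Up Pf72953.Fib

namespace Pf72953.Twr

namespace CoefZAux

section

variable {k C G N ιC ι : Type*} [Field k] [Field C] [Field G] [Field N]
  [Algebra k C] [Algebra k G] [Algebra k N] [Algebra C N] [Algebra G N]

/-- an adapted system with as many elements as the dimension shows that the valuation is divisorial -/
theorem divisorial_of_adapted [Fintype ι] {w : Valuation N ℤᵐ⁰} {c : ι → N} {t : N}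
    (hcard : Fintype.card ι = dimension k N) (h : Adapted k w c t) : IsDivisorial k N w := by
  obtain ⟨r, e, x, hx, ht0, ht1, -⟩ := h
  have h1 : Fintype.card ι = r + 1 := by
    rw [Fintype.card_congr e, Fintype.card_option, Fintype.card_fin]
  have h2 : r = dimension k N - 1 := by omega
  subst h2
  exact ⟨fun b hb => hx.const hb, ⟨t, ht0, ht1.ne⟩, ⟨x, hx⟩⟩

theorem adapted_sum [IsScalarTower k G N] [IsScalarTower k C N] [Fintype ι] {γ : ι → G}
    (hγ : IsTranscendenceBasis k γ)
    {v : Valuation C ℤᵐ⁰} {W : Valuation N ℤᵐ⁰} (hWC : ∀ c, W (algebraMap C N c) = v c)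
    (hWE : ∀ e : G, e ≠ 0 → W (algebraMap G N e) = 1)
    (hWlow : ∀ (n : ℕ) (e : Fin n → G), LinearIndependent k e → ∀ (c : Fin n → C) (a : Fin n),
        v (c a) ≤ W (∑ a, algebraMap C N (c a) * algebraMap G N (e a)))
    {c₁ : ιC → C} {t : C} (hc : Adapted k v c₁ t) :
    Adapted k W (Sum.elim (fun i => algebraMap C N (c₁ i)) (fun j => algebraMap G N (γ j)))
      (algebraMap C N t) := by
  obtain ⟨r, e', x, hx, ht0, ht1, hcx⟩ := hc
  have hres := Fib.CoefsAux.resIndep_sum hγ hWC hWE hWlow hx
  have hcard2 : Fintype.card (Fin r ⊕ ι) = r + Fintype.card ι := by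
    rw [Fintype.card_sum, Fintype.card_fin]
  let f : Fin r ⊕ ι ≃ Fin (r + Fintype.card ι) := Fintype.equivFinOfCardEq hcard2
  let E1 : ιC ⊕ ι ≃ Option (Fin r ⊕ ι) :=
    (Equiv.sumCongr e' (Equiv.refl ι)).trans (Fib.CoefsAux.optSum (Fin r) ι)
  refine ⟨r + Fintype.card ι, E1.trans (Equiv.optionCongr f),
    (Sum.elim (fun i => algebraMap C N (x i)) (fun j => algebraMap G N (γ j))) ∘ f.symm,
    Fib.CoefsAux.resIndep_reindex hres f.symm, by simpa using ht0, by rw [hWC]; exact ht1, ?_⟩
  funext i
  rcases i with i | j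
  · have h1 : c₁ i = (fun o : Option (Fin r) => o.elim t x) (e' i) := by rw [hcx]; rfl
    simp only [Sum.elim_inl, Function.comp_apply, E1, Equiv.trans_apply, Equiv.sumCongr_apply,
      Sum.map_inl]
    rw [h1]
    cases h2 : e' i with
    | none => simp [Fib.CoefsAux.optSum]
    | some k => simp [Fib.CoefsAux.optSum]
  · simp [E1, Fib.CoefsAux.optSum]

theorem logBasis_reindex [CharZero k] {κ : Type*} [Fintype κ] [Fintype ι] {w : Valuation N ℤᵐ⁰}
    {c : ι → N} (hc : LogBasis k w c) (e : κ ≃ ι) : LogBasis k w (c ∘ e) := by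
  refine ⟨(isTranscendenceBasis_equiv e).mpr hc.tb, fun i a => ?_⟩
  have := pd_algebraMap (L := N) ((isTranscendenceBasis_equiv e).mpr hc.tb) hc.tb e e.injective
    (fun _ => rfl) i a
  have h2 : pd ((isTranscendenceBasis_equiv e).mpr hc.tb) i a = pd hc.tb (e i) a := by
    simpa using this.symm
  rw [h2]
  exact hc.der _ a

end

end CoefZAux

variable {k B κ Y Z K C G E L N J ιB ιG : Type*} [Field k] [CharZero k] [IsAlgClosed k] [Field B]
  [CharZero B] [Field κ] [CharZero κ] [Field Y] [Field Z] [Field K] [Field C] [CharZero C]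
  [Field G] [CharZero G] [Field E] [Field L] [Field N]
  [Algebra k B] [Algebra k κ] [Algebra k Y] [Algebra k K] [Algebra k C] [Algebra k G] [Algebra k E]
  [Algebra k N] [Algebra B κ] [Algebra B E] [Algebra B N] [Algebra B K] [Algebra B Z]
  [Algebra κ K] [Algebra κ C] [Algebra κ N] [Algebra Y K] [Algebra Y C] [Algebra Y Z]
  [Algebra Y N] [Algebra Z K] [Algebra Z N] [Algebra K C] [Algebra K N] [Algebra C N]
  [Algebra G N] [Algebra E L] [Algebra E N] [Algebra L N]
  [IsScalarTower k B κ] [IsScalarTower k κ K] [IsScalarTower k κ C] [IsScalarTower k κ N]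
  [IsScalarTower k Y K] [IsScalarTower k Y C] [IsScalarTower k K C]
  [IsScalarTower k C N] [IsScalarTower k G N] [IsScalarTower k B N] [IsScalarTower k Y N]
  [IsScalarTower k E N] [IsScalarTower k B E]
  [IsScalarTower B κ N] [IsScalarTower B E N] [IsScalarTower B κ K] [IsScalarTower B Z K]
  [IsScalarTower κ K C] [IsScalarTower κ K N] [IsScalarTower κ C N] [IsScalarTower Y K C]
  [IsScalarTower Y K N] [IsScalarTower Y C N] [IsScalarTower Y Z K] [IsScalarTower Z K N]
  [IsScalarTower K C N] [IsScalarTower E L N]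
  [Algebra.IsAlgebraic B κ] [FiniteDimensional K C] [FiniteDimensional E N]
  [Algebra.EssFiniteType k B] [Algebra.EssFiniteType k Y] [Algebra.EssFiniteType k G]
  [Algebra.EssFiniteType k E] [Algebra.EssFiniteType k N]
  [Algebra.EssFiniteType κ K] [Algebra.EssFiniteType κ C]
  [Fintype J] [Fintype ιB] [DecidableEq ιB] [Fintype ιG] [DecidableEq ιG] {M : SmoothModel k Y}

theorem coef_mem_Bd (hcomp : Comp k C G N) (hG : ClosedIn k G)
    (D : J → MovingDivisor M B N) {s : J → K}
    (hS : Setup' M (fun j => (D j).S) κ K s)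
    (hsec : ∀ j, algebraMap K N (s j) = (D j).sec)
    (hxZ : ∀ i, IsTranscendenceBasis B (fun a => algebraMap Y Z (M.x i a)))
    (hC : ∀ e : N, IsAlgebraic Z e → ∃ c : C, algebraMap C N c = e)
    (hout : UnramifiedOutsideOn k Z L G D)
    {x : ιB → B} (hx : IsTranscendenceBasis k x) {y : Fin (dimension k Y) → Y}
    (hy : IsTranscendenceBasis k y) {γ : ιG → G} (hγ : IsTranscendenceBasis k γ)
    {m n : ℕ} {c : Fin n → C} {e : Fin n → G} (he : LinearIndependent k e)
    (hF : (∑ a, algebraMap C N (c a) * algebraMap G N (e a)) ∈ RelGood k E x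
      (Sum.elim (fun j => algebraMap Y N (y j)) (fun l => algebraMap G N (γ l))) m)
    (a : Fin n) : c a ∈ Bd M (fun j => (D j).S) κ K C s y m := by
  classical
  intro w hw i hx' hA
  set u : Valuation K ℤᵐ⁰ := w.comap (algebraMap K C) with hu
  have huw : ∀ z : K, w (algebraMap K C z) = u z := fun _ => rfl
  have hwk : ∀ b : k, b ≠ 0 → w (algebraMap k C b) = 1 := fun b hb => by
    rw [IsScalarTower.algebraMap_apply k κ C]
    exact hw.const _ (by simpa using hb)
  obtain ⟨W, hWC, hWG, hWlow, hWval⟩ := hcomp.exists_gauss hG hγ (v := w) hwk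
  have hWK : ∀ z : K, W (algebraMap K N z) = u z := fun z => by
    rw [IsScalarTower.algebraMap_apply K C N, hWC, huw]
  have hWκ : ∀ b : κ, b ≠ 0 → W (algebraMap κ N b) = 1 := fun b hb => by
    rw [IsScalarTower.algebraMap_apply κ C N, hWC]
    exact hw.const b hb
  have hWB : ∀ b : B, b ≠ 0 → W (algebraMap B N b) = 1 := fun b hb => by
    rw [IsScalarTower.algebraMap_apply B κ N]
    exact hWκ _ (by simpa using hb)
  have hYN : ∀ z : Y, algebraMap Y N z = algebraMap K N (algebraMap Y K z) := fun z =>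
    IsScalarTower.algebraMap_apply Y K N z
  have hWY : ∀ z : Y, W (algebraMap Y N z) = u (algebraMap Y K z) := fun z => by
    rw [hYN, hWK]
  -- the restriction of `w` to `K`
  have hnt : ∃ a : K, a ≠ 0 ∧ w (algebraMap K C a) ≠ 1 := by
    obtain ⟨a, ha0, ha1⟩ := hw.nontrivial
    by_contra hcon
    push Not at hcon
    exact ha1 (val_eq_one_of_isIntegral (B := K) hcon ha0 (Algebra.IsIntegral.isIntegral a))
  have hudiv : IsDivisorial κ K u := hw.restrict hnt
  have hcardd : Fintype.card (Fin (dimension k Y)) = dimension κ K :=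
    card_eq_of_isTranscendenceBasis hx'.tb
  obtain ⟨cK, tK, htK, hcK⟩ := hudiv.exists_adapted (ι := Fin (dimension k Y)) hcardd
  have hcKreg : RegBasis κ u cK := hcK.regBasis hcardd htK
  have hjac1 : u (jac hcKreg.tb (fun a => algebraMap Y K (M.x i a))) = 1 := by
    have h1 := hcKreg.jac_le _ hx'.le_one
    have h2 := hx'.jac_le cK hcK.le_one
    have h3 := congrArg u (jac_mul_jac hx'.tb hcKreg.tb)
    rw [map_mul, map_one] at h3
    refine le_antisymm h1 ?_
    rw [← h3]
    exact mul_le_of_le_one_right' h2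
  -- adapted systems over `k`
  have hxκ : IsTranscendenceBasis k (fun a => algebraMap B κ (x a)) := hx.algebraMap_comp
  have hK1 := Fib.Adapted_rel (k := k) hxκ.1 hcK
  have hC1 := Adapted.map (L := C) hK1
  have hN1 := CoefZAux.adapted_sum hγ hWC hWG hWlow hC1
  have htbK := Fib.tb_rel hxκ hcKreg.tb
  have htbC : IsTranscendenceBasis k (fun i => algebraMap K C
      (Sum.elim (fun a => algebraMap κ K (algebraMap B κ (x a))) cK i)) := htbK.algebraMap_comp
  have htbN := hcomp.tbSum htbC hγ
  have hcardN : Fintype.card ((ιB ⊕ Fin (dimension k Y)) ⊕ ιG) = dimension k N :=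
    card_eq_of_isTranscendenceBasis htbN
  have hWdiv : IsDivisorial k N W := CoefZAux.divisorial_of_adapted hcardN hN1
  have hlog := hN1.logBasis hcardN
  have hlog' := CoefZAux.logBasis_reindex hlog (Equiv.sumAssoc ιB (Fin (dimension k Y)) ιG).symm
  -- a uniformizer of `E`
  have hntE : ∃ a : E, a ≠ 0 ∧ (W.comap (algebraMap E N)) a ≠ 1 := by
    obtain ⟨a, ha0, ha1⟩ := hWdiv.nontrivial
    by_contra hcon
    push Not at hcon
    exact ha1 (val_eq_one_of_isIntegral (B := E) (w := W) (fun b hb => hcon b hb) ha0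
      (Algebra.IsIntegral.isIntegral a))
  obtain ⟨t, ht⟩ := exists_unif (W.comap (algebraMap E N)) hntE
  have hF1 := hF W hWdiv hWB t ht _ hlog'
  have hprod : ∏ j, W ((Sum.elim (fun i => algebraMap C N (algebraMap K C
      (Sum.elim (fun a => algebraMap κ K (algebraMap B κ (x a))) cK i)))
      (fun j => algebraMap G N (γ j)) ∘
        (Equiv.sumAssoc ιB (Fin (dimension k Y)) ιG).symm) j) = u tK := by
    have h1 := hN1.prod
    rw [hWC, huw] at h1
    rw [← h1]
    exact Equiv.prod_comp (Equiv.sumAssoc ιB (Fin (dimension k Y)) ιG).symm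
      (fun j => W (Sum.elim (fun i => algebraMap C N (algebraMap K C
      (Sum.elim (fun a => algebraMap κ K (algebraMap B κ (x a))) cK i)))
      (fun j => algebraMap G N (γ j)) j))
  have hjacW : W (jac hlog'.tb (Sum.elim (fun i => algebraMap B N (x i))
      (Sum.elim (fun j => algebraMap Y N (y j)) (fun l => algebraMap G N (γ l))))) =
      u (algebraMap Y K (jac (M.tb i) y)) := by
    have e1 : (Sum.elim (fun i => algebraMap B N (x i))
      (Sum.elim (fun j => algebraMap Y N (y j)) (fun l => algebraMap G N (γ l)))) =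
      (Sum.elim (fun i => algebraMap C N ((fun i => algebraMap K C
        (Sum.elim (fun a => algebraMap κ K (algebraMap B κ (x a)))
          (fun j => algebraMap Y K (y j)) i)) i)) (fun l => algebraMap G N (γ l))) ∘
        (Equiv.sumAssoc ιB (Fin (dimension k Y)) ιG).symm := by
      funext a
      rcases a with a | a | a
      · simp only [Sum.elim_inl, Function.comp_apply, Equiv.sumAssoc_symm_apply_inl]
        rw [IsScalarTower.algebraMap_apply B κ N, IsScalarTower.algebraMap_apply κ K N,
          IsScalarTower.algebraMap_apply K C N]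
      · simp only [Sum.elim_inr, Sum.elim_inl, Function.comp_apply,
          Equiv.sumAssoc_symm_apply_inr_inl]
        rw [hYN, IsScalarTower.algebraMap_apply K C N]
      · simp only [Sum.elim_inr, Function.comp_apply, Equiv.sumAssoc_symm_apply_inr_inr]
    rw [e1, jac_reindex _ hlog.tb hlog'.tb, jac_sum htbC hγ hlog.tb, jac_self, map_one, mul_one,
      jac_algebraMap htbK htbC, Fib.jac_rel hxκ hcKreg.tb htbK, jac_self, map_one, one_mul,
      jac_chain hx'.tb hcKreg.tb, jac_base (M.tb i) hx'.tb y, hWC, huw, map_mul, hjac1, one_mul]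
  rw [hprod, hjacW] at hF1
  have hF2 : w (c a) * (u (algebraMap Y K (jac (M.tb i) y)) * u tK) ^ m ≤
      W (algebraMap E N t) ^ m := le_trans (mul_le_mul' (hWlow n e he c a) le_rfl) hF1
  -- the local equations
  choose σ hσ hσs using fun j => hS.sec i j
  have hgenK : ∀ j, algebraMap Y K ((D j).S.gen i) ≠ 0 := fun j => by
    simpa using (D j).S.ne i
  have hfac : ∀ j, algebraMap K C (s j) / algebraMap Y C ((D j).S.gen i) =
      algebraMap K C (σ j) := by
    intro j
    rw [hσs j, map_mul, ← IsScalarTower.algebraMap_apply Y K C, mul_div_assoc, div_self, mul_one]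
    simpa using (D j).S.ne i
  have hσle : ∀ j, u (σ j) ≤ 1 := fun j => hA _ (hσ j)
  have hgoal : w (c a * algebraMap Y C (jac (M.tb i) y) ^ m *
      ∏ j, (algebraMap K C (s j) / algebraMap Y C ((D j).S.gen i)) ^ m) =
      w (c a) * u (algebraMap Y K (jac (M.tb i) y)) ^ m * ∏ j, u (σ j) ^ m := by
    rw [map_mul, map_mul, map_pow, map_prod, IsScalarTower.algebraMap_apply Y K C, huw]
    congr 1
    refine Finset.prod_congr rfl fun j _ => ?_
    rw [hfac j, map_pow, huw]
  change w (c a * algebraMap Y C (jac (M.tb i) y) ^ m *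
      ∏ j, (algebraMap K C (s j) / algebraMap Y C ((D j).S.gen i)) ^ m) ≤ 1
  rw [hgoal]
  have htK0 : 0 < u tK := zero_lt_iff.mpr ((Valuation.ne_zero_iff u).mpr htK.ne_zero)
  by_cases hcase : ∀ j, u (σ j) = 1
  · -- unramified case
    have hgauss : IsGauss k Z G W := by
      intro n' e' g' he' hg' a'
      choose c' hc' using fun b => hC (e' b) (he' b)
      have h1 := hWlow n' g' hg' c' a'
      rw [← hc' a', hWC]
      refine h1.trans (le_of_eq ?_)
      congr 1
      refine Finset.sum_congr rfl fun b _ => ?_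
      rw [hc' b]
    have hWZ : ∀ z : Z, W (algebraMap Z N z) = u (algebraMap Z K z) := fun z => by
      rw [IsScalarTower.algebraMap_apply Z K N, hWK]
    have hprime : Br.PrimeAt M B Z i W := by
      refine ⟨fun f hf => ?_, fun d hd z hz => ?_⟩
      · rw [hWY]
        exact hA _ (Algebra.subset_adjoin ⟨f, hf, rfl⟩)
      · rw [hWZ, der_eq_sum (hxZ i) d z, map_sum]
        refine Valuation.map_sum_le _ fun b _ => ?_
        rw [map_mul, map_mul]
        refine mul_le_one' ?_ ?_
        · have hxK' : IsTranscendenceBasis κ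
              (fun a => algebraMap Z K (algebraMap Y Z (M.x i a))) := by
            have h1 := hx'.tb
            simp only [IsScalarTower.algebraMap_apply Y Z K] at h1
            exact h1
          have h2 := pd_base (hxZ i) hxK' b z
          rw [← h2]
          have h3 : ∀ (z' z'' : Fin (dimension k Y) → K) (hz1 : IsTranscendenceBasis κ z')
              (hz2 : IsTranscendenceBasis κ z''), z' = z'' → ∀ b a, pd hz1 b a = pd hz2 b a := by
            rintro z' z'' hz1 hz2 rfl b a
            rfl
          rw [h3 _ _ hxK' hx'.tb (by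
            funext a
            rw [← IsScalarTower.algebraMap_apply Y Z K]) b]
          refine hx'.der b _ ?_
          rw [hWZ] at hz
          exact hz
        · have := hd b
          rwa [hWZ] at this
    have hsecW : ∀ j, W (D j).sec = W (algebraMap Y N ((D j).S.gen i)) := by
      intro j
      rw [← hsec j, hWK, hWY, hσs j, map_mul, hcase j, one_mul]
    obtain ⟨r, hr1, hr2⟩ := hout W hWdiv hWB hgauss i hprime hsecW (algebraMap E L t) (by
      rw [← IsScalarTower.algebraMap_apply E L N]
      exact ht.lt_one)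
    rw [← IsScalarTower.algebraMap_apply E L N] at hr2
    rw [hWZ] at hr1 hr2
    have h5 : W (algebraMap E N t) ≤ u tK := hr2.trans (htK.le _ hr1)
    have h6 : w (c a) * (u (algebraMap Y K (jac (M.tb i) y)) * u tK) ^ m ≤ u tK ^ m :=
      hF2.trans (pow_le_pow_left' h5 m)
    rw [mul_pow, ← mul_assoc] at h6
    have h7 : w (c a) * u (algebraMap Y K (jac (M.tb i) y)) ^ m ≤ 1 := by
      by_contra hcon
      rw [not_le] at hcon
      have h8 : (0 : ℤᵐ⁰) < u tK ^ m := pow_pos htK0 m
      have h9 : u tK ^ m < w (c a) * u (algebraMap Y K (jac (M.tb i) y)) ^ m * u tK ^ m :=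
        lt_mul_of_one_lt_left h8 hcon
      exact absurd h6 (not_le.mpr h9)
    refine mul_le_one' h7 (Finset.prod_le_one' fun j _ => ?_)
    rw [hcase j, one_pow]
  · push Not at hcase
    obtain ⟨j₀, hj₀⟩ := hcase
    have h1 : u (σ j₀) ≤ u tK := htK.le _ (lt_of_le_of_ne (hσle j₀) hj₀)
    rw [← Finset.mul_prod_erase Finset.univ _ (Finset.mem_univ j₀), ← mul_assoc]
    refine mul_le_one' ?_ (Finset.prod_le_one' fun j _ => pow_le_one' (hσle j) m)
    have h2 : W (algebraMap E N t) ^ m ≤ 1 := pow_le_one' ht.lt_one.le m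
    refine le_trans ?_ (hF2.trans h2)
    rw [mul_pow, ← mul_assoc]
    exact mul_le_mul' le_rfl (pow_le_pow_left' h1 m)

end Pf72953.Twr
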