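import Mathlib
import Pool.Agent.Lib.Pf72953.Core

/-!
MODULE Pf72953t.FinCl: the algebraic closure of `K` in a finitely generated extension `N` is finite over `K`.

PROOF.  Let `g : Fin r → N` be a transcendence basis of `N/K` (`exists_tb K N`), `R = IntermediateField.adjoin K (Set.range g)`.  `N/R` is
algebraic and essentially of finite type (`Algebra.EssFiniteType.of_comp`), so `N` is finite over `R`
(`Algebra.finite_of_essFiniteType_of_isAlgebraic`).
`g` is algebraically independent over `C` (`AlgebraicIndependent.extendScalars`, `C/K` is algebraic).
CLAIM: elements `b₁, …, b_n` of `C` which are linearly independent over `K` are linearly independent over `R` in `N`.  Let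
`∑ ρ_i b_i = 0` with `ρ_i ∈ R`; every element of `R` is a quotient of two elements of `Algebra.adjoin K (Set.range g)` (`IntermediateField.mem_adjoin_iff_div` or
`IntermediateField.mem_adjoin_range_iff`), so after multiplication by the product of the denominators `ρ_i = aeval g p_i`,
`p_i : MvPolynomial (Fin r) K`.  The polynomial `∑ C (b_i) * map (algebraMap K C) p_i` over `C` vanishes at `g`, so it is `0`; its
coefficient at a monomial `μ` is `∑ (coeff μ p_i) • b_i`, so all `coeff μ p_i = 0`, `p_i = 0`.
So `Module.finrank`: a basis of `C/K` has at most `[N : R]` elements (`LinearIndependent.finite..`, e.g.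
`LinearIndependent.linearIndepOn..`; `FiniteDimensional.of_finite_basis`, or `Module.rank_lt_aleph0`).
-/

set_option autoImplicit false

namespace Pf72953.Twr

open IntermediateField.algebraAdjoinAdjoin in
theorem finite_of_algebraic {K C N : Type*} [Field K] [Field C] [Field N] [Algebra K C]
    [Algebra C N] [Algebra K N] [IsScalarTower K C N] [Algebra.EssFiniteType K N]
    [Algebra.IsAlgebraic K C] : FiniteDimensional K C := by
  classical
  obtain ⟨g, hg⟩ := exists_tb K N
  have hgK : AlgebraicIndependent K g := hg.1
  have hgC : AlgebraicIndependent C g := hgK.extendScalars C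
  have halg : Algebra.IsAlgebraic (IntermediateField.adjoin K (Set.range g)) N :=
    hg.isAlgebraic_field
  have hess : Algebra.EssFiniteType (IntermediateField.adjoin K (Set.range g)) N :=
    Algebra.EssFiniteType.of_comp K _ N
  have hfin : Module.Finite (IntermediateField.adjoin K (Set.range g)) N :=
    Algebra.finite_of_essFiniteType_of_isAlgebraic
  let b := Module.Basis.ofVectorSpace K C
  have hA : LinearIndependent (Algebra.adjoin K (Set.range g))
      (fun i => algebraMap C N (b i)) := by
    rw [linearIndependent_iff']
    intro s c hc
    have hp : ∀ i, ∃ p : MvPolynomial (Fin (dimension K N)) K,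
        MvPolynomial.aeval g p = (c i : N) := by
      intro i
      have h1 : (c i : N) ∈ (MvPolynomial.aeval (R := K) g).range := by
        rw [← Algebra.adjoin_range_eq_range_aeval]
        exact (c i).2
      exact h1
    choose p hp using hp
    have hP : (∑ i ∈ s, MvPolynomial.C (b i) * MvPolynomial.map (algebraMap K C) (p i)) =
        (0 : MvPolynomial (Fin (dimension K N)) C) := by
      apply (injective_iff_map_eq_zero _).1 hgC
      rw [map_sum, ← hc]
      refine Finset.sum_congr rfl fun i _ => ?_
      rw [map_mul, MvPolynomial.aeval_C, MvPolynomial.aeval_map_algebraMap, hp,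
        Algebra.smul_def, mul_comm]
      rfl
    have hb := b.linearIndependent
    rw [linearIndependent_iff'] at hb
    have hz : ∀ i ∈ s, p i = 0 := by
      intro i hi
      ext μ
      have h2 := congrArg (MvPolynomial.coeff μ) hP
      rw [MvPolynomial.coeff_sum, MvPolynomial.coeff_zero] at h2
      have h3 : ∑ i ∈ s, (MvPolynomial.coeff μ (p i)) • b i = 0 := by
        rw [← h2]
        refine Finset.sum_congr rfl fun i _ => ?_
        rw [MvPolynomial.coeff_C_mul, MvPolynomial.coeff_map, Algebra.smul_def, mul_comm]
      simpa using hb s (fun i => MvPolynomial.coeff μ (p i)) h3 i hi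
    intro i hi
    apply Subtype.ext
    rw [← hp i, hz i hi, map_zero]
    rfl
  have hR : LinearIndependent (IntermediateField.adjoin K (Set.range g))
      (fun i => algebraMap C N (b i)) :=
    (LinearIndependent.iff_fractionRing (Algebra.adjoin K (Set.range g))
      (IntermediateField.adjoin K (Set.range g))).1 hA
  have := hR.finite_of_isNoetherian
  exact Module.Finite.of_basis b

end Pf72953.Twr
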