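import Mathlib
import Pool.Agent.Lib.Pf72953u.Inst
import Pool.Agent.Lib.Pf72953f.Main
import Pool.Agent.Lib.Pf72953t.Ind
import Pool.Agent.Lib.Pf72953t.IndZ
import Pool.Agent.Lib.Pf72953t.FinCl
import Pool.Agent.Lib.Pf72953t.Cnt
import Pool.Agent.Lib.Pf72953t.CoefG
import Pool.Agent.Lib.Pf72953t.CoefZ
import Pool.Agent.Lib.Pf72953t.RelG

/-!
Isotrivial fibre spaces over a constant variety: the upper bound for the Kodaira dimension of the generic fibre.
-/

set_option autoImplicit false
set_option linter.style.haveILetI false

open scoped WithZero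
open Pf72953 Pf72953.Var Pf72953.Mov Pf72953.Up Pf72953.Fib

namespace Pf72953.Twr

theorem closedIn_of_isAlgClosed (k K : Type*) [Field k] [IsAlgClosed k] [Field K] [Algebra k K] :
    ClosedIn k K := by
  intro a ha
  have h1 := IsAlgClosed.degree_eq_one_of_irreducible k (minpoly.irreducible ha.isIntegral)
  obtain ⟨b, hb⟩ := minpoly.mem_range_of_degree_eq_one k a h1
  exact ⟨b, hb⟩

theorem dimension_eq_of_algebraic {k K L : Type*} [Field k] [Field K] [Field L] [Algebra k K]
    [Algebra k L] [Algebra K L] [IsScalarTower k K L] [Algebra.EssFiniteType k K]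
    [Algebra.IsAlgebraic K L] : dimension k L = dimension k K := by
  obtain ⟨x, hx⟩ := exists_tb k K
  have h1 : IsTranscendenceBasis k (algebraMap K L ∘ x) := hx.algebraMap_comp
  have h2 := card_eq_of_isTranscendenceBasis h1
  rw [Fintype.card_fin] at h2
  exact h2.symm

variable {k B Y Z G E L N J : Type*} [Field k] [CharZero k] [IsAlgClosed k] [Field B] [Field Y]
  [Field Z] [Field G] [Field E] [Field L] [Field N]
  [Algebra k B] [Algebra k Y] [Algebra k Z] [Algebra k G] [Algebra k E] [Algebra k N]
  [Algebra B Z] [Algebra B E] [Algebra B N] [Algebra Y Z] [Algebra Y N] [Algebra Z N]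
  [Algebra G N] [Algebra E L] [Algebra E N] [Algebra L N]
  [IsScalarTower k B Z] [IsScalarTower k Y Z] [IsScalarTower k Z N] [IsScalarTower k B N]
  [IsScalarTower k Y N] [IsScalarTower k G N] [IsScalarTower k B E] [IsScalarTower k E N]
  [IsScalarTower B Z N] [IsScalarTower Y Z N] [IsScalarTower B E N] [IsScalarTower E L N]
  [FiniteDimensional E N] [Algebra.EssFiniteType k B] [Algebra.EssFiniteType k Y]
  [Algebra.EssFiniteType k G] [Algebra.EssFiniteType k E] [Fintype J] {M : SmoothModel k Y}

theorem upper_aux (hcomp : IsCompositum k B Y Z)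
    (hdim : dimension k B + dimension k Y + dimension k G = dimension k E)
    (halg : ∀ a : N, IsAlgebraic (Algebra.adjoin k (Set.range (algebraMap B N) ∪
      Set.range (algebraMap Y N) ∪ Set.range (algebraMap G N))) a)
    (hiso : Isotrivial k Z G N) (D : J → MovingDivisor M B N)
    (hout : UnramifiedOutsideOn k Z L G D) {c : ℕ} (hc : KodairaGE B E c)
    (κ K C Ω : Type*) [Field κ] [Field K] [Field C] [Field Ω]
    [Algebra B κ] [Algebra κ N] [IsScalarTower B κ N] [Algebra.IsAlgebraic B κ]
    [Algebra κ K] [Algebra K N] [IsScalarTower κ K N] [Algebra Y K] [IsScalarTower Y K N]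
    [Algebra Z K] [IsScalarTower Z K N] [Algebra K C] [Algebra C N] [IsScalarTower K C N]
    [Algebra K Ω] [Algebra C Ω] [IsScalarTower K C Ω]
    (hΩn : Algebra.IsAlgebraic K C → Normal K Ω)
    (hΩ : FiniteDimensional K C → FiniteDimensional K Ω)
    (hκ : ∀ z : N, IsAlgebraic B z → ∃ a : κ, algebraMap κ N a = z)
    (hgen : ∀ z : K, z ∈ IntermediateField.adjoin κ (Set.range (algebraMap Y K)))
    (hCalg : ∀ a : C, IsAlgebraic Z (algebraMap C N a))
    (hC : ∀ e : N, IsAlgebraic Z e → ∃ a : C, algebraMap C N a = e) :
    ∃ c₁ c₂ : ℕ, c = c₁ + c₂ ∧ LogKodairaGE M (fun j => (D j).S) c₁ ∧ KodairaGE k G c₂ := by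
  classical
  -- the scalar towers
  letI : Algebra k κ := ((algebraMap B κ).comp (algebraMap k B)).toAlgebra
  haveI : IsScalarTower k B κ := IsScalarTower.of_algebraMap_eq fun _ => rfl
  haveI : IsScalarTower k κ N := IsScalarTower.of_algebraMap_eq fun c => by
    rw [IsScalarTower.algebraMap_apply k B N, IsScalarTower.algebraMap_apply B κ N]
    rfl
  letI : Algebra k K := ((algebraMap κ K).comp (algebraMap k κ)).toAlgebra
  haveI : IsScalarTower k κ K := IsScalarTower.of_algebraMap_eq fun _ => rfl
  haveI : IsScalarTower k K N := IsScalarTower.of_algebraMap_eq fun c => by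
    rw [IsScalarTower.algebraMap_apply k κ N, IsScalarTower.algebraMap_apply κ K N]
    rfl
  haveI : IsScalarTower k Y K := IsScalarTower.of_algebraMap_eq fun c =>
    (algebraMap K N).injective (by
      rw [← IsScalarTower.algebraMap_apply k K N, ← IsScalarTower.algebraMap_apply Y K N,
        ← IsScalarTower.algebraMap_apply k Y N])
  haveI : IsScalarTower k Z K := IsScalarTower.of_algebraMap_eq fun c =>
    (algebraMap K N).injective (by
      rw [← IsScalarTower.algebraMap_apply k K N, ← IsScalarTower.algebraMap_apply Z K N,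
        ← IsScalarTower.algebraMap_apply k Z N])
  haveI : IsScalarTower Y Z K := IsScalarTower.of_algebraMap_eq fun c =>
    (algebraMap K N).injective (by
      rw [← IsScalarTower.algebraMap_apply Y K N, ← IsScalarTower.algebraMap_apply Z K N,
        ← IsScalarTower.algebraMap_apply Y Z N])
  letI : Algebra B K := ((algebraMap κ K).comp (algebraMap B κ)).toAlgebra
  haveI : IsScalarTower B κ K := IsScalarTower.of_algebraMap_eq fun _ => rfl
  haveI : IsScalarTower B K N := IsScalarTower.of_algebraMap_eq fun c => by
    rw [IsScalarTower.algebraMap_apply B κ N, IsScalarTower.algebraMap_apply κ K N]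
    rfl
  haveI : IsScalarTower B Z K := IsScalarTower.of_algebraMap_eq fun c =>
    (algebraMap K N).injective (by
      rw [← IsScalarTower.algebraMap_apply B K N, ← IsScalarTower.algebraMap_apply Z K N,
        ← IsScalarTower.algebraMap_apply B Z N])
  letI : Algebra k C := ((algebraMap K C).comp (algebraMap k K)).toAlgebra
  haveI : IsScalarTower k K C := IsScalarTower.of_algebraMap_eq fun _ => rfl
  haveI : IsScalarTower k C N := IsScalarTower.of_algebraMap_eq fun c => by
    rw [IsScalarTower.algebraMap_apply k K N, IsScalarTower.algebraMap_apply K C N]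
    rfl
  letI : Algebra κ C := ((algebraMap K C).comp (algebraMap κ K)).toAlgebra
  haveI : IsScalarTower κ K C := IsScalarTower.of_algebraMap_eq fun _ => rfl
  haveI : IsScalarTower κ C N := IsScalarTower.of_algebraMap_eq fun c => by
    rw [IsScalarTower.algebraMap_apply κ K N, IsScalarTower.algebraMap_apply K C N]
    rfl
  haveI : IsScalarTower k κ C := IsScalarTower.of_algebraMap_eq fun c => by
    rw [IsScalarTower.algebraMap_apply k K C, IsScalarTower.algebraMap_apply k κ K]
    rfl
  letI : Algebra Y C := ((algebraMap K C).comp (algebraMap Y K)).toAlgebra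
  haveI : IsScalarTower Y K C := IsScalarTower.of_algebraMap_eq fun _ => rfl
  haveI : IsScalarTower Y C N := IsScalarTower.of_algebraMap_eq fun c => by
    rw [IsScalarTower.algebraMap_apply Y K N, IsScalarTower.algebraMap_apply K C N]
    rfl
  haveI : IsScalarTower k Y C := IsScalarTower.of_algebraMap_eq fun c => by
    rw [IsScalarTower.algebraMap_apply k K C, IsScalarTower.algebraMap_apply k Y K]
    rfl
  letI : Algebra Z C := ((algebraMap K C).comp (algebraMap Z K)).toAlgebra
  haveI : IsScalarTower Z K C := IsScalarTower.of_algebraMap_eq fun _ => rfl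
  haveI : IsScalarTower Z C N := IsScalarTower.of_algebraMap_eq fun c => by
    rw [IsScalarTower.algebraMap_apply Z K N, IsScalarTower.algebraMap_apply K C N]
    rfl
  haveI : IsScalarTower k Z C := IsScalarTower.of_algebraMap_eq fun c => by
    rw [IsScalarTower.algebraMap_apply k K C, IsScalarTower.algebraMap_apply k Z K]
    rfl
  letI : Algebra B C := ((algebraMap K C).comp (algebraMap B K)).toAlgebra
  haveI : IsScalarTower B K C := IsScalarTower.of_algebraMap_eq fun _ => rfl
  haveI : IsScalarTower B C N := IsScalarTower.of_algebraMap_eq fun c => by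
    rw [IsScalarTower.algebraMap_apply B K N, IsScalarTower.algebraMap_apply K C N]
    rfl
  haveI : IsScalarTower B Z C := IsScalarTower.of_algebraMap_eq fun c => by
    rw [IsScalarTower.algebraMap_apply B K C, IsScalarTower.algebraMap_apply Z K C,
      ← IsScalarTower.algebraMap_apply B Z K]
  letI : Algebra κ Ω := ((algebraMap K Ω).comp (algebraMap κ K)).toAlgebra
  haveI : IsScalarTower κ K Ω := IsScalarTower.of_algebraMap_eq fun _ => rfl
  -- characteristic zero
  haveI : CharZero B := charZero_of_injective_algebraMap (algebraMap k B).injective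
  haveI : CharZero κ := charZero_of_injective_algebraMap (algebraMap B κ).injective
  haveI : CharZero K := charZero_of_injective_algebraMap (algebraMap κ K).injective
  haveI : CharZero C := charZero_of_injective_algebraMap (algebraMap K C).injective
  haveI : CharZero G := charZero_of_injective_algebraMap (algebraMap k G).injective
  -- finite generation
  haveI : Algebra.EssFiniteType k N := Algebra.EssFiniteType.comp k E N
  haveI : Algebra.EssFiniteType B E := Algebra.EssFiniteType.of_comp k B E
  haveI : Algebra.EssFiniteType B N := Algebra.EssFiniteType.of_comp k B N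
  haveI : Algebra.EssFiniteType κ K := essFiniteType_of_gen (k := k) (Y := Y) hgen
  have hgenB : ∀ z : Z, z ∈ IntermediateField.adjoin B (Set.range (algebraMap Y Z)) := by
    intro z
    have h1 : IntermediateField.adjoin k
        (Set.range (algebraMap B Z) ∪ Set.range (algebraMap Y Z)) ≤
        (IntermediateField.adjoin B (Set.range (algebraMap Y Z))).restrictScalars k := by
      rw [IntermediateField.adjoin_le_iff]
      rintro _ (⟨b, rfl⟩ | ⟨b, rfl⟩)
      · exact (IntermediateField.adjoin B (Set.range (algebraMap Y Z))).algebraMap_mem b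
      · exact IntermediateField.subset_adjoin B _ ⟨b, rfl⟩
    exact h1 (hcomp z)
  haveI : Algebra.EssFiniteType B Z := essFiniteType_of_gen (k := k) (Y := Y) hgenB
  haveI : Algebra.EssFiniteType k Z := Algebra.EssFiniteType.comp k B Z
  haveI : Algebra.EssFiniteType Z N := Algebra.EssFiniteType.of_comp k Z N
  haveI : Algebra.IsAlgebraic Z C := ⟨fun a =>
    (isAlgebraic_algebraMap_iff (algebraMap C N).injective).mp (hCalg a)⟩
  haveI : FiniteDimensional Z C := finite_of_algebraic (N := N)
  haveI : FiniteDimensional K C := Module.Finite.right Z K C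
  haveI : Algebra.EssFiniteType k C := Algebra.EssFiniteType.comp k Z C
  haveI : Algebra.EssFiniteType κ C := Algebra.EssFiniteType.of_comp k κ C
  haveI : Algebra.IsAlgebraic Z K := ⟨fun a =>
    (isAlgebraic_algebraMap_iff (algebraMap K C).injective).mp
      (Algebra.IsAlgebraic.isAlgebraic (R := Z) (algebraMap K C a))⟩
  haveI : FiniteDimensional K Ω := hΩ inferInstance
  haveI : Normal K Ω := hΩn inferInstance
  haveI : IsGalois K Ω := IsGalois.mk
  haveI hMne : Nonempty M.I := by
    obtain ⟨i, -⟩ := M.cover 1 (fun c hc => Valuation.one_apply_of_ne_zero (by simpa using hc))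
    exact ⟨i⟩
  -- the dimensions
  obtain ⟨x, hx⟩ := exists_tb k B
  obtain ⟨y, hy⟩ := exists_tb k Y
  obtain ⟨γ, hγ⟩ := exists_tb k G
  have hdimN : dimension k B + dimension k Y + dimension k G = dimension k N := by
    rw [hdim]
    exact (dimension_eq_of_algebraic (K := E) (L := N)).symm
  have hgenZ : ∀ s : Z, IsAlgebraic (Algebra.adjoin k (Set.range (algebraMap B Z) ∪
      Set.range (algebraMap Y Z))) s := by
    intro s
    rw [← IntermediateField.isAlgebraic_adjoin_iff]
    exact isAlgebraic_algebraMap (⟨s, hcomp s⟩ : IntermediateField.adjoin k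
      (Set.range (algebraMap B Z) ∪ Set.range (algebraMap Y Z)))
  have hdimZ : dimension k B + dimension k Y = dimension k Z := by
    have h1 := card_eq_of_isTranscendenceBasis
      (Z_tb (G := G) (N := N) hdimN halg hgenZ hx hy)
    rw [Fintype.card_sum, Fintype.card_fin, Fintype.card_fin] at h1
    exact h1
  have hdimκ : dimension k κ = dimension k B := dimension_eq_of_algebraic
  have hdimK : dimension k K = dimension k Z := dimension_eq_of_algebraic
  have hdimC : dimension k C = dimension k Z := dimension_eq_of_algebraic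
  haveI : Algebra.EssFiniteType k κ := by
    haveI : Algebra.EssFiniteType B κ := by
      haveI : FiniteDimensional B κ := finite_of_algebraic (N := N)
      infer_instance
    exact Algebra.EssFiniteType.comp k B κ
  haveI : Algebra.EssFiniteType k K := Algebra.EssFiniteType.comp k κ K
  have htbZ : ∀ y : Fin (dimension k Y) → Y, IsTranscendenceBasis k y →
      IsTranscendenceBasis B (fun i => algebraMap Y Z (y i)) := fun y hy =>
    tb_over hdimZ hgenZ hy
  have hgenK : ∀ s : K, IsAlgebraic (Algebra.adjoin k (Set.range (algebraMap κ K) ∪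
      Set.range (algebraMap Y K))) s := by
    intro s
    rw [← IntermediateField.isAlgebraic_adjoin_iff]
    have h1 : IntermediateField.adjoin κ (Set.range (algebraMap Y K)) ≤
        IntermediateField.adjoin κ (Set.range (algebraMap Y K)) := le_rfl
    have h2 : s ∈ IntermediateField.adjoin k
        (Set.range (algebraMap κ K) ∪ Set.range (algebraMap Y K)) := by
      let T : IntermediateField κ K :=
        { (IntermediateField.adjoin k
            (Set.range (algebraMap κ K) ∪ Set.range (algebraMap Y K))).toSubfield with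
          algebraMap_mem' := fun r => IntermediateField.subset_adjoin k _ (Or.inl ⟨r, rfl⟩) }
      have h3 : IntermediateField.adjoin κ (Set.range (algebraMap Y K)) ≤ T := by
        rw [IntermediateField.adjoin_le_iff]
        rintro _ ⟨b, rfl⟩
        exact IntermediateField.subset_adjoin k _ (Or.inr ⟨b, rfl⟩)
      exact h3 (hgen s)
    exact isAlgebraic_algebraMap (⟨s, h2⟩ : IntermediateField.adjoin k
      (Set.range (algebraMap κ K) ∪ Set.range (algebraMap Y K)))
  have htbK : ∀ y : Fin (dimension k Y) → Y, IsTranscendenceBasis k y →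
      IsTranscendenceBasis κ (fun i => algebraMap Y K (y i)) := fun y hy =>
    tb_over (by rw [hdimκ, hdimK, hdimZ]) hgenK hy
  -- the compositum
  have hcompG : Comp k C G N := by
    refine ⟨by rw [hdimC, ← hdimZ, hdimN], ?_⟩
    rw [_root_.eq_top_iff]
    intro z _
    have h1 : IntermediateField.adjoin k
        (Set.range (algebraMap G N) ∪ {s : N | IsAlgebraic Z s}) ≤
        IntermediateField.adjoin k (Set.range (algebraMap C N) ∪ Set.range (algebraMap G N)) := by
      rw [IntermediateField.adjoin_le_iff]
      rintro a (⟨b, rfl⟩ | ha)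
      · exact IntermediateField.subset_adjoin k _ (Or.inr ⟨b, rfl⟩)
      · exact IntermediateField.subset_adjoin k _ (Or.inl (hC a ha))
    exact h1 (hiso z)
  have hCk : ClosedIn k C := closedIn_of_isAlgClosed k C
  have hGk : ClosedIn k G := closedIn_of_isAlgClosed k G
  -- the equations of the divisors
  choose α hα using fun j l => hκ ((D j).a l) ((D j).a_alg l)
  set s : J → K := fun j => ∑ l, algebraMap κ K (α j l) * algebraMap Y K ((D j).s l) with hs
  have hsN : ∀ j, algebraMap K N (s j) = (D j).sec := by
    intro j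
    rw [hs, MovingDivisor.sec, map_sum]
    refine Finset.sum_congr rfl fun l _ => ?_
    rw [map_mul, ← IsScalarTower.algebraMap_apply κ K N, ← IsScalarTower.algebraMap_apply Y K N,
      hα]
  have hS : Setup' M (fun j => (D j).S) κ K s := by
    refine ⟨fun i j => ?_, fun j h0 => ?_, htbK, hgen⟩
    · refine ⟨∑ l, algebraMap κ K (α j l) * algebraMap Y K ((D j).s l / (D j).S.gen i),
        Subalgebra.sum_mem _ fun l _ => Subalgebra.mul_mem _ (Subalgebra.algebraMap_mem _ _)
          (Algebra.subset_adjoin ⟨_, (D j).local_mem i l, rfl⟩), ?_⟩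
      rw [hs, Finset.sum_mul]
      refine Finset.sum_congr rfl fun l _ => ?_
      rw [mul_assoc, ← map_mul, div_mul_cancel₀ _ ((D j).S.ne i)]
    · refine sec_ne_zero' (D j) (fun hx hy hg => fam_tb hdimN halg hx hy hg) hx hγ ?_
      rw [← hsN, h0, map_zero]
  -- the forms
  obtain ⟨z, hz⟩ := exists_tb B E
  obtain ⟨m, hm, f₀, hf₀, hf₀ne, f, hf, hff⟩ := hc.exists_coord hz
  have hyC : IsTranscendenceBasis B (fun i => algebraMap Y C (y i)) := by
    have h1 := (htbZ y hy).algebraMap_comp (A := C)
    refine (iff_of_eq (congrArg _ ?_)).mp h1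
    funext i
    change algebraMap Z C (algebraMap Y Z (y i)) = _
    rw [IsScalarTower.algebraMap_apply Y K C, IsScalarTower.algebraMap_apply Z K C,
      ← IsScalarTower.algebraMap_apply Y Z K]
  have hγN : IsTranscendenceBasis C (fun l => algebraMap G N (γ l)) := hcompG.tb hγ
  set σ : Fin (dimension k Y) ⊕ Fin (dimension k G) → N :=
    Sum.elim (fun j => algebraMap Y N (y j)) (fun l => algebraMap G N (γ l)) with hσ
  have hσtb : IsTranscendenceBasis B σ := by
    have h1 := hyC.sumElim_comp hγN
    have h2 : σ = (Sum.elim (fun l => algebraMap G N (γ l))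
        (algebraMap C N ∘ fun i => algebraMap Y C (y i))) ∘ (Equiv.sumComm _ _) := by
      funext i
      rcases i with i | i
      · simp only [hσ, Sum.elim_inl, Function.comp_apply, Equiv.sumComm_apply, Sum.swap_inl,
          Sum.elim_inr]
        rw [← IsScalarTower.algebraMap_apply Y C N]
      · rfl
    rw [h2]
    exact (isTranscendenceBasis_equiv _).mpr h1
  have hzN : IsTranscendenceBasis B (fun i => algebraMap E N (z i)) := hz.algebraMap_comp
  have hn : dimension B E = dimension k Y + dimension k G := by
    have h1 := card_eq_of_isTranscendenceBasis hzN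
    have h2 := card_eq_of_isTranscendenceBasis hσtb
    rw [Fintype.card_fin] at h1
    rw [Fintype.card_sum, Fintype.card_fin, Fintype.card_fin] at h2
    omega
  let e : Fin (dimension k Y) ⊕ Fin (dimension k G) ≃ Fin (dimension B E) :=
    finSumFinEquiv.trans (finCongr hn.symm)
  have hze : IsTranscendenceBasis B (z ∘ e) := (isTranscendenceBasis_equiv e).mpr hz
  set δ : N := jac hσtb (fun i => algebraMap E N ((z ∘ e) i)) with hδ
  have hδ0 : δ ≠ 0 := jac_ne_zero (hze.algebraMap_comp (A := N)) hσtb
  have hprod : ∀ g ∈ WReg B z m, algebraMap E N g * δ ^ m ∈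
      Prods (κ := κ) (K := K) (C := C) N M (fun j => (D j).S) s y γ m := by
    intro g hg
    have hg' : g ∈ WReg B (z ∘ e) m := Pf72953.WReg.reindex hg e
    have h1 := RelGood.of_WReg (N := N) hx hze hg' hσtb
    have h2 := RelGood.wreg (N := N) hze hg' hσtb
    rw [← hδ] at h1 h2
    have h3 : algebraMap E N g * δ ^ m ∈ WReg B
        (Sum.elim (fun a => algebraMap C N (algebraMap Y C (y a)))
          (fun l => algebraMap G N (γ l))) m := by
      have h4 : (Sum.elim (fun a => algebraMap C N (algebraMap Y C (y a)))
          (fun l => algebraMap G N (γ l)) : Fin (dimension k Y) ⊕ Fin (dimension k G) → N) = σ := by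
        rw [hσ]
        congr 1
        funext a
        rw [← IsScalarTower.algebraMap_apply Y C N]
      rw [h4]
      exact h2
    have h5 := WReg_rel (k := B) (B := C) hyC hγN h3
    obtain ⟨z', hz'⟩ := exists_tb k C
    obtain ⟨n, c', e', hc', he', heW, hF⟩ := hcompG.exists_const hCk hGk hz' hγ h5
    refine ⟨n, c', e', fun a => ?_, heW, hF⟩
    rw [hF] at h1
    exact coef_mem_Bd (E := E) hcompG hGk D hS hsN (fun i => htbZ _ (M.tb i)) hC hout hx hy hγ he' h1 a
  have hfN : AlgebraicIndependent B (fun i => algebraMap E N (f i)) :=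
    hf.map' (f := IsScalarTower.toAlgHom B E N) (algebraMap E N).injective
  refine count hS Ω hy hγ hm (F₀ := algebraMap E N f₀ * δ ^ m) ?_ (hprod f₀ hf₀)
    (hfN.extendScalars κ) (fun i => ?_)
  · exact mul_ne_zero (by simpa using hf₀ne) (pow_ne_zero _ hδ0)
  · have h1 := hprod _ (hff i)
    rwa [map_mul, mul_assoc] at h1

theorem upper_GE (hcomp : IsCompositum k B Y Z)
    (hdim : dimension k B + dimension k Y + dimension k G = dimension k E)
    (halg : ∀ a : N, IsAlgebraic (Algebra.adjoin k (Set.range (algebraMap B N) ∪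
      Set.range (algebraMap Y N) ∪ Set.range (algebraMap G N))) a)
    (hiso : Isotrivial k Z G N) (D : J → MovingDivisor M B N)
    (hout : UnramifiedOutsideOn k Z L G D) {c : ℕ} (hc : KodairaGE B E c) :
    ∃ c₁ c₂ : ℕ, c = c₁ + c₂ ∧ LogKodairaGE M (fun j => (D j).S) c₁ ∧ KodairaGE k G c₂ := by
  let κ := algebraicClosure B N
  let K := IntermediateField.adjoin κ (Set.range (algebraMap Y N))
  let C := algebraicClosure Z N
  letI algYK : Algebra Y K := ((algebraMap Y N).codRestrict K.toSubring
    (fun a => IntermediateField.subset_adjoin κ _ ⟨a, rfl⟩)).toAlgebra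
  haveI : IsScalarTower Y K N := IsScalarTower.of_algebraMap_eq fun _ => rfl
  haveI : Algebra.IsAlgebraic B κ := inferInstance
  have hBK : ∀ b : B, algebraMap B N b ∈ K := fun b => by
    rw [IsScalarTower.algebraMap_apply B κ N]
    exact K.algebraMap_mem _
  have hZK : ∀ z : Z, algebraMap Z N z ∈ K := by
    intro z
    have h1 : IntermediateField.adjoin k
        (Set.range (algebraMap B Z) ∪ Set.range (algebraMap Y Z)) ≤
        (IntermediateField.comap (IsScalarTower.toAlgHom k Z N)
          (K.restrictScalars B |>.restrictScalars k)) := by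
      rw [IntermediateField.adjoin_le_iff]
      rintro _ (⟨b, rfl⟩ | ⟨b, rfl⟩)
      · change algebraMap Z N (algebraMap B Z b) ∈ K
        rw [← IsScalarTower.algebraMap_apply B Z N]
        exact hBK b
      · change algebraMap Z N (algebraMap Y Z b) ∈ K
        rw [← IsScalarTower.algebraMap_apply Y Z N]
        exact IntermediateField.subset_adjoin κ _ ⟨b, rfl⟩
    exact h1 (hcomp z)
  letI algZK : Algebra Z K := ((algebraMap Z N).codRestrict K.toSubring hZK).toAlgebra
  haveI : IsScalarTower Z K N := IsScalarTower.of_algebraMap_eq fun _ => rfl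
  have hκC : ∀ a : κ, IsAlgebraic Z (a : N) := fun a => by
    have h1 : IsAlgebraic B (a : N) := mem_algebraicClosure_iff.mp a.2
    exact h1.extendScalars (algebraMap B Z).injective
  have hKC : ∀ a : K, (a : N) ∈ C := by
    intro a
    have h1 : K ≤ { C.toSubfield with
        algebraMap_mem' := fun r : κ => mem_algebraicClosure_iff.mpr (hκC r) } := by
      rw [IntermediateField.adjoin_le_iff]
      rintro _ ⟨b, rfl⟩
      change algebraMap Y N b ∈ C
      rw [IsScalarTower.algebraMap_apply Y Z N]
      exact C.algebraMap_mem _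
    exact h1 a.2
  letI algKC : Algebra K C := ((algebraMap K N).codRestrict C.toSubring hKC).toAlgebra
  haveI : IsScalarTower K C N := IsScalarTower.of_algebraMap_eq fun _ => rfl
  let Ω := IntermediateField.normalClosure K C (AlgebraicClosure C)
  refine upper_aux (L := L) hcomp hdim halg hiso D hout hc κ K C Ω (fun h => ?_)
    (fun h => inferInstance)
    (fun z hz => ⟨⟨z, mem_algebraicClosure_iff.mpr hz⟩, rfl⟩) (fun z => ?_)
    (fun a => mem_algebraicClosure_iff.mp a.2)
    (fun z hz => ⟨⟨z, mem_algebraicClosure_iff.mpr hz⟩, rfl⟩)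
  · haveI : IsAlgClosure K (AlgebraicClosure C) :=
      ⟨inferInstance, Algebra.IsAlgebraic.trans K C (AlgebraicClosure C)⟩
    haveI : Normal K (AlgebraicClosure C) := IsAlgClosure.normal K (AlgebraicClosure C)
    infer_instance
  · set N' := IntermediateField.adjoin κ (Set.range (algebraMap Y K)) with hN'
    have h1 : K ≤ N'.map K.val := by
      rw [IntermediateField.adjoin_le_iff]
      rintro _ ⟨b, rfl⟩
      exact ⟨algebraMap Y K b, IntermediateField.subset_adjoin κ _ ⟨b, rfl⟩, rfl⟩
    obtain ⟨n, hn, hnz⟩ := h1 z.2
    have h2 : n = z := Subtype.ext hnz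
    rwa [← h2]

end Pf72953.Twr
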