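import Mathlib
import Pool.Agent.Lib.Pf72953.Reduction
import Pool.Agent.Lib.Pf72953t.Core
import Pool.Agent.Lib.Pf72953t.UMain

/-!
Isotrivial fibre spaces over a constant variety: the lower and the upper bound.
-/

set_option autoImplicit false
set_option linter.style.haveILetI false

open scoped WithZero
open Pf72953 Pf72953.Var Pf72953.Mov Pf72953.Up Pf72953.Fib

namespace Pf72953.Twr

theorem logKodairaDim_eq {k Y J : Type*} [Field k] [Field Y] [Algebra k Y] [Fintype J]
    [Algebra.EssFiniteType k Y] {M : SmoothModel k Y} (S : J → LineBundle M) :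
    logKodairaDim M S = ⊥ ∨
      ∃ c : ℕ, LogKodairaGE M S c ∧ logKodairaDim M S = ((c : ℕ∞) : WithBot ℕ∞) := by
  classical
  have hbd : ∀ c, LogKodairaGE M S c → c ≤ dimension k Y := by
    rintro c ⟨m, -, ω, -, -, f, hf, -⟩
    have h1 := natCast_le_trdeg_of_le_dimension hf
    rw [← trdeg_eq_dimension] at h1
    exact_mod_cast h1
  by_cases h : ∃ c, LogKodairaGE M S c
  · right
    obtain ⟨c₀, hc₀⟩ := h
    set c := Nat.findGreatest (fun c => LogKodairaGE M S c) (dimension k Y) with hc
    have hcGE : LogKodairaGE M S c := Nat.findGreatest_spec (P := fun c => LogKodairaGE M S c)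
      (hbd c₀ hc₀) hc₀
    refine ⟨c, hcGE, le_antisymm ?_ ?_⟩
    · refine iSup₂_le fun d hd => ?_
      have : d ≤ c := Nat.le_findGreatest (hbd d hd) hd
      exact_mod_cast this
    · exact le_iSup₂_of_le c hcGE le_rfl
  · left
    push Not at h
    rw [logKodairaDim]
    exact le_antisymm (iSup₂_le fun c hc => absurd hc (h c)) bot_le

variable {k B Y G Z E L N J : Type*} [Field k] [CharZero k] [IsAlgClosed k] [Field B]
  [Field Y] [Field G] [Field Z] [Field E] [Field L] [Field N]
  [Algebra k B] [Algebra k Y] [Algebra k G] [Algebra k Z] [Algebra k E] [Algebra k L] [Algebra k N]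
  [Algebra B Z] [Algebra B E] [Algebra B L] [Algebra B N] [Algebra Y Z] [Algebra Y L]
  [Algebra Y N] [Algebra Z L] [Algebra Z N] [Algebra E L] [Algebra E N] [Algebra L N]
  [Algebra G N] [IsScalarTower k B Z] [IsScalarTower k Y Z] [IsScalarTower k Z N]
  [IsScalarTower k B N] [IsScalarTower k Y N] [IsScalarTower k G N] [IsScalarTower k E N]
  [IsScalarTower k L N] [IsScalarTower k E L] [IsScalarTower k B L] [IsScalarTower k Y L]
  [IsScalarTower k Z L] [IsScalarTower k B E]
  [IsScalarTower B Z L] [IsScalarTower B Z N] [IsScalarTower Y Z L] [IsScalarTower Y Z N]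
  [IsScalarTower B E L] [IsScalarTower B E N] [IsScalarTower B L N] [IsScalarTower Y L N]
  [IsScalarTower Z L N] [IsScalarTower E L N]
  [Algebra.EssFiniteType k B] [Algebra.EssFiniteType k Y] [Algebra.EssFiniteType k G]
  [Algebra.EssFiniteType k E] [FiniteDimensional E L] [FiniteDimensional E N]
  [FiniteDimensional L N] [Fintype J] {M : SmoothModel k Y}

theorem main_GE
    (hcomp : IsCompositum k B Y Z)
    (hdim : dimension k B + dimension k Y + dimension k G = dimension k E)
    (halg : ∀ a : N, IsAlgebraic (Algebra.adjoin k (Set.range (algebraMap B N) ∪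
      Set.range (algebraMap Y N) ∪ Set.range (algebraMap G N))) a)
    (hunr : Unramified k B E L) (hunr' : Unramified k Z L N) (D : J → MovingDivisor M B N)
    (hram : ∀ j, RamifiedOn k L G (D j)) (hpos : PositiveOn L D) {a v b c : ℕ}
    (ha : OrbCoord k B E a) (hv : v = variation k D)
    (hb : LogKodairaGE M (fun j => (D j).S) b) (hc : KodairaGE k G c) :
    KodairaGE k E (a + b + c) ∧ KodairaGE k E (v + b + c) := by
  classical
  obtain ⟨x, hx, m₁, hm₁, h₀, hh₀, hh₀ne, f, hf, hff⟩ := ha
  constructor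
  · refine core' hcomp hdim halg hunr hunr' D hram hpos hx hm₁ hh₀ hh₀ne
      (ξ := fun i => algebraMap B N (f i)) ?_ (fun i => Or.inl ⟨f i, rfl, hff i⟩) hb hc
    exact hf.map' (f := IsScalarTower.toAlgHom k B N) (algebraMap B N).injective
  · haveI : Algebra.EssFiniteType k N := Algebra.EssFiniteType.comp k E N
    set V := IntermediateField.adjoin k (⋃ j, (D j).ratios) with hV
    have hle : Algebra.trdeg k V ≤ Algebra.trdeg k N :=
      trdeg_le_of_injective V.val V.val.injective
    have hVv : (v : Cardinal) = Algebra.trdeg k V := by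
      rw [hv, variation, dimension, Cardinal.cast_toNat_of_lt_aleph0]
      exact hle.trans_lt (trdeg_lt_aleph0 k N)
    obtain ⟨θ, hθ⟩ := exists_algebraicIndependent_of_le_trdeg hVv.le
    have hθL : AlgebraicIndependent k (fun i => (θ i : N)) :=
      hθ.map' (f := V.val) V.val.injective
    obtain ⟨ψ, hψ, hψS⟩ := exists_indep_in_set (⋃ j, (D j).ratios) _ hθL (fun i => by
      rw [← IntermediateField.isAlgebraic_adjoin_iff]
      exact isAlgebraic_algebraMap (θ i))
    exact core' hcomp hdim halg hunr hunr' D hram hpos hx hm₁ hh₀ hh₀ne hψ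
      (fun i => Or.inr (Set.mem_iUnion.mp (hψS i))) hb hc

/-- The lower bound. -/
theorem lower
    (hcomp : IsCompositum k B Y Z)
    (hdim : dimension k B + dimension k Y + dimension k G = dimension k E)
    (halg : ∀ a : N, IsAlgebraic (Algebra.adjoin k (Set.range (algebraMap B N) ∪
      Set.range (algebraMap Y N) ∪ Set.range (algebraMap G N))) a)
    (hunr : Unramified k B E L) (hunr' : Unramified k Z L N) (D : J → MovingDivisor M B N)
    (hram : ∀ j, RamifiedOn k L G (D j)) (hpos : PositiveOn L D) :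
    kodairaDim k B + logKodairaDim M (fun j => (D j).S) + kodairaDim k G ≤ kodairaDim k E ∧
      (orbKodairaDim k B E ≠ ⊥ →
        max (orbKodairaDim k B E) (((variation k D : ℕ) : ℕ∞) : WithBot ℕ∞) +
          logKodairaDim M (fun j => (D j).S) + kodairaDim k G ≤ kodairaDim k E) := by
  have h1 : kodairaDim k B ≤ orbKodairaDim k B E := by
    refine iSup₂_le fun c hc => ?_
    exact le_iSup₂_of_le c hc.orb le_rfl
  have main2 : orbKodairaDim k B E ≠ ⊥ →
        max (orbKodairaDim k B E) (((variation k D : ℕ) : ℕ∞) : WithBot ℕ∞) +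
          logKodairaDim M (fun j => (D j).S) + kodairaDim k G ≤ kodairaDim k E := by
    intro hne
    rcases orbKodairaDim_eq (k := k) (B := B) (E := E) with hB | ⟨a, ha, ha'⟩
    · exact absurd hB hne
    rcases logKodairaDim_eq (M := M) (fun j => (D j).S) with hF | ⟨b, hb, hb'⟩
    · rw [hF]; simp
    rcases kodairaDim_eq (k := k) (K := G) with hG | ⟨c, hc, hc'⟩
    · rw [hG]; simp
    obtain ⟨h2, h3⟩ := main_GE hcomp hdim halg hunr hunr' D hram hpos ha.orbCoord rfl hb hc
    have h4 : KodairaGE k E (max a (variation k D) + b + c) := by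
      rcases max_cases a (variation k D) with ⟨h, -⟩ | ⟨h, -⟩
      · rw [h]; exact h2
      · rw [h]; exact h3
    have h5 : ((((max a (variation k D) + b + c : ℕ) : ℕ∞)) : WithBot ℕ∞) ≤
        kodairaDim k E := le_iSup₂_of_le _ h4 le_rfl
    rw [ha', hb', hc']
    refine le_trans (le_of_eq ?_) h5
    push_cast
    rfl
  refine ⟨?_, main2⟩
  by_cases hne : orbKodairaDim k B E = ⊥
  · have : kodairaDim k B = ⊥ := by
      rw [hne] at h1
      exact le_bot_iff.mp h1
    rw [this]
    simp
  · refine le_trans ?_ (main2 hne)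
    gcongr
    exact h1.trans (le_max_left _ _)

/-- The upper bound. -/
theorem upper (hcomp : IsCompositum k B Y Z)
    (hdim : dimension k B + dimension k Y + dimension k G = dimension k E)
    (halg : ∀ a : N, IsAlgebraic (Algebra.adjoin k (Set.range (algebraMap B N) ∪
      Set.range (algebraMap Y N) ∪ Set.range (algebraMap G N))) a)
    (hiso : Isotrivial k Z G N) (D : J → MovingDivisor M B N)
    (hout : UnramifiedOutsideOn k Z L G D) :
    kodairaDim B E ≤ logKodairaDim M (fun j => (D j).S) + kodairaDim k G := by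
  refine iSup₂_le fun c hc => ?_
  obtain ⟨c₁, c₂, rfl, h₁, h₂⟩ := upper_GE hcomp hdim halg hiso D hout hc
  have h3 : ((c₁ : ℕ∞) : WithBot ℕ∞) ≤ logKodairaDim M (fun j => (D j).S) :=
    le_iSup₂_of_le c₁ h₁ le_rfl
  have h4 : ((c₂ : ℕ∞) : WithBot ℕ∞) ≤ kodairaDim k G := le_iSup₂_of_le c₂ h₂ le_rfl
  refine le_trans (le_of_eq ?_) (add_le_add h3 h4)
  push_cast
  rfl

end Pf72953.Twr
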